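import Pool.Agent.PTA.Defs
import Pool.Agent.PTP.Targets

/-!
# PTA: targets

Port of PTP (row 2604) to tame bodies, row 2630.  All statements for `Tame C`.
-/

set_option autoImplicit false

namespace Pool.Agent.PTA

open Pool.Agent.PTR Filter Topology
open Pool.Agent.PTR.OL (V ii dif difs FLC InHull)
open Pool.Agent.PTP (Til TDP Iv wd SF Abv Stp Stk Ds Sm sd T_FF T_INJ T_GLU)

/-! ## A. Flags -/

/-- LOC. Moving the point along the line of the flag (dichotomy). -/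
def T_LOC : Prop := ∀ C, Tame C → ∀ u v x : V, rdet u v ≠ 0 → ∃ ε₀ > (0 : ℝ),
  ∀ s : ℝ, 0 < s → s < ε₀ →
  (x + s • u ∈ fl C u v ↔ x ∈ fl C u v) ∧ (x + s • u ∈ fl C (-u) v ↔ x ∈ fl C u v)

/-- DIRF. If `e` is not a direction then the sides of the line do not matter. (Otherwise, by the
dichotomy, the points `x + s e` are in the boundary.) -/
def T_DIRF : Prop := ∀ C, Tame C → ∀ e n : V, rdet e n ≠ 0 → ¬ Dir C e →
  fl C e n = fl C e (-n)

/-- INTF. Flags, interior and closure. -/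
def T_INTF : Prop := ∀ C, Tame C → ∀ u v : V, rdet u v ≠ 0 →
  (∀ x ∈ fl C u v, x ∈ C) ∧ (∀ x ∈ interior C, x ∈ fl C u v) ∧
  ∀ x ∈ fl C u v, x ∉ fo C u v

/-- INTU. The same for the outer flags. -/
def T_INTU : Prop := ∀ C, Tame C → ∀ u v : V, rdet u v ≠ 0 →
  (∀ x ∈ fu C u v, x ∈ C) ∧ (∀ x ∈ interior C, x ∈ fu C u v) ∧
  (∀ x ∈ fu C u v, x ∉ fv C u v) ∧
  ∀ x ∈ fu C u v, ∃ ε₀ : ℝ, 0 < ε₀ ∧ ∀ ε : ℝ, 0 < ε → ε < ε₀ → ∀ w, x ∈ fl C (u + ε • v) w

/-- BODY. -/
def T_BODY : Prop := ∀ C, Tame C → IsCompact C ∧ (interior C).Nonempty ∧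
  closure (interior C) = C

/-- WD. Width. -/
def T_WD : Prop := ∀ C, Tame C → ∀ e : V, e ≠ 0 → 0 < wd C e ∧
  (∀ x ∈ C, ∀ y ∈ C, rdet e x - rdet e y ≤ wd C e) ∧
  (∃ x ∈ C, ∃ y ∈ C, rdet e x - rdet e y = wd C e) ∧
  (∃ lo : ℝ, ∀ u v : V, 0 < rdet e u → ∀ x ∈ fl C u v,
    lo ≤ rdet e x ∧ rdet e x < lo + wd C e) ∧
  (Iv C e → ∀ d : ℝ, |d| < wd C e →
    ∃ x ∈ interior C, ∃ y ∈ interior C, d = rdet e x - rdet e y)

/-! ## B. Tilings -/

/-- SEP. The translation vectors are uniformly discrete. -/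
def T_SEP : Prop := ∀ C, Tame C → ∃ ρ > (0 : ℝ), ∀ T : Set V,
  (∀ t ∈ T, ∀ t' ∈ T, ∀ z, z - t ∈ interior C → z - t' ∈ interior C → t = t') →
  (∀ t ∈ T, ∀ t' ∈ T, t ≠ t' → ρ ≤ ‖t - t'‖) ∧ ∀ R : ℝ, {t | t ∈ T ∧ ‖t‖ ≤ R}.Finite

/-- TE. A tiling is an exact cover for every flag. Existence: the points `z + s u + s^2 v`, `s`
small, are in finitely many tiles, one of them contains points with arbitrarily small `s`; INTF.
Uniqueness: the two tiles would have a common interior point. -/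
def T_TE : Prop := ∀ C, Tame C → ∀ T : Set V, Til C T → ∀ u v : V, rdet u v ≠ 0 →
  ECov (fl C u v) T

/-- TU. A tiling is an exact cover for every outer flag. -/
def T_TU : Prop := ∀ C, Tame C → ∀ T : Set V, Til C T → ∀ u v : V, rdet u v ≠ 0 →
  ECov (fu C u v) T

/-- ET. An exact cover for one flag is a tiling. -/
def T_ET : Prop := ∀ C, Tame C → ∀ T : Set V, ∀ u v : V, rdet u v ≠ 0 → ECov (fl C u v) T →
  Til C T

/-! ## C. Corners -/

/-- KKD. The corner function vanishes outside the crossing points. (All the lines through `x` are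
parallel: if to `e` then `(e, ±n)` and `(-e, ±n)` agree, otherwise `(e, n)` and `(e, -n)` agree.) -/
def T_KKD : Prop := ∀ C, Tame C → ∀ e n x : V, rdet e n ≠ 0 → kk C e n x ≠ 0 → x ∈ cD C

/-- NZ. There is a nonzero corner. A segment parallel to `e` in the boundary: `x` in exactly one of
`(e, n)`, `(e, -n)`. If `kk C e n = 0` everywhere then by LOC the jump
`ii (fl C e n) - ii (fl C e (-n))` is constant along `x + ℝ e`, impossible for a bounded body. -/
def T_NZ : Prop := ∀ C, Tame C → (∃ e, Dir C e) → ∃ e n x : V, rdet e n ≠ 0 ∧ kk C e n x ≠ 0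

/-- SUM. The sum of the corners of the tiles in `K`. -/
def T_SUM : Prop := ∀ C, Tame C → ∀ T K : Set V, Til C T → K ⊆ T → ∀ e n z : V,
  rdet e n ≠ 0 → cs C e n K z =
    ii (cv C e n K) z - ii (cv C e (-n) K) z - ii (cv C (-e) n K) z + ii (cv C (-e) (-n) K) z

/-- REL. The relation (`OL.special`, NZ). -/
def T_REL : Prop := ∀ C, Tame C → (∃ e, Dir C e) → ∃ L : List V, (∀ w ∈ L, w ≠ 0) ∧
  ∀ K : Set V, Cf C K → difs L (ii K) = 0

/-- REL2. A relation for all tilings. If there is a direction: REL and CFT. Otherwise some point is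
in exactly one of `fl C u v`, `fu C u v` (FF with `A = Prop`, `F u v z = (z ∈ fl C u v)`,
`Par e a b = (a = b)`: no jumps; if `fl = fu` always, the perturbation hypothesis holds and `F` is
constant, impossible for a bounded set with interior points); the difference of the indicator
functions is a kernel with finite support and `∑ = 1 - 1 = 0` (TE, TU); `OL.special`. -/
def T_REL2 : Prop := ∀ C, Tame C → ∃ L : List V, (∀ w ∈ L, w ≠ 0) ∧
  ∀ T : Set V, Til C T → difs L (ii T) = 0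

/-- CFT. Tilings and half planes are corner free. -/
def T_CFT : Prop := ∀ C, Tame C → ∀ T : Set V, Til C T →
  Cf C T ∧ ∀ (e : V) (c : ℝ), e ≠ 0 → SF C e T c → Cf C (Abv C e T c)

/-- PFLC (theorem R5). REL, CFT, TE, `PTL.T_FLCR`, ET. -/
def T_PFLC : Prop := ∀ C, Tame C → ∀ T : Set V, Til C T → FLC T → TDP C

/-! ## D. Ultralimits -/

/-- ULT. Limits of tilings are tilings, and there are displacements. -/
def T_ULT : Prop := ∀ C, Tame C → ∀ (U : Ultrafilter ℕ) (Tn : ℕ → Set V),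
  (∀ n, Til C (Tn n)) → Til C (Lim U Tn) ∧ ∃ δ, Ds U Tn δ

/-- ULB. Bounded sequences of tiles. -/
def T_ULB : Prop := ∀ C, Tame C → ∀ (U : Ultrafilter ℕ) (Tn : ℕ → Set V),
  (∀ n, Til C (Tn n)) → ∀ δ, Ds U Tn δ → ∀ (f : ℕ → V) (R : ℝ),
  (∀ᶠ n in (U : Filter ℕ), f n ∈ Tn n) → (∀ᶠ n in (U : Filter ℕ), ‖f n‖ ≤ R) →
  ∃ t ∈ Lim U Tn, ∀ᶠ n in (U : Filter ℕ), f n = t + δ t n

/-- CLS. Classes of displacements are corner free. For almost all `n`: `z - v` is in the class iff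
`z + g n - v ∈ Tn n`, for the finitely many `v ∈ cD C`; CFT for `Tn n`. -/
def T_CLS : Prop := ∀ C, Tame C → ∀ (U : Ultrafilter ℕ) (Tn : ℕ → Set V),
  (∀ n, Til C (Tn n)) → ∀ δ, Ds U Tn δ → ∀ g : ℕ → V,
  Tendsto g (U : Filter ℕ) (𝓝 0) →
  Cf C {t | t ∈ Lim U Tn ∧ ∀ᶠ n in (U : Filter ℕ), δ t n = g n}

/-- CLG. The same for every kernel with finite support which annihilates all tilings. -/
def T_CLG : Prop := ∀ C, Tame C → ∀ (D : Finset V) (κ : V → ℤ),
  (∀ T, Til C T → ∀ z, ∑ x ∈ D, κ x * ii T (z - x) = 0) → ∀ (U : Ultrafilter ℕ)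
  (Tn : ℕ → Set V), (∀ n, Til C (Tn n)) → ∀ δ, Ds U Tn δ → ∀ g : ℕ → V,
  Tendsto g (U : Filter ℕ) (𝓝 0) → ∀ z,
  ∑ x ∈ D, κ x * ii {t | t ∈ Lim U Tn ∧ ∀ᶠ n in (U : Filter ℕ), δ t n = g n} (z - x) = 0

/-- IOC. The tiles of the inner and of the outer flag at `z` have the same displacement (CLG with
the difference of the indicator functions of `fl C u v` and `fu C u v`; TE, TU). -/
def T_IOC : Prop := ∀ C, Tame C → ∀ (U : Ultrafilter ℕ) (Tn : ℕ → Set V),
  (∀ n, Til C (Tn n)) → ∀ δ, Ds U Tn δ → ∀ u v z t t' : V, rdet u v ≠ 0 →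
  t ∈ Lim U Tn → t' ∈ Lim U Tn → z - t ∈ fl C u v → z - t' ∈ fu C u v → Sm U δ t t'

/-- SFL. Faults pass to the limit. -/
def T_SFL : Prop := ∀ C, Tame C → ∀ (U : Ultrafilter ℕ) (Tn : ℕ → Set V) (e : V) (c : ℝ),
  e ≠ 0 → (∀ n, SF C e (Tn n) c) → SF C e (Lim U Tn) c

/-! ## E. The sliding lemma -/

/-- JD. The jump of the displacement across the direction `e` is parallel to `e`: row 2604 (3).
Replace `z` by `z + s e`, `s > 0` small and such that all the bounding lines through `z` of the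
(finitely many) tiles near `z` are parallel to `e`; then `t`, `t'` are the only tiles containing
`z` (EDGE, TE). In `Tn n` the `(e, -n)`-tile of `z + δ t n` is, by ULB and closedness, the tile
`t'' + δ t'' n` with `t'' = t` or `t'`, hence `t'' = t'`; so `z - t' + (δ t n - δ t' n)` is in
`fl C e (-n)` and not in `fl C e n`; LINF and a limit. -/
def T_JD : Prop := ∀ C, Tame C → ∀ (U : Ultrafilter ℕ) (Tn : ℕ → Set V),
  (∀ n, Til C (Tn n)) → ∀ δ, Ds U Tn δ → ∀ e n z t t' : V, rdet e n ≠ 0 →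
  t ∈ Lim U Tn → t' ∈ Lim U Tn → z - t ∈ fl C e n → z - t' ∈ fl C e (-n) →
  ∀ᶠ m in (U : Filter ℕ), rdet e (δ t m) = rdet e (δ t' m)

/-- FOUR. The four term relation for the classes. SUM and CLS for the class of `t` and the class
of `t'`. -/
def T_FOUR : Prop := ∀ C, Tame C → ∀ (U : Ultrafilter ℕ) (Tn : ℕ → Set V),
  (∀ n, Til C (Tn n)) → ∀ δ, Ds U Tn δ → ∀ e n z t t' s s' : V, rdet e n ≠ 0 →
  t ∈ Lim U Tn → t' ∈ Lim U Tn → s ∈ Lim U Tn → s' ∈ Lim U Tn →
  z - t ∈ fl C e n → z - t' ∈ fl C e (-n) → z - s ∈ fl C (-e) n →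
  z - s' ∈ fl C (-e) (-n) → ¬ Sm U δ t t' → Sm U δ t s ∧ Sm U δ t' s'

/-- FF2. `PTP.T_FF` with a perturbation parameter which depends on the point. -/
def T_FF2 : Prop := ∀ (A : Type) (F : V → V → V → A) (Par : V → A → A → Prop) (D : V → Prop),
  (∀ u v z, rdet u v ≠ 0 → ∃ ε₀ > (0 : ℝ), ∀ ε : ℝ, 0 < ε → ε < ε₀ → ∀ w,
    rdet (u + ε • v) w ≠ 0 → F (u + ε • v) w z = F u v z) →
  (∀ u v (l m k : ℝ), 0 < l → 0 < m → rdet u v ≠ 0 → ∀ z,
    F (l • u) (m • v + k • u) z = F u v z) →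
  (∀ u v z, rdet u v ≠ 0 → ∃ ε₀ > (0 : ℝ), ∀ s : ℝ, 0 < s → s < ε₀ →
    F u v (z + s • u) = F u v z ∧ F (-u) v (z + s • u) = F u v z) →
  (∀ e n z, rdet e n ≠ 0 → F e n z ≠ F e (-n) z →
    F (-e) n z = F e n z ∧ F (-e) (-n) z = F e (-n) z) →
  (∀ e n z, rdet e n ≠ 0 → Par e (F e n z) (F e (-n) z)) →
  (∀ e, Equivalence (Par e)) → (∀ e (c : ℝ) a b, c ≠ 0 → Par (c • e) a b → Par e a b) →
  (∀ e e' a b, rdet e e' ≠ 0 → Par e a b → Par e' a b → a = b) →
  (∀ e n z, rdet e n ≠ 0 → F e n z ≠ F e (-n) z → D e) →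
  (∀ u v u' v' z z', rdet u v ≠ 0 → rdet u' v' ≠ 0 → F u v z = F u' v' z') ∨
  ∃ e, e ≠ 0 ∧ D e ∧
    (∀ u v u' v' z z', rdet u v ≠ 0 → rdet u' v' ≠ 0 → Par e (F u v z) (F u' v' z')) ∧
    ∀ u v u' v' z z', rdet u v ≠ 0 → rdet u' v' ≠ 0 → rdet e z = rdet e z' →
      (sd e u v ↔ sd e u' v') → F u v z = F u' v' z'

/-- SLIDE. The sliding lemma. `FF` with `A = Germ U V`, `F u v z` the germ of `δ t` for the tile `t`
of the flag `(u, v)` at `z` (TE), `Par e a b` iff `rdet e` of the two germs agree, `D = Dir C`;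
PERT, SCAL, LOC, FOUR, JD, DIRF. -/
def T_SLIDE : Prop := ∀ C, Tame C → ∀ (U : Ultrafilter ℕ) (Tn : ℕ → Set V),
  (∀ n, Til C (Tn n)) → ∀ δ, Ds U Tn δ →
  (∀ t ∈ Lim U Tn, ∀ t' ∈ Lim U Tn, Sm U δ t t') ∨ ∃ e, Dir C e ∧ Sl C U Tn δ e

/-- FC. Faults between classes. `a` = supremum of the heights of the tiles of the class of `t` which
are below `t'`; `rdet e t' ≥ a + wd`, no tile has its height in `(a, a + wd)`. -/
def T_FC : Prop := ∀ C, Tame C → ∀ e : V, e ≠ 0 → Iv C e → ∀ (T : Set V)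
  (R : V → V → Prop), (∀ t ∈ T, ∀ t' ∈ T, R t t' → R t' t) →
  (∀ t ∈ T, ∀ t' ∈ T, ∀ t'' ∈ T, R t t' → R t' t'' → R t t'') →
  (∀ t ∈ T, ∀ t' ∈ T, ∀ x ∈ interior C, ∀ y ∈ interior C,
    rdet e (t + x) = rdet e (t' + y) → R t t') →
  ∀ t ∈ T, ∀ t' ∈ T, ¬ R t t' → rdet e t ≤ rdet e t' →
  ∃ c, SF C e T c ∧ (∀ x ∈ C, rdet e (t + x) ≤ c) ∧
    ∀ x ∈ C, c ≤ rdet e (t' + x)

/-- SLF. Sliding gives a fault: FC with `R = Sm U δ`, for tiles whose interiors meet a common line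
parallel to `e` (the flag `(u, v)` at an interior point). -/
def T_SLF : Prop := ∀ C, Tame C → ∀ (U : Ultrafilter ℕ) (Tn : ℕ → Set V),
  (∀ n, Til C (Tn n)) → ∀ δ, Ds U Tn δ → ∀ e, e ≠ 0 → Iv C e → Sl C U Tn δ e →
  ∀ t ∈ Lim U Tn, ∀ t' ∈ Lim U Tn, ¬ Sm U δ t t' →
  (∃ c, SF C e (Lim U Tn) c ∧ (∀ x ∈ C, rdet e (t + x) ≤ c) ∧
    ∀ x ∈ C, c ≤ rdet e (t' + x)) ∨
  ∃ c, SF C e (Lim U Tn) c ∧ (∀ x ∈ C, rdet e (t' + x) ≤ c) ∧
    ∀ x ∈ C, c ≤ rdet e (t + x)

/-! ## F. No faults -/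

/-- A0. A tiling which is not of finite local complexity gives a tiling with a fault. Infinitely
many differences `d n` (injective), `t n ∈ T`, `t n + d n ∈ T`; `Tn n = {z | z + t n ∈ T}`,
`U = hyperfilter ℕ`; ULB gives the limits `0` and `t'`, `Sm` fails since `d n = t' + δ t' n - δ 0 n`
is injective; SLIDE, SLF. -/
def T_A0 : Prop := ∀ C, Tame C → (∀ e, Dir C e → Iv C e) → ∀ T : Set V,
  Til C T → ¬ FLC T → ∃ e, Dir C e ∧ ∃ T' c, Til C T' ∧ SF C e T' c

/-! ## G. Strips -/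

/-- STA. The tiles between two faults. -/
def T_STA : Prop := ∀ C, Tame C → ∀ e : V, e ≠ 0 → ∀ (T : Set V) (c c' : ℝ),
  Til C T → c < c' → SF C e T c → SF C e T c' →
  ∃ T', Stp C e (c' - c) T'

/-- STB. A strip is at least as wide as the body; an inner fault of a strip gives a narrower
strip, with an inner fault at distance at least `wd` from both sides. -/
def T_STB : Prop := ∀ C, Tame C → ∀ e : V, e ≠ 0 → ∀ (T : Set V) (h : ℝ), Stp C e h T →
  wd C e ≤ h ∧ ∀ c, 0 < c → c < h → SF C e T c →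
    wd C e ≤ h - c ∧ ∃ T', Stp C e c T'

/-- STK. The stack of a strip. -/
def T_STK : Prop := ∀ C, Tame C → ∀ e w : V, ∀ (T : Set V) (h : ℝ), Stp C e h T →
  rdet e w = h → Til C (Stk w T) ∧ Per w (Stk w T) ∧
    ∀ k : ℤ, SF C e (Stk w T) (k * h)

/-- STZ. Row 2604 (8), second case. If all the tilings `Tn n` have the faults `k h`, `k ∈ ℤ`, and
`e'` is a slide direction not parallel to `e`, then all displacements are equal. For `t` in the
limit and an interior point `y` of `t + C` let `y₀` be the point on the line of `y` in the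
direction `e'`
with height `k h ≤ rdet e y`. The tiles `t₂`, `t₃` of the flags `(e, n)`, `(e, -n)` at `y₀`
(`rdet e n > 0`): the displacement of `t` and of `t₂` agree if `n` is chosen parallel to `e'`
(sides with respect to `e'` of the flags `(e, n)` at `y₀` and at `y` agree: same flag), JD gives
`rdet e (δ t₂) = rdet e (δ t₃)`, and `rdet e (δ t₂) ≥ 0 ≥ rdet e (δ t₃)` because `t₂ + C` touches
the fault from above (its point `y₀`) and `t₂ + δ + C` stays above it. -/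
def T_STZ : Prop := ∀ C, Tame C → ∀ (U : Ultrafilter ℕ) (Tn : ℕ → Set V),
  (∀ n, Til C (Tn n)) → ∀ δ, Ds U Tn δ → ∀ e e' : V, rdet e e' ≠ 0 → ∀ h : ℝ, 0 < h →
  (∀ n, ∀ k : ℤ, SF C e (Tn n) (k * h)) → Sl C U Tn δ e' →
  ∀ t ∈ Lim U Tn, ∀ t' ∈ Lim U Tn, Sm U δ t t'

/-- STF. A strip of height `h` such that no tiling of a strip of height `h` has an inner fault: the
stack has finite local complexity. Row 2604 (8). -/
def T_STF : Prop := ∀ C, Tame C → (∀ e, Dir C e → Iv C e) → ∀ e, Dir C e →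
  ∀ h : ℝ, (∀ T, Stp C e h T → ∀ c, 0 < c → c < h → ¬ SF C e T c) →
  ∀ T w, Stp C e h T → rdet e w = h → FLC (Stk w T)

/-- A1. Two parallel faults: there is a doubly periodic tiling. STA; a strip with `⌊h / wd⌋`
minimal has no inner fault (STB); STF, STK, TE, `per_case`, ET. -/
def T_A1 : Prop := ∀ C, Tame C → (∀ e, Dir C e → Iv C e) → ∀ e, Dir C e →
  ∀ (T : Set V) (c c' : ℝ), Til C T → c < c' → SF C e T c → SF C e T c' →
  TDP C

/-! ## H. Half planes -/

/-- No tiling has two parallel faults. -/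
def NS (C : Set V) : Prop := ∀ e, Dir C e → ∀ (T : Set V) (c c' : ℝ),
  Til C T → c < c' → SF C e T c → SF C e T c' → False

/-- HRL. The half plane has a relation in the direction `e` only. CFT, REL, INJ. -/
def T_HRL : Prop := ∀ C, Tame C → (∃ e, Dir C e) → ∀ (T : Set V) (e : V) (c : ℝ), e ≠ 0 → Til C T →
  SF C e T c →
  ∃ L : List V, (∀ w ∈ L, w ≠ 0 ∧ rdet e w = 0) ∧ difs L (ii (Abv C e T c)) = 0

/-- HW. Windows of the half plane have finite local complexity. Row 2604 (9)(W). -/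
def T_HW : Prop := ∀ C, Tame C → (∀ e, Dir C e → Iv C e) → NS C → ∀ e, Dir C e →
  ∀ (T : Set V) (c : ℝ), Til C T → SF C e T c → ∀ R : ℝ,
  {d | ‖d‖ ≤ R ∧ |rdet e d| < wd C e ∧
    ∃ t ∈ Abv C e T c, t + d ∈ Abv C e T c}.Finite

/-- HP. The half plane is periodic. As `PTR.core`: every row is periodic with one of finitely many
pairwise incommensurable periods (`one_period`, `inc_list`), rows of heights differing by less than
`wd` have the same one (`inc_false`), and FC connects all rows (another fault above `c`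
contradicts `NS`). -/
def T_HP : Prop := ∀ C, Tame C → (∀ e, Dir C e → Iv C e) → NS C → ∀ e, Dir C e →
  ∀ (T : Set V) (c : ℝ), Til C T → SF C e T c →
  ∃ p : V, p ≠ 0 ∧ rdet e p = 0 ∧ Per p (Abv C e T c)

/-- HG. Pigeonhole and gluing. `C = fl C u₀ v₀` with `rdet e u₀ > 0` (WD, TE; a point of height
`≥ c` is in a tile of `T⁺` for this flag by INTF); `p` replaced by `-p` if necessary. For tiles `t`
high enough the set `{d | |rdet e d| < wd, t + d ∈ T⁺}` is determined by its part with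
`‖d‖ ≤ R` (period
`p`): finitely many patterns; two tiles `t`, `t'` with `rdet e (t' - t) ≥ wd` and the same pattern;
`v = t' - t`; GLU with the window `rdet e t - wd < rdet e w < rdet e t + wd` containing the window
of GLU; ET. -/
def T_HG : Prop := ∀ C, Tame C → ∀ e : V, e ≠ 0 → ∀ (T : Set V) (c : ℝ), Til C T →
  SF C e T c → (∀ R : ℝ, {d | ‖d‖ ≤ R ∧ |rdet e d| < wd C e ∧
    ∃ t ∈ Abv C e T c, t + d ∈ Abv C e T c}.Finite) →
  ∀ p : V, p ≠ 0 → rdet e p = 0 → Per p (Abv C e T c) → TDP C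

/-! ## Main theorem -/

/-- R6. If `NS C` fails then A1. Otherwise, if some tiling has a fault then HW, HP, HG; if no tiling
has a fault then A0 and PFLC. -/
def T_R6 : Prop := ∀ C, Tame C → (∀ e, Dir C e → Iv C e) → (∃ T, Til C T) →
  TDP C

end Pool.Agent.PTA
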