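import Pool.Agent.PTA.P_A
import Pool.Agent.PTA.P_FF2
import Pool.Agent.PTA.Targets

/-!
# PTA: target REL2

A relation for all tilings.  If the boundary contains no segment then some inner flag differs from
the corresponding outer flag (sliding lemma with values in `Prop`), and the difference is a kernel
with finite support which annihilates all tilings.
-/

set_option autoImplicit false

namespace Pool.Agent.PTA

open Pool.Agent.PTR Filter Topology
open Pool.Agent.PTP (Til TDP Iv wd SF Abv Stp Stk Ds Sm sd T_FF T_INJ T_GLU)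
open Pool.Agent.PTR.OL (V ii dif difs FLC InHull ii_of_mem)

namespace R2

lemma ii_of_nmem {T : Set V} {z : V} (h : z ∉ T) : ii T z = 0 := by
  unfold ii
  rw [if_neg h]

lemma sum_flag {C T : Set V} {z t : V} (hT : t ∈ T) (ht : z - t ∈ C)
    (hu : ∀ t' ∈ T, z - t' ∈ C → t' = t) (G : Finset V) (hG : z - t ∈ G) :
    ∑ x ∈ G, ii C x * ii T (z - x) = 1 := by
  rw [Finset.sum_eq_single (z - t)]
  · rw [ii_of_mem ht, one_mul, sub_sub_cancel, ii_of_mem hT]
  · intro x _ hne
    by_cases h1 : x ∈ C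
    · have : z - x ∉ T := by
        intro h2
        apply hne
        have h3 := hu (z - x) h2 (by rw [sub_sub_cancel]; exact h1)
        rw [← h3, sub_sub_cancel]
      rw [ii_of_nmem this, mul_zero]
    · rw [ii_of_nmem h1, zero_mul]
  · exact fun h => absurd hG h

/-- The kernel given by the difference of two exact covers. -/
lemma kernel {A B T : Set V} (hA : ECov A T) (hB : ECov B T) (D : Finset V)
    (hD : ∀ x, ¬ (x ∈ A ↔ x ∈ B) → x ∈ D) (z : V) :
    ∑ x ∈ D, (ii A x - ii B x) * ii T (z - x) = 0 := by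
  classical
  obtain ⟨t, ⟨h1, h2⟩, h3⟩ := hA z
  obtain ⟨t', ⟨h1', h2'⟩, h3'⟩ := hB z
  set G : Finset V := D ∪ {z - t, z - t'} with hG
  have e1 : ∑ x ∈ D, (ii A x - ii B x) * ii T (z - x) =
      ∑ x ∈ G, (ii A x - ii B x) * ii T (z - x) := by
    refine Finset.sum_subset Finset.subset_union_left fun x _ hx => ?_
    have h4 : x ∈ A ↔ x ∈ B := by
      by_contra hc
      exact hx (hD x hc)
    have h5 : ii A x = ii B x := by
      by_cases h6 : x ∈ A
      · rw [ii_of_mem h6, ii_of_mem (h4.1 h6)]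
      · rw [ii_of_nmem h6, ii_of_nmem (fun h7 => h6 (h4.2 h7))]
    rw [h5, sub_self, zero_mul]
  rw [e1]
  simp only [sub_mul, Finset.sum_sub_distrib]
  rw [sum_flag h1 h2 (fun s hs hs' => h3 s ⟨hs, hs'⟩) G
      (Finset.mem_union_right _ (Finset.mem_insert_self _ _)),
    sum_flag h1' h2' (fun s hs hs' => h3' s ⟨hs, hs'⟩) G
      (Finset.mem_union_right _ (Finset.mem_insert_of_mem (Finset.mem_singleton_self _)))]
  norm_num

/-- A flag contains in its closure the points of the line. -/
lemma line_mem {C : Set V} (hC : closure (interior C) = C) {u w x : V} (hx : x ∈ fl C u w) :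
    ∃ s₀ : ℝ, 0 < s₀ ∧ ∀ s : ℝ, 0 < s → s < s₀ → x + s • u ∈ C := by
  obtain ⟨s₀, h0, h⟩ := hx
  refine ⟨s₀, h0, fun s a b => ?_⟩
  obtain ⟨r₀, h1, h2⟩ := h s a b
  rw [← hC, mem_closure_iff_nhdsWithin_neBot]
  have h3 : Tendsto (fun r : ℝ => x + s • u + r • w) (𝓝[>] 0) (𝓝[interior C] (x + s • u)) := by
    rw [tendsto_nhdsWithin_iff]
    constructor
    · have hc : Continuous (fun r : ℝ => x + s • u + r • w) := by fun_prop
      have h4 := hc.tendsto 0
      simp only [zero_smul, add_zero] at h4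
      exact h4.mono_left nhdsWithin_le_nhds
    · exact mem_nhdsGT_iff_exists_Ioo_subset.2 ⟨r₀, h1, fun r hr => h2 r hr.1 hr.2⟩
  exact h3.neBot

/-- There is a flag with a difference between inner and outer. -/
lemma exists_diff (hINTU : T_INTU) {C : Set V} (hC : Tame C) (hno : ¬ ∃ e, Dir C e) :
    ∃ u v x : V, rdet u v ≠ 0 ∧ ¬ (x ∈ fl C u v ↔ x ∈ fu C u v) := by
  by_contra hcon
  push Not at hcon
  have heq : ∀ u v x : V, rdet u v ≠ 0 → (x ∈ fl C u v ↔ x ∈ fu C u v) := by
    intro u v x huv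
    have := hcon u v x huv
    tauto
  have hdir : ∀ e n : V, rdet e n ≠ 0 → fl C e n = fl C e (-n) := fun e n hen =>
    p_DIRF C hC e n hen (fun h => hno ⟨e, h⟩)
  have key := p_FF2 Prop (fun u v z => z ∈ fl C u v) (fun _ a b => a = b) (fun _ => False)
    (by
      intro u v z huv
      by_cases hz : z ∈ fl C u v
      · obtain ⟨ε₀, h0, h⟩ := (hINTU C hC u v huv).2.2.2 z ((heq u v z huv).1 hz)
        refine ⟨ε₀, h0, fun ε a b w _ => ?_⟩
        exact propext (iff_of_true (h ε a b w) hz)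
      · have hz' : z ∈ fv C u v := by
          rcases hC.dich2 u v z huv with h | h
          · exact absurd ((heq u v z huv).2 h) hz
          · exact h
        obtain ⟨ε₀, h0, h⟩ := hz'
        refine ⟨ε₀, h0, fun ε a b w _ => ?_⟩
        refine propext (iff_of_false (fun hin => ?_) hz)
        obtain ⟨s₀, h1, h2⟩ := line_mem hC.cl hin
        obtain ⟨s₁, h3, h4⟩ := h ε a b
        have h5 : 0 < min s₀ s₁ := lt_min h1 h3
        have h6 : min s₀ s₁ / 2 < min s₀ s₁ := by linarith
        exact h4 (min s₀ s₁ / 2) (by positivity) (h6.trans_le (min_le_right _ _))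
          (h2 (min s₀ s₁ / 2) (by positivity) (h6.trans_le (min_le_left _ _))))
    (by
      intro u v l m k hl hm huv z
      exact congrArg (fun A : Set V => z ∈ A) (hC.scal u v l m k huv hl hm))
    (by
      intro u v z huv
      obtain ⟨ε₀, h0, h⟩ := p_LOC C hC u v z huv
      exact ⟨ε₀, h0, fun s a b => ⟨propext (h s a b).1, propext (h s a b).2⟩⟩)
    (by
      intro e n z hen hne
      exact absurd (congrArg (fun A : Set V => z ∈ A) (hdir e n hen)) hne)
    (by
      intro e n z hen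
      exact congrArg (fun A : Set V => z ∈ A) (hdir e n hen))
    (fun _ => ⟨fun _ => rfl, fun h => h.symm, fun h h' => h.trans h'⟩)
    (fun _ _ _ _ _ h => h)
    (fun _ _ _ _ _ h _ => h)
    (by
      intro e n z hen hne
      exact hne (congrArg (fun A : Set V => z ∈ A) (hdir e n hen)))
  rcases key with h | ⟨e, -, h, -⟩
  · obtain ⟨x, hx⟩ := hC.ne
    have huv : rdet ((1, 0) : V) ((0, 1) : V) ≠ 0 := by simp [rdet]
    have h1 : x ∈ fl C (1, 0) (0, 1) := (p_INTF C hC _ _ huv).2.1 x hx
    obtain ⟨R, hR⟩ := hC.cpt.isBounded.exists_norm_le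
    have h2 := h (1, 0) (0, 1) (1, 0) (0, 1) x (R + 1, 0) huv huv
    have h3 : ((R + 1, 0) : V) ∈ fl C (1, 0) (0, 1) := by
      have h2' : (x ∈ fl C (1, 0) (0, 1)) = (((R + 1, 0) : V) ∈ fl C (1, 0) (0, 1)) := h2
      rw [← h2']
      exact h1
    have h4 := hR _ ((p_INTF C hC _ _ huv).1 _ h3)
    have h5 := norm_fst_le ((R + 1, 0) : V)
    rw [Real.norm_eq_abs] at h5
    have h6 := le_abs_self (R + 1)
    have h7 : ((R + 1, 0) : V).1 = R + 1 := rfl
    rw [h7] at h5
    linarith
  · exact h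

end R2

theorem p_REL2_of (hREL : T_REL) (hCFT : T_CFT) (hTE : T_TE) (hTU : T_TU) (hINTU : T_INTU) :
    T_REL2 := by
  classical
  intro C hC
  by_cases hD : ∃ e, Dir C e
  · obtain ⟨L, hL, h⟩ := hREL C hC hD
    exact ⟨L, hL, fun T hT => h T (hCFT C hC T hT).1⟩
  · obtain ⟨u, v, x, huv, hx⟩ := R2.exists_diff hINTU hC hD
    set D : Finset V := (hC.iof u v huv).toFinset with hDdef
    have hmem : ∀ y, ¬ (y ∈ fl C u v ↔ y ∈ fu C u v) → y ∈ D := by
      intro y hy
      rw [hDdef, Set.Finite.mem_toFinset]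
      exact hy
    have hne : ii (fl C u v) x - ii (fu C u v) x ≠ 0 := by
      by_cases h1 : x ∈ fl C u v
      · have h2 : x ∉ fu C u v := fun h2 => hx (iff_of_true h1 h2)
        rw [ii_of_mem h1, R2.ii_of_nmem h2]
        norm_num
      · have h2 : x ∈ fu C u v := by
          by_contra h2
          exact hx (iff_of_false h1 h2)
        rw [ii_of_mem h2, R2.ii_of_nmem h1]
        norm_num
    refine ⟨_, ?_, fun T hT => OL.special D (fun y => ii (fl C u v) y - ii (fu C u v) y) (ii T)
      (OL.ii_bdd T) (fun z => R2.kernel (hTE C hC T hT u v huv) (hTU C hC T hT u v huv) D hmem z)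
      (hmem x hx) hne⟩
    intro w hw
    obtain ⟨v, hv, rfl⟩ := List.mem_map.1 hw
    rw [Finset.mem_toList, Finset.mem_erase] at hv
    exact smul_ne_zero (Nat.factorial_ne_zero _) (sub_ne_zero.2 hv.1)

end Pool.Agent.PTA
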