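import Pool.Agent.PTA.P_TE

/-!
# PTA: the sum of the corners, and corner freeness of tilings and of half planes
-/

set_option autoImplicit false

namespace Pool.Agent.PTA

open Pool.Agent.PTR Filter Topology
open Pool.Agent.PTP (Til TDP Iv wd SF Abv Stp Stk Ds Sm sd T_FF T_INJ T_GLU)
open Pool.Agent.PTR.OL (V ii ii_of_mem)

/-! ## Auxiliary facts -/

lemma ii_of_nmem' {T : Set V} {z : V} (h : z ∉ T) : ii T z = 0 := by
  unfold ii
  rw [if_neg h]

lemma rd_add (e x y : V) : rdet e (x + y) = rdet e x + rdet e y := by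
  simp only [rdet, Prod.fst_add, Prod.snd_add]; ring

lemma rd_sub (e x y : V) : rdet e (x - y) = rdet e x - rdet e y := by
  simp only [rdet, Prod.fst_sub, Prod.snd_sub]; ring

lemma rd_smul (e x : V) (s : ℝ) : rdet e (s • x) = s * rdet e x := by
  simp only [rdet, Prod.smul_fst, Prod.smul_snd, smul_eq_mul]; ring

lemma rd_neg (e x : V) : rdet e (-x) = -rdet e x := by
  simp only [rdet, Prod.fst_neg, Prod.snd_neg]; ring

lemma rd_negl (e x : V) : rdet (-e) x = -rdet e x := by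
  simp only [rdet, Prod.fst_neg, Prod.snd_neg]; ring

/-- The tile of a flag. -/
lemma exists_ftile (hTE : T_TE) {C : Set V} (hP : Tame C) {T : Set V}
    (hT : Til C T) {u v : V} (h : rdet u v ≠ 0) (z : V) :
    ∃ t, t ∈ T ∧ z - t ∈ fl C u v ∧ ∀ t' ∈ T, z - t' ∈ fl C u v → t' = t := by
  obtain ⟨t, ⟨h1, h2⟩, h3⟩ := hTE C hP T hT u v h z
  exact ⟨t, h1, h2, fun t' ht' h' => h3 t' ⟨ht', h'⟩⟩

lemma sum_flag {C T K : Set V} (hK : K ⊆ T) {z t : V} (ht : z - t ∈ C)
    (hu : ∀ t' ∈ T, z - t' ∈ C → t' = t) (G : Finset V) (hG : z - t ∈ G) :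
    ∑ x ∈ G, ii C x * ii K (z - x) = ii K t := by
  rw [Finset.sum_eq_single (z - t)]
  · rw [ii_of_mem ht, one_mul, sub_sub_cancel]
  · intro x _ hne
    by_cases h1 : x ∈ C
    · have : z - x ∉ K := by
        intro h2
        apply hne
        have h3 := hu (z - x) (hK h2) (by rw [sub_sub_cancel]; exact h1)
        rw [← h3, sub_sub_cancel]
      rw [ii_of_nmem' this, mul_zero]
    · rw [ii_of_nmem' h1, zero_mul]
  · exact fun h => absurd hG h

lemma cv_flag {C : Set V} {u v : V} {T K : Set V} (hK : K ⊆ T) {z t : V}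
    (ht : z - t ∈ fl C u v) (hu : ∀ t' ∈ T, z - t' ∈ fl C u v → t' = t) :
    ii (cv C u v K) z = ii K t := by
  by_cases h : t ∈ K
  · rw [ii_of_mem h, ii_of_mem]
    exact ⟨t, h, ht⟩
  · rw [ii_of_nmem' h, ii_of_nmem']
    rintro ⟨t', h', h''⟩
    exact h (hu t' (hK h') h'' ▸ h')

theorem p_SUM_of (hTE : T_TE) (hKKD : T_KKD) : T_SUM := by
  classical
  intro C hP T K hT hK e n z hen
  have h1 : rdet e (-n) ≠ 0 := by rw [rd_neg]; exact neg_ne_zero.mpr hen
  have h2 : rdet (-e) n ≠ 0 := by rw [rd_negl]; exact neg_ne_zero.mpr hen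
  have h3 : rdet (-e) (-n) ≠ 0 := by rw [rd_neg, rd_negl, neg_neg]; exact hen
  obtain ⟨t0, -, a0, b0⟩ := exists_ftile hTE hP hT hen z
  obtain ⟨t1, -, a1, b1⟩ := exists_ftile hTE hP hT h1 z
  obtain ⟨t2, -, a2, b2⟩ := exists_ftile hTE hP hT h2 z
  obtain ⟨t3, -, a3, b3⟩ := exists_ftile hTE hP hT h3 z
  rw [cv_flag hK a0 b0, cv_flag hK a1 b1, cv_flag hK a2 b2, cv_flag hK a3 b3]
  set G : Finset V := cD C ∪ {z - t0, z - t1, z - t2, z - t3} with hG
  have hcs : cs C e n K z = ∑ x ∈ G, kk C e n x * ii K (z - x) := by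
    unfold cs
    apply Finset.sum_subset Finset.subset_union_left
    intro x _ hx
    have : kk C e n x = 0 := by
      by_contra hne
      exact hx (hKKD C hP e n x hen hne)
    rw [this, zero_mul]
  have e0 := sum_flag hK a0 b0 G (by simp [hG])
  have e1 := sum_flag hK a1 b1 G (by simp [hG])
  have e2 := sum_flag hK a2 b2 G (by simp [hG])
  have e3 := sum_flag hK a3 b3 G (by simp [hG])
  rw [hcs, ← e0, ← e1, ← e2, ← e3, ← Finset.sum_sub_distrib, ← Finset.sum_sub_distrib,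
    ← Finset.sum_add_distrib]
  apply Finset.sum_congr rfl
  intro x _
  unfold kk
  ring

/-! ## Corner free sets -/

lemma lx_ev {p : ℝ} {e u v : V} (h : PTP.lx p (rdet e u) (rdet e v)) :
    ∀ᶠ w in TEx.Fi u v, 0 < p + rdet e w := by
  rcases h with h | ⟨h0, h | ⟨h1, h⟩⟩
  · have h1 : Tendsto (fun w : V => p + rdet e w) (𝓝 0) (𝓝 (p + rdet e 0)) := by
      apply Continuous.tendsto
      unfold rdet
      fun_prop
    have h2 : rdet e 0 = 0 := by simp [rdet]
    rw [h2, add_zero] at h1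
    exact TEx.Fi_nhds u v (h1.eventually (lt_mem_nhds h))
  · rw [TEx.mem_Fi]
    refine ⟨1, one_pos, fun s hs _ => ⟨s * rdet e u / (|rdet e v| + 1), by positivity,
      fun r hr hr' => ?_⟩⟩
    rw [lt_div_iff₀ (by positivity)] at hr'
    rw [h0, zero_add, rd_add, rd_smul, rd_smul]
    have h1 : -(r * |rdet e v|) ≤ r * rdet e v := by nlinarith [neg_abs_le (rdet e v)]
    nlinarith
  · rw [TEx.mem_Fi]
    refine ⟨1, one_pos, fun s hs _ => ⟨1, one_pos, fun r hr _ => ?_⟩⟩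
    rw [h0, zero_add, rd_add, rd_smul, rd_smul, h1, mul_zero, zero_add]
    exact mul_pos hr h

lemma not_lx_ev {p : ℝ} {e u v : V} (h : ¬ PTP.lx p (rdet e u) (rdet e v)) :
    ∀ᶠ w in TEx.Fi u v, p + rdet e w ≤ 0 := by
  by_cases h' : PTP.lx (-p) (rdet (-e) u) (rdet (-e) v)
  · filter_upwards [lx_ev h'] with w hw
    rw [rd_negl] at hw
    linarith
  · unfold PTP.lx at h h'
    rw [rd_negl, rd_negl] at h'
    push Not at h h'
    obtain ⟨a1, a2⟩ := h
    obtain ⟨b1, b2⟩ := h'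
    have hp : p = 0 := le_antisymm a1 (by linarith)
    obtain ⟨a3, a4⟩ := a2 hp
    obtain ⟨b3, b4⟩ := b2 (by rw [hp]; simp)
    have hq : rdet e u = 0 := le_antisymm a3 (by linarith)
    have hr : rdet e v ≤ 0 := a4 hq
    rw [TEx.mem_Fi]
    refine ⟨1, one_pos, fun s hs _ => ⟨1, one_pos, fun r hr' _ => ?_⟩⟩
    rw [hp, zero_add, rd_add, rd_smul, rd_smul, hq, mul_zero, zero_add]
    exact mul_nonpos_of_nonneg_of_nonpos hr'.le hr

/-- An interior point of a set above the line of height `c` is strictly above. -/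
lemma above_int {C : Set V} {e t : V} {c : ℝ} (he : e ≠ 0) (h : ∀ x ∈ C, c ≤ rdet e (t + x))
    {y : V} (hy : y ∈ interior C) : c < rdet e (t + y) := by
  set w : V := (e.2, -e.1) with hw
  have hww : rdet e w = -(e.1 ^ 2 + e.2 ^ 2) := by simp only [rdet, hw]; ring
  have hpos : 0 < e.1 ^ 2 + e.2 ^ 2 := by
    rcases eq_or_ne e.1 0 with h1 | h1
    · rcases eq_or_ne e.2 0 with h2 | h2
      · exact absurd (Prod.ext h1 h2) he
      · positivity
    · positivity
  have hcont : Tendsto (fun ε : ℝ => y + ε • w) (𝓝[>] 0) (𝓝 y) := by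
    have : Continuous (fun ε : ℝ => y + ε • w) := by fun_prop
    have h2 := this.tendsto 0
    simp only [zero_smul, add_zero] at h2
    exact h2.mono_left nhdsWithin_le_nhds
  have hev : ∀ᶠ ε in 𝓝[>] (0 : ℝ), y + ε • w ∈ interior C :=
    hcont.eventually (isOpen_interior.mem_nhds hy)
  obtain ⟨ε, h1, h2⟩ := (hev.and self_mem_nhdsWithin).exists
  have h3 := h _ (interior_subset h1)
  have hε : 0 < ε := h2
  rw [← add_assoc, rd_add, rd_smul, hww] at h3
  nlinarith [mul_pos hε hpos]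

lemma abv_iff {C : Set V} {T : Set V} {e u v z t : V}
    {c : ℝ} (he : e ≠ 0) (hF : SF C e T c) (ht : t ∈ T)
    (hz : z - t ∈ fl C u v) :
    t ∈ Abv C e T c ↔ PTP.lx (rdet e z - c) (rdet e u) (rdet e v) := by
  have h3 := TEx.fl_iff.1 hz
  have hh : ∀ w : V, rdet e (t + (z - t + w)) = rdet e z + rdet e w := by
    intro w
    rw [show t + (z - t + w) = z + w by abel, rd_add]
  constructor
  · rintro ⟨-, h⟩
    by_contra hl
    apply TEx.Fi_ne (u := u) (v := v)
    filter_upwards [h3, not_lx_ev hl] with w a1 a2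
    have a3 := above_int he h a1
    rw [hh] at a3
    linarith
  · intro hl
    refine ⟨ht, ?_⟩
    rcases hF t ht with h | h
    · exfalso
      apply TEx.Fi_ne (u := u) (v := v)
      filter_upwards [h3, lx_ev hl] with w a1 a2
      have a3 := h _ (interior_subset a1)
      rw [hh] at a3
      linarith
    · exact h

lemma lx_four {p a b : ℝ} (hab : ¬ (a = 0 ∧ b = 0)) {K : Set V} {t0 t1 t2 t3 : V}
    (h0 : t0 ∈ K ↔ PTP.lx p a b) (h1 : t1 ∈ K ↔ PTP.lx p a (-b)) (h2 : t2 ∈ K ↔ PTP.lx p (-a) b)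
    (h3 : t3 ∈ K ↔ PTP.lx p (-a) (-b)) : ii K t0 - ii K t1 - ii K t2 + ii K t3 = 0 := by
  classical
  have hi : ∀ t : V, ii K t = if t ∈ K then 1 else 0 := fun t => by
    by_cases h : t ∈ K
    · rw [ii_of_mem h, if_pos h]
    · rw [ii_of_nmem' h, if_neg h]
  rw [hi, hi, hi, hi]
  simp only [h0, h1, h2, h3, PTP.lx]
  rcases lt_trichotomy p 0 with hp | hp | hp
  · simp [hp.ne, not_lt.mpr hp.le]
  · rcases lt_trichotomy a 0 with ha | ha | ha
    · simp [hp, ha.ne, ha, not_lt.mpr ha.le]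
    · rcases lt_trichotomy b 0 with hb | hb | hb
      · simp [hp, ha, hb, not_lt.mpr hb.le]
      · exact absurd ⟨ha, hb⟩ hab
      · simp [hp, ha, hb, not_lt.mpr hb.le]
    · simp [hp, ha.ne', ha, not_lt.mpr ha.le]
  · simp [hp]

theorem p_CFT_of (hTE : T_TE) (hKKD : T_KKD) : T_CFT := by
  intro C hP T hT
  have hS := p_SUM_of hTE hKKD
  constructor
  · intro e n hen z
    rw [hS C hP T T hT subset_rfl e n z hen]
    have h1 : rdet e (-n) ≠ 0 := by rw [rd_neg]; exact neg_ne_zero.mpr hen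
    have h2 : rdet (-e) n ≠ 0 := by rw [rd_negl]; exact neg_ne_zero.mpr hen
    have h3 : rdet (-e) (-n) ≠ 0 := by rw [rd_neg, rd_negl, neg_neg]; exact hen
    obtain ⟨t0, c0, a0, b0⟩ := exists_ftile hTE hP hT hen z
    obtain ⟨t1, c1, a1, b1⟩ := exists_ftile hTE hP hT h1 z
    obtain ⟨t2, c2, a2, b2⟩ := exists_ftile hTE hP hT h2 z
    obtain ⟨t3, c3, a3, b3⟩ := exists_ftile hTE hP hT h3 z
    rw [cv_flag subset_rfl a0 b0, cv_flag subset_rfl a1 b1, cv_flag subset_rfl a2 b2,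
      cv_flag subset_rfl a3 b3, ii_of_mem c0, ii_of_mem c1, ii_of_mem c2, ii_of_mem c3]
    norm_num
  · intro e' c he' hF e n hen z
    have hK : Abv C e' T c ⊆ T := fun t ht => ht.1
    rw [hS C hP T _ hT hK e n z hen]
    have h1 : rdet e (-n) ≠ 0 := by rw [rd_neg]; exact neg_ne_zero.mpr hen
    have h2 : rdet (-e) n ≠ 0 := by rw [rd_negl]; exact neg_ne_zero.mpr hen
    have h3 : rdet (-e) (-n) ≠ 0 := by rw [rd_neg, rd_negl, neg_neg]; exact hen
    obtain ⟨t0, c0, a0, b0⟩ := exists_ftile hTE hP hT hen z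
    obtain ⟨t1, c1, a1, b1⟩ := exists_ftile hTE hP hT h1 z
    obtain ⟨t2, c2, a2, b2⟩ := exists_ftile hTE hP hT h2 z
    obtain ⟨t3, c3, a3, b3⟩ := exists_ftile hTE hP hT h3 z
    rw [cv_flag hK a0 b0, cv_flag hK a1 b1, cv_flag hK a2 b2, cv_flag hK a3 b3]
    have hab : ¬ (rdet e' e = 0 ∧ rdet e' n = 0) := by
      rintro ⟨q1, q2⟩
      apply he'
      simp only [rdet] at q1 q2 hen
      have r1 : e'.1 * (e.1 * n.2 - e.2 * n.1) = 0 := by linear_combination e.1 * q2 - n.1 * q1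
      have r2 : e'.2 * (e.1 * n.2 - e.2 * n.1) = 0 := by linear_combination e.2 * q2 - n.2 * q1
      exact Prod.ext ((mul_eq_zero.mp r1).resolve_right hen)
        ((mul_eq_zero.mp r2).resolve_right hen)
    have i0 := abv_iff he' hF c0 a0
    have i1 := abv_iff he' hF c1 a1
    have i2 := abv_iff he' hF c2 a2
    have i3 := abv_iff he' hF c3 a3
    rw [rd_neg] at i1 i2
    rw [rd_neg, rd_neg] at i3
    exact lx_four hab i0 i1 i2 i3

theorem p_SUM : T_SUM := p_SUM_of p_TE p_KKD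

theorem p_CFT : T_CFT := p_CFT_of p_TE p_KKD

end Pool.Agent.PTA
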