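import Pool.Agent.PTA.Targets

/-!
# PTP: uniform discreteness of the translation vectors (SEP)
-/

set_option autoImplicit false

namespace Pool.Agent.PTA

open Pool.Agent.PTR Filter Topology
open Pool.Agent.PTP (Til TDP Iv wd SF Abv Stp Stk Ds Sm sd T_FF T_INJ T_GLU)
open Pool.Agent.PTR.OL (V ii dif difs FLC InHull)

/-- A uniformly separated set has finitely many points in every ball. -/
lemma SEP_fin {T : Set V} {ρ : ℝ} (hρ : 0 < ρ)
    (h : ∀ t ∈ T, ∀ t' ∈ T, t ≠ t' → ρ ≤ ‖t - t'‖) (R : ℝ) : {t | t ∈ T ∧ ‖t‖ ≤ R}.Finite := by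
  by_contra hinf
  have hinf' : {t | t ∈ T ∧ ‖t‖ ≤ R}.Infinite := hinf
  have hsub : {t | t ∈ T ∧ ‖t‖ ≤ R} ⊆ Metric.closedBall (0 : V) R := by
    intro t ht
    rw [Metric.mem_closedBall, dist_zero_right]
    exact ht.2
  obtain ⟨a, -, hacc⟩ := hinf'.exists_accPt_of_subset_isCompact (isCompact_closedBall 0 R) hsub
  rw [accPt_iff_frequently] at hacc
  have key : ∀ r : ℝ, 0 < r → ∃ y ∈ T, y ≠ a ∧ ‖y - a‖ < r := by
    intro r hr
    obtain ⟨y, hy, hyr⟩ := (hacc.and_eventually (Metric.ball_mem_nhds a hr)).exists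
    refine ⟨y, hy.2.1, hy.1, ?_⟩
    have h1 := Metric.mem_ball.1 hyr
    rwa [dist_eq_norm] at h1
  obtain ⟨y, hyT, hya, hyr⟩ := key (ρ / 2) (by linarith)
  have hpos : 0 < ‖y - a‖ := norm_pos_iff.2 (sub_ne_zero.2 hya)
  obtain ⟨y', hyT', -, hyr'⟩ := key (min (ρ / 2) ‖y - a‖) (lt_min (by linarith) hpos)
  have hne : y ≠ y' := by
    rintro rfl
    exact absurd (lt_of_lt_of_le hyr' (min_le_right _ _)) (lt_irrefl _)
  have h1 := h y hyT y' hyT' hne
  have h2 : ‖y - y'‖ ≤ ‖y - a‖ + ‖y' - a‖ := by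
    have : y - y' = (y - a) - (y' - a) := by abel
    rw [this]
    exact norm_sub_le _ _
  have h3 := lt_of_lt_of_le hyr' (min_le_left _ _)
  linarith

theorem p_SEP_of (hB : T_BODY) : T_SEP := by
  intro C hP
  obtain ⟨-, ⟨x₀, hx₀⟩, -⟩ := hB C hP
  obtain ⟨ρ, hρ, hball⟩ := Metric.isOpen_iff.1 isOpen_interior x₀ hx₀
  refine ⟨ρ, hρ, fun T hT => ?_⟩
  have hsep : ∀ t ∈ T, ∀ t' ∈ T, t ≠ t' → ρ ≤ ‖t - t'‖ := by
    intro t ht t' ht' hne
    by_contra hlt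
    push Not at hlt
    refine hne (hT t ht t' ht' (t + x₀) ?_ ?_)
    · rw [add_sub_cancel_left]
      exact hx₀
    · refine hball ?_
      rw [Metric.mem_ball, dist_eq_norm]
      have : t + x₀ - t' - x₀ = t - t' := by abel
      rw [this]
      exact hlt
  exact ⟨hsep, SEP_fin hρ hsep⟩

end Pool.Agent.PTA
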