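import Pool.Agent.PTA.P_A
import Pool.Agent.PTA.P_SEP

/-!
# PTA: TE, TU, ET, INTU

Tilings are exact covers for every (inner or outer) flag.
-/

set_option autoImplicit false

namespace Pool.Agent.PTA

open Pool.Agent.PTR Filter Topology
open Pool.Agent.PTR.OL (V ii dif difs FLC InHull)
open Pool.Agent.PTP (Til TDP Iv wd SF Abv Stp Stk Ds Sm sd)

namespace TEx

lemma ev_iff {p : ℝ → Prop} : (∀ᶠ s in 𝓝[>] (0 : ℝ), p s) ↔
    ∃ s₀ : ℝ, 0 < s₀ ∧ ∀ s : ℝ, 0 < s → s < s₀ → p s := by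
  constructor
  · intro h
    obtain ⟨s₀, hs₀, h1⟩ := (mem_nhdsGT_iff_exists_Ioo_subset).1 h
    exact ⟨s₀, hs₀, fun s h2 h3 => h1 ⟨h2, h3⟩⟩
  · rintro ⟨s₀, hs₀, h⟩
    filter_upwards [Ioo_mem_nhdsGT hs₀] with s hs
    exact h s hs.1 hs.2

/-- the filter of the inner flag -/
def Fi (u v : V) : Filter V :=
  (𝓝[>] (0 : ℝ)).bind fun s => (𝓝[>] (0 : ℝ)).map fun r => s • u + r • v

/-- the filter of the outer flag -/
def Fo (u v : V) : Filter V :=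
  (𝓝[>] (0 : ℝ)).bind fun ε => (𝓝[>] (0 : ℝ)).map fun s => s • (u + ε • v)

lemma mem_Fi {u v : V} {p : V → Prop} : (∀ᶠ w in Fi u v, p w) ↔
    ∃ s₀ : ℝ, 0 < s₀ ∧ ∀ s : ℝ, 0 < s → s < s₀ → ∃ r₀ : ℝ, 0 < r₀ ∧
      ∀ r : ℝ, 0 < r → r < r₀ → p (s • u + r • v) := by
  unfold Fi
  rw [Filter.eventually_bind, ev_iff]
  constructor
  · rintro ⟨s₀, hs₀, h⟩
    refine ⟨s₀, hs₀, fun s h1 h2 => ?_⟩
    have h3 := h s h1 h2
    rw [Filter.eventually_map] at h3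
    exact ev_iff.1 h3
  · rintro ⟨s₀, hs₀, h⟩
    refine ⟨s₀, hs₀, fun s h1 h2 => ?_⟩
    rw [Filter.eventually_map]
    exact ev_iff.2 (h s h1 h2)

lemma mem_Fo {u v : V} {p : V → Prop} : (∀ᶠ w in Fo u v, p w) ↔
    ∃ ε₀ : ℝ, 0 < ε₀ ∧ ∀ ε : ℝ, 0 < ε → ε < ε₀ → ∃ s₀ : ℝ, 0 < s₀ ∧
      ∀ s : ℝ, 0 < s → s < s₀ → p (s • (u + ε • v)) := by
  unfold Fo
  rw [Filter.eventually_bind, ev_iff]
  constructor
  · rintro ⟨s₀, hs₀, h⟩
    refine ⟨s₀, hs₀, fun s h1 h2 => ?_⟩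
    have h3 := h s h1 h2
    rw [Filter.eventually_map] at h3
    exact ev_iff.1 h3
  · rintro ⟨s₀, hs₀, h⟩
    refine ⟨s₀, hs₀, fun s h1 h2 => ?_⟩
    rw [Filter.eventually_map]
    exact ev_iff.2 (h s h1 h2)

lemma Fi_ne {u v : V} : ¬ ∀ᶠ _w in Fi u v, False := by
  rw [mem_Fi]
  rintro ⟨s₀, hs₀, h⟩
  obtain ⟨r₀, hr₀, h1⟩ := h (s₀ / 2) (by linarith) (by linarith)
  exact h1 (r₀ / 2) (by linarith) (by linarith)

lemma Fo_ne {u v : V} : ¬ ∀ᶠ _w in Fo u v, False := by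
  rw [mem_Fo]
  rintro ⟨s₀, hs₀, h⟩
  obtain ⟨r₀, hr₀, h1⟩ := h (s₀ / 2) (by linarith) (by linarith)
  exact h1 (r₀ / 2) (by linarith) (by linarith)

lemma Fi_bd (u v : V) : ∀ᶠ w in Fi u v, ‖w‖ ≤ ‖u‖ + ‖v‖ := by
  rw [mem_Fi]
  refine ⟨1, one_pos, fun s h1 h2 => ⟨1, one_pos, fun r h3 h4 => ?_⟩⟩
  refine (norm_add_le _ _).trans (add_le_add ?_ ?_)
  · rw [norm_smul, Real.norm_eq_abs, abs_of_pos h1]
    exact mul_le_of_le_one_left (norm_nonneg _) h2.le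
  · rw [norm_smul, Real.norm_eq_abs, abs_of_pos h3]
    exact mul_le_of_le_one_left (norm_nonneg _) h4.le

lemma Fo_bd (u v : V) : ∀ᶠ w in Fo u v, ‖w‖ ≤ ‖u‖ + ‖v‖ := by
  rw [mem_Fo]
  refine ⟨1, one_pos, fun s h1 h2 => ⟨1, one_pos, fun r h3 h4 => ?_⟩⟩
  rw [norm_smul, Real.norm_eq_abs, abs_of_pos h3]
  refine (mul_le_of_le_one_left (norm_nonneg _) h4.le).trans ?_
  refine (norm_add_le _ _).trans (add_le_add le_rfl ?_)
  rw [norm_smul, Real.norm_eq_abs, abs_of_pos h1]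
  exact mul_le_of_le_one_left (norm_nonneg _) h2.le

/-- the points of `F` are small -/
lemma Fi_nhds (u v : V) {O : Set V} (hO : O ∈ 𝓝 (0 : V)) : ∀ᶠ w in Fi u v, w ∈ O := by
  rw [mem_Fi]
  obtain ⟨η, hη, hb⟩ := Metric.mem_nhds_iff.1 hO
  have hu : 0 < 2 * (‖u‖ + 1) := by positivity
  have hv : 0 < 2 * (‖v‖ + 1) := by positivity
  refine ⟨η / (2 * (‖u‖ + 1)), by positivity, fun s hs0 hs1 =>
    ⟨η / (2 * (‖v‖ + 1)), by positivity, fun r hr0 hr1 => hb ?_⟩⟩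
  rw [Metric.mem_ball, dist_zero_right]
  have b1 : ‖s • u‖ < η / 2 := by
    rw [norm_smul, Real.norm_eq_abs, abs_of_pos hs0]
    calc s * ‖u‖ < s * (‖u‖ + 1) := mul_lt_mul_of_pos_left (by linarith) hs0
      _ ≤ η / (2 * (‖u‖ + 1)) * (‖u‖ + 1) := mul_le_mul_of_nonneg_right hs1.le (by positivity)
      _ = η / 2 := by field_simp
  have b2 : ‖r • v‖ < η / 2 := by
    rw [norm_smul, Real.norm_eq_abs, abs_of_pos hr0]
    calc r * ‖v‖ < r * (‖v‖ + 1) := mul_lt_mul_of_pos_left (by linarith) hr0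
      _ ≤ η / (2 * (‖v‖ + 1)) * (‖v‖ + 1) := mul_le_mul_of_nonneg_right hr1.le (by positivity)
      _ = η / 2 := by field_simp
  calc ‖s • u + r • v‖ ≤ ‖s • u‖ + ‖r • v‖ := norm_add_le _ _
    _ < η := by linarith

lemma Fo_nhds (u v : V) {O : Set V} (hO : O ∈ 𝓝 (0 : V)) : ∀ᶠ w in Fo u v, w ∈ O := by
  rw [mem_Fo]
  obtain ⟨η, hη, hb⟩ := Metric.mem_nhds_iff.1 hO
  have hu : 0 < ‖u‖ + ‖v‖ + 1 := by positivity
  refine ⟨1, one_pos, fun ε h1 h2 => ⟨η / (‖u‖ + ‖v‖ + 1), by positivity,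
    fun s hs0 hs1 => hb ?_⟩⟩
  rw [Metric.mem_ball, dist_zero_right, norm_smul, Real.norm_eq_abs, abs_of_pos hs0]
  have h3 : ‖u + ε • v‖ ≤ ‖u‖ + ‖v‖ := by
    refine (norm_add_le _ _).trans (add_le_add le_rfl ?_)
    rw [norm_smul, Real.norm_eq_abs, abs_of_pos h1]
    exact mul_le_of_le_one_left (norm_nonneg _) h2.le
  calc s * ‖u + ε • v‖ ≤ s * (‖u‖ + ‖v‖) := mul_le_mul_of_nonneg_left h3 hs0.le
    _ < s * (‖u‖ + ‖v‖ + 1) := mul_lt_mul_of_pos_left (by linarith) hs0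
    _ ≤ η / (‖u‖ + ‖v‖ + 1) * (‖u‖ + ‖v‖ + 1) := mul_le_mul_of_nonneg_right hs1.le (by positivity)
    _ = η := by field_simp

lemma fl_iff {C : Set V} {u v x : V} :
    x ∈ fl C u v ↔ ∀ᶠ w in Fi u v, x + w ∈ interior C := by
  rw [mem_Fi]
  simp only [← add_assoc]
  exact Iff.rfl

lemma fo_iff {C : Set V} {u v x : V} : x ∈ fo C u v ↔ ∀ᶠ w in Fi u v, x + w ∉ C := by
  rw [mem_Fi]
  simp only [← add_assoc]
  exact Iff.rfl

lemma fu_iff {C : Set V} {u v x : V} :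
    x ∈ fu C u v ↔ ∀ᶠ w in Fo u v, x + w ∈ interior C := by
  rw [mem_Fo]
  exact Iff.rfl

lemma fv_iff {C : Set V} {u v x : V} : x ∈ fv C u v ↔ ∀ᶠ w in Fo u v, x + w ∉ C := by
  rw [mem_Fo]
  exact Iff.rfl

/-- exact cover for a filter -/
theorem ecov {C : Set V} (hC : Tame C) {T : Set V} (hT : Til C T) (F : Filter V)
    (hne : ¬ ∀ᶠ _w in F, False) {B : ℝ} (hB : ∀ᶠ w in F, ‖w‖ ≤ B)
    (hd : ∀ x : V, (∀ᶠ w in F, x + w ∈ interior C) ∨ ∀ᶠ w in F, x + w ∉ C) :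
    ECov {x | ∀ᶠ w in F, x + w ∈ interior C} T := by
  intro z
  obtain ⟨K, hK⟩ := hC.cpt.isBounded.exists_norm_le
  obtain ⟨ρ, -, hsep⟩ := p_SEP_of p_BODY C hC
  have hfin := (hsep T hT.2).2 (‖z‖ + B + K)
  obtain ⟨t, ht, hz⟩ : ∃ t ∈ T, ∀ᶠ w in F, z - t + w ∈ interior C := by
    by_contra hcon
    push Not at hcon
    have h1 : ∀ᶠ w in F, ∀ t ∈ {t | t ∈ T ∧ ‖t‖ ≤ ‖z‖ + B + K}, z - t + w ∉ C := by
      rw [Filter.eventually_all_finite hfin]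
      intro t ht
      exact (hd (z - t)).resolve_left (Filter.not_eventually.2 (hcon t ht.1))
    apply hne
    filter_upwards [h1, hB] with w h2 h3
    obtain ⟨t, ht, h4⟩ := hT.1 (z + w)
    have e1 : z + w - t = z - t + w := by abel
    rw [e1] at h4
    refine h2 t ⟨ht, ?_⟩ h4
    have e2 : t = z + w - (z - t + w) := by abel
    calc ‖t‖ = ‖z + w - (z - t + w)‖ := by rw [← e2]
      _ ≤ ‖z + w‖ + ‖z - t + w‖ := norm_sub_le _ _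
      _ ≤ (‖z‖ + ‖w‖) + K := add_le_add (norm_add_le _ _) (hK _ h4)
      _ ≤ ‖z‖ + B + K := by linarith
  refine ⟨t, ⟨ht, hz⟩, ?_⟩
  rintro t' ⟨ht', hz'⟩
  by_contra hcon
  apply hne
  filter_upwards [hz, hz'] with w h1 h2
  have e1 : z - t + w = z + w - t := by abel
  have e2 : z - t' + w = z + w - t' := by abel
  rw [e1] at h1
  rw [e2] at h2
  exact hcon (hT.2 t' ht' t ht (z + w) h2 h1)

lemma mem_C {C : Set V} (hC : Tame C) {F : Filter V} (hne : ¬ ∀ᶠ _w in F, False)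
    (hsm : ∀ O ∈ 𝓝 (0 : V), ∀ᶠ w in F, w ∈ O) {x : V}
    (hx : ∀ᶠ w in F, x + w ∈ interior C) : x ∈ C := by
  by_contra hcon
  have h1 : {w : V | x + w ∈ Cᶜ} ∈ 𝓝 (0 : V) := by
    have h2 : Tendsto (fun w : V => x + w) (𝓝 0) (𝓝 (x + 0)) := by
      apply Continuous.tendsto
      fun_prop
    rw [add_zero] at h2
    exact h2.eventually (hC.cpt.isClosed.isOpen_compl.mem_nhds hcon)
  apply hne
  filter_upwards [hx, hsm _ h1] with w h2 h3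
  exact h3 (interior_subset h2)

lemma int_ev {C : Set V} {F : Filter V} (hsm : ∀ O ∈ 𝓝 (0 : V), ∀ᶠ w in F, w ∈ O) {x : V}
    (hx : x ∈ interior C) : ∀ᶠ w in F, x + w ∈ interior C := by
  have h2 : Tendsto (fun w : V => x + w) (𝓝 0) (𝓝 (x + 0)) := by
    apply Continuous.tendsto
    fun_prop
  rw [add_zero] at h2
  exact hsm _ (h2.eventually (isOpen_interior.mem_nhds hx))

end TEx

open TEx

/-- TE. -/
theorem p_TE : T_TE := by
  intro C hC T hT u v huv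
  have h := ecov hC hT (Fi u v) Fi_ne (Fi_bd u v) fun x => by
    rw [← fl_iff, ← fo_iff]
    exact hC.dich u v x huv
  have e : fl C u v = {x | ∀ᶠ w in Fi u v, x + w ∈ interior C} := by
    ext x
    exact fl_iff
  rw [e]
  exact h

/-- TU. -/
theorem p_TU : T_TU := by
  intro C hC T hT u v huv
  have h := ecov hC hT (Fo u v) Fo_ne (Fo_bd u v) fun x => by
    rw [← fu_iff, ← fv_iff]
    exact hC.dich2 u v x huv
  have e : fu C u v = {x | ∀ᶠ w in Fo u v, x + w ∈ interior C} := by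
    ext x
    exact fu_iff
  rw [e]
  exact h

/-- INTU. -/
theorem p_INTU : T_INTU := by
  intro C hC u v huv
  refine ⟨fun x hx => mem_C hC Fo_ne (fun O hO => Fo_nhds u v hO) (fu_iff.1 hx),
    fun x hx => fu_iff.2 (int_ev (fun O hO => Fo_nhds u v hO) hx), fun x hx hx' => ?_,
    fun x hx => ?_⟩
  · apply Fo_ne (u := u) (v := v)
    filter_upwards [fu_iff.1 hx, fv_iff.1 hx'] with w h1 h2
    exact h2 (interior_subset h1)
  · obtain ⟨ε₀, hε₀, h⟩ := hx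
    refine ⟨ε₀, hε₀, fun ε h1 h2 w => ?_⟩
    obtain ⟨s₀, hs₀, h3⟩ := h ε h1 h2
    refine ⟨s₀, hs₀, fun s h4 h5 => ?_⟩
    obtain ⟨η, hη, hb⟩ := Metric.isOpen_iff.1 isOpen_interior _ (h3 s h4 h5)
    have hw : 0 < ‖w‖ + 1 := by positivity
    refine ⟨η / (‖w‖ + 1), by positivity, fun r h6 h7 => hb ?_⟩
    rw [Metric.mem_ball, dist_eq_norm, add_sub_cancel_left, norm_smul, Real.norm_eq_abs,
      abs_of_pos h6]
    calc r * ‖w‖ < r * (‖w‖ + 1) := mul_lt_mul_of_pos_left (by linarith) h6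
      _ ≤ η / (‖w‖ + 1) * (‖w‖ + 1) := mul_le_mul_of_nonneg_right h7.le hw.le
      _ = η := by field_simp

/-- ET. -/
theorem p_ET : T_ET := by
  intro C hP T u v huv hT
  obtain ⟨i1, i2, -⟩ := p_INTF C hP u v huv
  refine ⟨fun z => ?_, fun t ht t' ht' z h1 h2 => ?_⟩
  · obtain ⟨t, ⟨ht, hz⟩, -⟩ := hT z
    exact ⟨t, ht, i1 _ hz⟩
  · obtain ⟨s, -, hs⟩ := hT z
    rw [hs t ⟨ht, i2 _ h1⟩, hs t' ⟨ht', i2 _ h2⟩]

end Pool.Agent.PTA
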