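import Pool.Agent.PTA.P_SUM

/-!
# PTA: ultralimits of tilings (ULT, ULB, CLS, CLG, IOC, SFL)
-/

set_option autoImplicit false

namespace Pool.Agent.PTA

open Pool.Agent.PTR Filter Topology
open Pool.Agent.PTP (Til TDP Iv wd SF Abv Stp Stk Ds Sm sd T_FF T_INJ T_GLU)
open Pool.Agent.PTR.OL (V ii dif difs FLC InHull)

/-- Two sequences of tiles with the same limit are eventually equal. -/
lemma ULT_eq {C : Set V} (hS : T_SEP) (hP : Tame C) {U : Ultrafilter ℕ}
    {Tn : ℕ → Set V} (hT : ∀ n, Til C (Tn n)) {s : V} {f g : ℕ → V}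
    (hf : ∀ᶠ n in (U : Filter ℕ), f n ∈ Tn n) (hg : ∀ᶠ n in (U : Filter ℕ), g n ∈ Tn n)
    (hf' : Tendsto f (U : Filter ℕ) (𝓝 s)) (hg' : Tendsto g (U : Filter ℕ) (𝓝 s)) :
    ∀ᶠ n in (U : Filter ℕ), f n = g n := by
  obtain ⟨ρ, hρ, hsep⟩ := hS C hP
  have h1 : Tendsto (fun n => ‖f n - g n‖) (U : Filter ℕ) (𝓝 0) := by
    have := (hf'.sub hg').norm
    rwa [sub_self, norm_zero] at this
  filter_upwards [hf, hg, h1.eventually (gt_mem_nhds hρ)] with n g1 g2 g3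
  by_contra hne
  exact absurd ((hsep (Tn n) (hT n).2).1 _ g1 _ g2 hne) (not_le.2 g3)

theorem p_ULT_of (hB : T_BODY) : T_ULT := by
  intro C hP U Tn hT
  obtain ⟨hc, -, -⟩ := hB C hP
  obtain ⟨K, hK⟩ := hc.isBounded.exists_norm_le
  refine ⟨⟨fun z => ?_, ?_⟩, ?_⟩
  · have h1 : ∀ n, ∃ t ∈ Tn n, z - t ∈ C := fun n => (hT n).1 z
    choose t ht1 ht2 using h1
    obtain ⟨s, hs⟩ := ultra_conv U t (‖z‖ + K) (Eventually.of_forall fun n => by
      have h2 : t n = z - (z - t n) := by abel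
      rw [h2]
      exact (norm_sub_le _ _).trans (add_le_add (le_refl _) (hK _ (ht2 n))))
    refine ⟨s, ⟨t, Eventually.of_forall ht1, hs⟩, ?_⟩
    exact hc.isClosed.mem_of_tendsto (tendsto_const_nhds.sub hs) (Eventually.of_forall ht2)
  · rintro s ⟨t, ht1, ht2⟩ s' ⟨t', ht1', ht2'⟩ z hz hz'
    have e1 : ∀ᶠ n in (U : Filter ℕ), z - t n ∈ interior C :=
      (tendsto_const_nhds.sub ht2).eventually (isOpen_interior.mem_nhds hz)
    have e2 : ∀ᶠ n in (U : Filter ℕ), z - t' n ∈ interior C :=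
      (tendsto_const_nhds.sub ht2').eventually (isOpen_interior.mem_nhds hz')
    have h4 : ∀ᶠ n in (U : Filter ℕ), t n = t' n := by
      filter_upwards [ht1, ht1', e1, e2] with n g1 g2 g3 g4
      exact (hT n).2 _ g1 _ g2 z g3 g4
    exact tendsto_nhds_unique (ht2.congr' h4) ht2'
  · have h1 : ∀ t : V, ∃ f : ℕ → V, t ∈ Lim U Tn →
        (∀ᶠ n in (U : Filter ℕ), f n ∈ Tn n) ∧ Tendsto f (U : Filter ℕ) (𝓝 t) := by
      intro t
      by_cases ht : t ∈ Lim U Tn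
      · obtain ⟨f, hf⟩ := ht
        exact ⟨f, fun _ => hf⟩
      · exact ⟨fun _ => 0, fun h => absurd h ht⟩
    choose f hf using h1
    refine ⟨fun t n => f t n - t, fun t ht => ⟨?_, ?_⟩⟩
    · filter_upwards [(hf t ht).1] with n hn
      rw [add_sub_cancel]
      exact hn
    · have := (hf t ht).2.sub (tendsto_const_nhds (x := t))
      rwa [sub_self] at this

theorem p_ULB_of (hS : T_SEP) : T_ULB := by
  intro C hP U Tn hT δ hδ f R hf hR
  obtain ⟨s, hs⟩ := ultra_conv U f R hR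
  have hs' : s ∈ Lim U Tn := ⟨f, hf, hs⟩
  refine ⟨s, hs', ?_⟩
  refine ULT_eq hS hP hT hf (hδ s hs').1 hs ?_
  have := (tendsto_const_nhds (x := s)).add (hδ s hs').2
  rwa [add_zero] at this

/-- the points of the class and the tiles of `Tn m` -/
lemma ULT_key {C : Set V} (hS : T_SEP) (hP : Tame C) {U : Ultrafilter ℕ}
    {Tn : ℕ → Set V} (hT : ∀ n, Til C (Tn n)) {δ : V → ℕ → V} (hδ : Ds U Tn δ) {g : ℕ → V}
    (hg : Tendsto g (U : Filter ℕ) (𝓝 0)) (w : V) : ∀ᶠ m in (U : Filter ℕ),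
      (w ∈ {t | t ∈ Lim U Tn ∧ ∀ᶠ n in (U : Filter ℕ), δ t n = g n} ↔ w + g m ∈ Tn m) := by
  by_cases hw : w ∈ {t | t ∈ Lim U Tn ∧ ∀ᶠ n in (U : Filter ℕ), δ t n = g n}
  · filter_upwards [(hδ w hw.1).1, hw.2] with m h1 h2
    rw [h2] at h1
    exact ⟨fun _ => h1, fun _ => hw⟩
  · have h1 : ∀ᶠ m in (U : Filter ℕ), ¬ w + g m ∈ Tn m := by
      rw [Ultrafilter.eventually_not]
      intro h2
      have h3 : Tendsto (fun m => w + g m) (U : Filter ℕ) (𝓝 w) := by
        have := (tendsto_const_nhds (x := w)).add hg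
        rwa [add_zero] at this
      have h4 : w ∈ Lim U Tn := ⟨fun m => w + g m, h2, h3⟩
      have h5 : Tendsto (fun m => w + δ w m) (U : Filter ℕ) (𝓝 w) := by
        have := (tendsto_const_nhds (x := w)).add (hδ w h4).2
        rwa [add_zero] at this
      have h6 := ULT_eq hS hP hT (hδ w h4).1 h2 h5 h3
      exact hw ⟨h4, h6.mono fun m hm => add_left_cancel hm⟩
    filter_upwards [h1] with m h2
    exact ⟨fun h => absurd h hw, fun h => absurd h h2⟩

theorem p_CLG_of (hS : T_SEP) : T_CLG := by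
  intro C hP D κ hκ U Tn hT δ hδ g hg z
  have hall : ∀ᶠ m in (U : Filter ℕ), ∀ v ∈ D,
      (z - v ∈ {t | t ∈ Lim U Tn ∧ ∀ᶠ n in (U : Filter ℕ), δ t n = g n} ↔
        z - v + g m ∈ Tn m) :=
    (Filter.eventually_all_finset D).2 fun v _ => ULT_key hS hP hT hδ hg (z - v)
  obtain ⟨m, hm⟩ := hall.exists
  rw [← hκ (Tn m) (hT m) (z + g m)]
  refine Finset.sum_congr rfl fun v hv => ?_
  have h2 : z + g m - v = z - v + g m := by abel
  rw [h2]
  congr 1
  exact OL.ii_congr (hm v hv)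

theorem p_CLS_of (hS : T_SEP) (hC : T_CFT) : T_CLS := by
  intro C hP U Tn hT δ hδ g hg e n hen z
  exact p_CLG_of hS C hP (cD C) (kk C e n) (fun T hT z => (hC C hP T hT).1 e n hen z) U Tn hT δ
    hδ g hg z

theorem p_IOC_of (hTE : T_TE) (hTU : T_TU) (hULT : T_ULT) (hCLG : T_CLG) : T_IOC := by
  classical
  intro C hP U Tn hT δ hδ u v z t t' huv ht ht' hzt hzt'
  set D : Finset V := (hP.iof u v huv).toFinset with hD
  set κ : V → ℤ := fun x => ii (fl C u v) x - ii (fu C u v) x with hκ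
  have hzero : ∀ x, x ∉ D → κ x = 0 := by
    intro x hx
    have h1 : x ∈ fl C u v ↔ x ∈ fu C u v := by
      by_contra h2
      exact hx ((hP.iof u v huv).mem_toFinset.2 h2)
    simp only [hκ]
    rw [OL.ii_congr h1, sub_self]
  -- the sum for a subset of a tiling
  have hsum : ∀ T K : Set V, Til C T → K ⊆ T → ∀ z t t' : V, t ∈ T → t' ∈ T →
      z - t ∈ fl C u v → z - t' ∈ fu C u v →
      ∑ x ∈ D, κ x * ii K (z - x) = ii K t - ii K t' := by
    intro T K hT hK z t t' ht ht' hzt hzt'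
    have hu : ∀ s ∈ T, z - s ∈ fl C u v → s = t := fun s hs hs' =>
      (hTE C hP T hT u v huv z).unique ⟨hs, hs'⟩ ⟨ht, hzt⟩
    have hu' : ∀ s ∈ T, z - s ∈ fu C u v → s = t' := fun s hs hs' =>
      (hTU C hP T hT u v huv z).unique ⟨hs, hs'⟩ ⟨ht', hzt'⟩
    set G : Finset V := D ∪ {z - t, z - t'} with hG
    have e0 := sum_flag hK hzt hu G (by simp [hG])
    have e1 := sum_flag hK hzt' hu' G (by simp [hG])
    have hcs : ∑ x ∈ D, κ x * ii K (z - x) = ∑ x ∈ G, κ x * ii K (z - x) := by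
      apply Finset.sum_subset Finset.subset_union_left
      intro x _ hx
      rw [hzero x hx, zero_mul]
    rw [hcs, ← e0, ← e1, ← Finset.sum_sub_distrib]
    apply Finset.sum_congr rfl
    intro x _
    simp only [hκ]
    ring
  have hann : ∀ T, Til C T → ∀ z, ∑ x ∈ D, κ x * ii T (z - x) = 0 := by
    intro T hT z
    obtain ⟨t, ⟨ht, hz⟩, -⟩ := hTE C hP T hT u v huv z
    obtain ⟨t', ⟨ht', hz'⟩, -⟩ := hTU C hP T hT u v huv z
    rw [hsum T T hT subset_rfl z t t' ht ht' hz hz', OL.ii_of_mem ht, OL.ii_of_mem ht', sub_self]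
  have hL := (hULT C hP U Tn hT).1
  have h1 := hCLG C hP D κ hann U Tn hT δ hδ (δ t) (hδ t ht).2 z
  rw [hsum (Lim U Tn) _ hL (fun x hx => hx.1) z t t' ht ht' hzt hzt'] at h1
  have h2 : t ∈ {s | s ∈ Lim U Tn ∧ ∀ᶠ n in (U : Filter ℕ), δ s n = δ t n} :=
    ⟨ht, Eventually.of_forall fun _ => rfl⟩
  rw [OL.ii_of_mem h2] at h1
  have h3 : t' ∈ {s | s ∈ Lim U Tn ∧ ∀ᶠ n in (U : Filter ℕ), δ s n = δ t n} := by
    by_contra h4
    rw [OL.ii_of_not h4] at h1
    norm_num at h1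
  filter_upwards [h3.2] with n hn
  exact hn.symm

theorem p_SFL : T_SFL := by
  intro C hP U Tn e c he hF s hs
  obtain ⟨t, ht1, ht2⟩ := hs
  have hlim : ∀ x : V, Tendsto (fun n => rdet e (t n + x)) (U : Filter ℕ)
      (𝓝 (rdet e (s + x))) := by
    intro x
    have h1 : Continuous (fun w : V => rdet e (w + x)) := by
      unfold rdet
      fun_prop
    exact (h1.tendsto s).comp ht2
  have h2 : (∀ᶠ n in (U : Filter ℕ), ∀ x ∈ C, rdet e (t n + x) ≤ c) ∨
      ∀ᶠ n in (U : Filter ℕ), ∀ x ∈ C, c ≤ rdet e (t n + x) := by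
    rw [← Ultrafilter.eventually_or]
    filter_upwards [ht1] with n hn
    exact hF n _ hn
  rcases h2 with h2 | h2
  · exact Or.inl fun x hx => le_of_tendsto (hlim x) (h2.mono fun n hn => hn x hx)
  · exact Or.inr fun x hx => ge_of_tendsto (hlim x) (h2.mono fun n hn => hn x hx)

theorem p_ULT : T_ULT := p_ULT_of p_BODY

theorem p_ULB : T_ULB := p_ULB_of (p_SEP_of p_BODY)

theorem p_CLG : T_CLG := p_CLG_of (p_SEP_of p_BODY)

theorem p_CLS : T_CLS := p_CLS_of (p_SEP_of p_BODY) p_CFT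

theorem p_IOC : T_IOC := p_IOC_of p_TE p_TU p_ULT p_CLG

end Pool.Agent.PTA
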