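import Pool.Agent.PTA.All0
import Pool.Agent.PTA.P_TE
import Pool.Agent.PTA.P_SUM
import Pool.Agent.PTA.P_ULT
import Pool.Agent.PTA.P_REL2

/-!
# PTA: the main theorem, unconditional
-/

set_option autoImplicit false

namespace Pool.Agent.PTA

theorem p_REL2 : T_REL2 := p_REL2_of p_REL p_CFT p_TE p_TU p_INTU

theorem p_main : T_PFLC ∧ T_R6 :=
  R6_of' p_TE p_ET p_SUM p_CFT p_REL2 p_INTU p_TU p_IOC p_ULT p_ULB p_CLS p_SFL

/-- Tame bodies with a tiling of finite local complexity. -/
theorem p_PFLC : T_PFLC := p_main.1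

/-- Tame bodies satisfying the interval condition for the directions of the segments in the
boundary. -/
theorem p_R6 : T_R6 := p_main.2

end Pool.Agent.PTA
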