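import Pool.Agent.PTA.Targets
import Pool.Agent.PTP.P_FF


/-!
# Faults between classes; tilings which are not of finite local complexity have limits with faults
-/

set_option autoImplicit false

namespace Pool.Agent.PTA

open Pool.Agent.PTR Filter Topology
open Pool.Agent.PTP (Til TDP Iv wd SF Abv Stp Stk Ds Sm sd T_FF T_INJ T_GLU)
open Pool.Agent.PTR.OL (V ii dif difs FLC InHull)

theorem p_FC_of (hW : T_WD) : T_FC := by
  intro C hP e he hI T R hs htr hR t ht t' ht' hnR hle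
  obtain ⟨hw0, hw1, ⟨x0, hx0, y0, hy0, hxy⟩, -, hw4⟩ := hW C hP e he
  have hiv := hw4 hI
  set W := wd C e with hWdef
  have hmax : ∀ x ∈ C, rdet e x ≤ rdet e x0 := fun x hx => by
    have := hw1 x hx y0 hy0
    linarith
  have hmin : ∀ x ∈ C, rdet e y0 ≤ rdet e x := fun x hx => by
    have := hw1 x0 hx0 x hx
    linarith
  have hnear : ∀ s ∈ T, ∀ s' ∈ T, |rdet e s - rdet e s'| < W → R s s' := by
    intro s hs s' hs' h
    obtain ⟨x, hx, y, hy, hd⟩ := hiv (rdet e s' - rdet e s) (by rw [abs_sub_comm]; exact h)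
    exact hR s hs s' hs' x hx y hy (by rw [rdet_add, rdet_add]; linarith)
  set S : Set ℝ := {r | ∃ s ∈ T, R t s ∧ rdet e s ≤ rdet e t' ∧ r = rdet e s} with hS
  have htS : rdet e t ∈ S := ⟨t, ht, hnear t ht t ht (by rw [sub_self, abs_zero]; exact hw0),
    hle, rfl⟩
  have hbd : BddAbove S := ⟨rdet e t', by rintro r ⟨s, -, -, h, rfl⟩; exact h⟩
  set a := sSup S with ha
  have hta : rdet e t ≤ a := le_csSup hbd htS
  have hat' : a ≤ rdet e t' - W := by
    refine csSup_le ⟨_, htS⟩ ?_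
    rintro r ⟨s, hsT, hRs, hst, rfl⟩
    by_contra hcon
    push Not at hcon
    have h1 := hnear s hsT t' ht' (by rw [abs_lt]; constructor <;> linarith)
    exact hnR (htr t ht s hsT t' ht' hRs h1)
  have hgap : ∀ s ∈ T, a < rdet e s → a + W ≤ rdet e s := by
    intro s hsT hsa
    by_contra hcon
    push Not at hcon
    obtain ⟨r, ⟨s', hs'T, hRs', hs't, rfl⟩, hr⟩ :=
      exists_lt_of_lt_csSup ⟨_, htS⟩ (show rdet e s - W < sSup S by rw [← ha]; linarith)
    have h1 : rdet e s' ≤ a := le_csSup hbd ⟨s', hs'T, hRs', hs't, rfl⟩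
    have h2 := hnear s' hs'T s hsT (by rw [abs_lt]; constructor <;> linarith)
    have h3 : rdet e s ∈ S := ⟨s, hsT, htr t ht s' hs'T s hsT hRs' h2, by linarith, rfl⟩
    exact absurd (le_csSup hbd h3) (not_le.2 hsa)
  refine ⟨a + rdet e x0, ?_, ?_, ?_⟩
  · intro s hsT
    rcases le_or_gt (rdet e s) a with h | h
    · left
      intro x hx
      rw [rdet_add]
      have := hmax x hx
      linarith
    · right
      intro x hx
      rw [rdet_add]
      have h1 := hgap s hsT h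
      have h2 := hmin x hx
      linarith
  · intro x hx
    rw [rdet_add]
    have := hmax x hx
    linarith
  · intro x hx
    rw [rdet_add]
    have h2 := hmin x hx
    linarith

theorem p_SLF_of (hFC : T_FC) (hIN : T_INTF) : T_SLF := by
  intro C hP U Tn hT δ hδ e he hI hSl t ht t' ht' hns
  have hJ := (PTP.rdet_J9 he).ne'
  have hin := (hIN C hP e (PTP.J9 e) hJ).2.1
  have hR : ∀ t ∈ Lim U Tn, ∀ t' ∈ Lim U Tn, ∀ x ∈ interior C, ∀ y ∈ interior C,
      rdet e (t + x) = rdet e (t' + y) → Sm U δ t t' := by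
    intro t ht t' ht' x hx y hy hxy
    refine hSl.2 e (PTP.J9 e) e (PTP.J9 e) (t + x) (t' + y) t t' ht ht' hJ hJ hxy Iff.rfl ?_ ?_
    · rw [add_sub_cancel_left]; exact hin x hx
    · rw [add_sub_cancel_left]; exact hin y hy
  have hsym : ∀ t t' : V, Sm U δ t t' → Sm U δ t' t := fun t t' h => h.mono fun n hn => hn.symm
  have htr : ∀ t t' t'' : V, Sm U δ t t' → Sm U δ t' t'' → Sm U δ t t'' := fun t t' t'' h h' => by
    filter_upwards [h, h'] with n h1 h2
    exact h1.trans h2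
  rcases le_total (rdet e t) (rdet e t') with h | h
  · left
    exact hFC C hP e he hI (Lim U Tn) (Sm U δ) (fun t _ t' _ => hsym t t')
      (fun t _ t' _ t'' _ => htr t t' t'') hR t ht t' ht' hns h
  · right
    exact hFC C hP e he hI (Lim U Tn) (Sm U δ) (fun t _ t' _ => hsym t t')
      (fun t _ t' _ t'' _ => htr t t' t'') hR t' ht' t ht (fun h' => hns (hsym _ _ h')) h

/-- Translates of tilings. -/
lemma til_shift {C T : Set V} (hT : Til C T) (s : V) : Til C {z | z + s ∈ T} := by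
  constructor
  · intro z
    obtain ⟨t, ht, htC⟩ := hT.1 (z + s)
    refine ⟨t - s, ?_, ?_⟩
    · simp only [Set.mem_ofPred_eq, sub_add_cancel]; exact ht
    · rw [show z - (t - s) = z + s - t by abel]; exact htC
  · intro t ht t' ht' z h1 h2
    have := hT.2 (t + s) ht (t' + s) ht' (z + s) (by rw [add_sub_add_right_eq_sub]; exact h1)
      (by rw [add_sub_add_right_eq_sub]; exact h2)
    exact add_right_cancel this

/-- Two bounded sequences of tiles with infinitely many differences have limits with different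
displacements. -/
lemma lim_pair (hULB : T_ULB) {C : Set V} (hP : Tame C) {Tn : ℕ → Set V}
    (hT : ∀ n, Til C (Tn n)) {δ : V → ℕ → V} (hδ : Ds (hyperfilter ℕ) Tn δ)
    (f g : ℕ → V) (R : ℝ) (hf : ∀ n, f n ∈ Tn n) (hg : ∀ n, g n ∈ Tn n) (hfR : ∀ n, ‖f n‖ ≤ R)
    (hgR : ∀ n, ‖g n‖ ≤ R) (hinj : Function.Injective (fun n => g n - f n)) :
    ∃ t0 ∈ Lim (hyperfilter ℕ) Tn, ∃ t1 ∈ Lim (hyperfilter ℕ) Tn,
      (∀ᶠ n in (hyperfilter ℕ : Filter ℕ), f n = t0 + δ t0 n) ∧
      (∀ᶠ n in (hyperfilter ℕ : Filter ℕ), g n = t1 + δ t1 n) ∧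
      ¬ Sm (hyperfilter ℕ) δ t0 t1 := by
  obtain ⟨t0, ht0, h0⟩ := hULB C hP _ Tn hT δ hδ f R (Eventually.of_forall hf)
    (Eventually.of_forall hfR)
  obtain ⟨t1, ht1, h1⟩ := hULB C hP _ Tn hT δ hδ g R (Eventually.of_forall hg)
    (Eventually.of_forall hgR)
  refine ⟨t0, ht0, t1, ht1, h0, h1, fun hsm => ?_⟩
  have h2 : ∀ᶠ n in (hyperfilter ℕ : Filter ℕ), g n - f n = t1 - t0 := by
    filter_upwards [h0, h1, hsm] with n k0 k1 k2
    rw [k0, k1, k2]
    abel
  have h3 : {n | g n - f n = t1 - t0}.Subsingleton := fun n hn m hm =>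
    hinj (show g n - f n = g m - f m by rw [hn.out, hm.out])
  exact absurd h2 (notMem_hyperfilter_of_finite h3.finite)

theorem p_A0_of (hULT : T_ULT) (hULB : T_ULB) (hSL : T_SLIDE) (hSLF : T_SLF) : T_A0 := by
  intro C hP hI T hT hF
  simp only [FLC, not_forall] at hF
  obtain ⟨R, hR⟩ := hF
  set S : Set V := {d : V | ‖d‖ ≤ R ∧ ∃ t ∈ T, t + d ∈ T} with hS
  have hSi : S.Infinite := hR
  set d : ℕ → V := fun n => hSi.natEmbedding S n with hd
  have hdS : ∀ n, d n ∈ S := fun n => (hSi.natEmbedding S n).2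
  have hdi : Function.Injective d := fun n m h =>
    (hSi.natEmbedding S).injective (Subtype.ext h)
  choose t ht htd using fun n => (hdS n).2
  set Tn : ℕ → Set V := fun n => {z | z + t n ∈ T} with hTn
  have hTil : ∀ n, Til C (Tn n) := fun n => til_shift hT (t n)
  obtain ⟨hL, δ, hδ⟩ := hULT C hP (hyperfilter ℕ) Tn hTil
  have hR0 : 0 ≤ R := (norm_nonneg _).trans (hdS 0).1
  obtain ⟨t0, ht0, t1, ht1, -, -, hns⟩ := lim_pair hULB hP hTil hδ (fun _ => 0) d R
    (fun n => by simp only [hTn, Set.mem_ofPred_eq, zero_add]; exact ht n)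
    (fun n => by
      simp only [hTn, Set.mem_ofPred_eq]
      rw [add_comm]; exact htd n)
    (fun n => by rw [norm_zero]; exact hR0) (fun n => (hdS n).1)
    (by simpa using hdi)
  rcases hSL C hP _ Tn hTil δ hδ with h | ⟨e, he, hSl⟩
  · exact absurd (h t0 ht0 t1 ht1) hns
  · rcases hSLF C hP _ Tn hTil δ hδ e he.1 (hI e he) hSl t0 ht0 t1 ht1 hns with
      ⟨c, hc, -⟩ | ⟨c, hc, -⟩
    · exact ⟨e, he, _, c, hL, hc⟩
    · exact ⟨e, he, _, c, hL, hc⟩

end Pool.Agent.PTA
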