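import Pool.Agent.PTA.Targets

/-! # PTP: target HP

The half plane above a fault is periodic.
-/

set_option autoImplicit false

namespace Pool.Agent.PTA

open Pool.Agent.PTR Filter Topology
open Pool.Agent.PTP (Til TDP Iv wd SF Abv Stp Stk Ds Sm sd T_FF T_INJ T_GLU)
open Pool.Agent.PTR.OL (V ii dif difs FLC InHull)

namespace HPx

/-- The coefficient of a vector with respect to `e`. -/
noncomputable def cf (e w : V) : ℝ := (w.1 * e.1 + w.2 * e.2) / (e.1 ^ 2 + e.2 ^ 2)

theorem nrm_pos {e : V} (he : e ≠ 0) : 0 < e.1 ^ 2 + e.2 ^ 2 := by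
  by_contra hcon
  push Not at hcon
  apply he
  have h1 : e.1 = 0 := by nlinarith [sq_nonneg e.1, sq_nonneg e.2]
  have h2 : e.2 = 0 := by nlinarith [sq_nonneg e.1, sq_nonneg e.2]
  exact Prod.ext h1 h2

theorem cf_smul {e w : V} (he : e ≠ 0) (h : rdet e w = 0) : w = cf e w • e := by
  have hn := nrm_pos he
  have hn' := hn.ne'
  simp only [rdet] at h
  refine Prod.ext ?_ ?_
  · simp only [cf, Prod.smul_fst, smul_eq_mul]
    field_simp
    linear_combination (-e.2) * h
  · simp only [cf, Prod.smul_snd, smul_eq_mul]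
    field_simp
    linear_combination e.1 * h

theorem row (e : V) (he : e ≠ 0) (L : List V) (hL : ∀ w ∈ L, rdet e w = 0) (u : V → ℤ) (z : V)
    (s : ℝ) : difs L u (z + s • e) = ds (L.map (cf e)) (fun s => u (z + s • e)) s := by
  induction L generalizing s with
  | nil => rfl
  | cons w L ih =>
    have ih' := ih (fun v hv => hL v (List.mem_cons_of_mem _ hv))
    rw [OL.difs_cons, List.map_cons, ds_cons]
    simp only [dif, d1]
    have h1 : z + s • e - w = z + (s - cf e w) • e := by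
      conv_lhs => rw [cf_smul he (hL w List.mem_cons_self)]
      rw [sub_smul]; abel
    rw [h1, ih', ih']

theorem hrd_add (e x y : V) : rdet e (x + y) = rdet e x + rdet e y := by
  simp only [rdet, Prod.fst_add, Prod.snd_add]; ring

theorem hrd_sub (e x y : V) : rdet e (x - y) = rdet e x - rdet e y := by
  simp only [rdet, Prod.fst_sub, Prod.snd_sub]; ring

theorem hrd_smul (e x : V) (s : ℝ) : rdet e (s • x) = s * rdet e x := by
  simp only [rdet, Prod.smul_fst, Prod.smul_snd, smul_eq_mul]; ring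

theorem hrd_self (e : V) : rdet e e = 0 := by
  simp only [rdet]; ring

/-- Near an interior point there are higher and lower points. -/
theorem updown {C : Set V} {e : V} (he : e ≠ 0) {x : V} (hx : x ∈ interior C) :
    (∃ y ∈ C, rdet e y < rdet e x) ∧ ∃ y ∈ C, rdet e x < rdet e y := by
  set n : V := (-e.2, e.1) with hn
  have hpos : 0 < rdet e n := by
    have := nrm_pos he
    simp only [rdet, hn]
    nlinarith
  have hcont : Continuous fun s : ℝ => x + s • n := by fun_prop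
  have hmem : ∀ᶠ s in 𝓝 (0 : ℝ), x + s • n ∈ C := by
    have h1 : Tendsto (fun s : ℝ => x + s • n) (𝓝 0) (𝓝 (x + (0 : ℝ) • n)) := hcont.tendsto 0
    rw [zero_smul, add_zero] at h1
    exact h1.eventually (mem_interior_iff_mem_nhds.1 hx)
  obtain ⟨r, hr, hb⟩ := Metric.eventually_nhds_iff.1 hmem
  constructor
  · refine ⟨x + (-(r / 2)) • n, hb ?_, ?_⟩
    · rw [Real.dist_eq, sub_zero, abs_neg, abs_of_pos (by linarith)]; linarith
    · rw [hrd_add, hrd_smul]; nlinarith
  · refine ⟨x + (r / 2) • n, hb ?_, ?_⟩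
    · rw [Real.dist_eq, sub_zero, abs_of_pos (by linarith)]; linarith
    · rw [hrd_add, hrd_smul]; nlinarith

end HPx

open HPx

/-- HP. -/
theorem p_HP_of (hHW : T_HW) (hHRL : T_HRL) (hFC : T_FC) (hWD : T_WD) (hBODY : T_BODY) :
    T_HP := by
  classical
  intro C hP hIv hNS e he T c hT hSF
  set A := Abv C e T c with hA
  by_cases hAne : A.Nonempty
  swap
  · rw [Set.not_nonempty_iff_eq_empty] at hAne
    refine ⟨e, he.1, hrd_self e, fun z => ?_⟩
    rw [hAne]
    simp
  obtain ⟨L, hL, hrel⟩ := hHRL C hP ⟨e, he⟩ T e c he.1 hT hSF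
  rw [← hA] at hrel
  obtain ⟨-, hwd, -, -, -⟩ := hWD C hP e he.1
  obtain ⟨-, ⟨x0, hx0⟩, -⟩ := hBODY C hP
  set f : V → ℝ → ℤ := fun z s => ii A (z + s • e) with hf
  have hfb : ∀ z, ∃ K : ℤ, ∀ s, |f z s| ≤ K := fun z => ⟨1, fun s => OL.ii_bdd A _⟩
  obtain ⟨L', hL', hI, hk⟩ := inc_list f hfb (L.map (cf e)) (by
    intro q hq
    obtain ⟨w, hw, rfl⟩ := List.mem_map.1 hq
    intro h2
    apply (hL w hw).1
    rw [cf_smul he.1 (hL w hw).2, h2, zero_smul]) (by
    intro z
    funext s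
    have := row e he.1 L (fun w hw => (hL w hw).2) (ii A) z s
    rw [hrel] at this
    exact this.symm)
  -- rows with heights differing by less than the width
  have hFLC : ∀ t ∈ A, ∀ t' ∈ A, |rdet e (t' - t)| < wd C e →
      ∀ R : ℝ, {s : ℝ | ∃ x ∈ {x : ℝ | t + x • e ∈ A}, ∃ x' ∈ {x : ℝ | t' + x • e ∈ A},
        |x' - x| ≤ R ∧ s = x' - x}.Finite := by
    intro t ht t' ht' htt R
    have hfin := hHW C hP hIv hNS e he T c hT hSF (‖t' - t‖ + R * ‖e‖)
    have hinj : Function.Injective fun s : ℝ => (t' - t) + s • e := by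
      intro s s' hss
      exact smul_left_injective ℝ he.1 (add_left_cancel hss)
    refine (hfin.preimage hinj.injOn).subset ?_
    rintro s ⟨x, hx, x', hx', hR, rfl⟩
    refine ⟨?_, ?_, t + x • e, hx, ?_⟩
    · refine (norm_add_le _ _).trans ?_
      rw [norm_smul, Real.norm_eq_abs]
      have := mul_le_mul_of_nonneg_right hR (norm_nonneg e)
      linarith
    · change |rdet e (t' - t + (x' - x) • e)| < _
      rw [hrd_add, hrd_smul, hrd_self, mul_zero, add_zero]
      exact htt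
    · have h1 : t + x • e + (t' - t + (x' - x) • e) = t' + x' • e := by
        rw [sub_smul]; abel
      change t + x • e + (t' - t + (x' - x) • e) ∈ A
      rw [h1]; exact hx'
  have hsupp : ∀ z s, f z s ≠ 0 → ∃ x ∈ {x : ℝ | z + x • e ∈ A}, ∃ v ∈ ({0} : Finset ℝ),
      s = x + v :=
    fun z s hs => ⟨s, OL.ii_ne hs, 0, Finset.mem_singleton_self _, by ring⟩
  have hfne : ∀ t ∈ A, f t 0 ≠ 0 := fun t ht => by
    simp only [hf]
    rw [zero_smul, add_zero, OL.ii_of_mem ht]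
    exact one_ne_zero
  have hrow : ∀ t ∈ A, ∃ Q ∈ L', d1 Q (f t) = 0 := fun t ht =>
    one_period (hFLC t ht t ht (by
      have h1 : rdet e (t - t) = 0 := by rw [hrd_sub, sub_self]
      rw [h1, abs_zero]
      exact (hWD C hP e he.1).1)) L' hL' hI {0} (f t) (hsupp t)
      (fun h => hfne t ht (congrFun h 0)) (hk t)
  have hline : ∀ s ∈ A, ∀ s' ∈ A, |rdet e (s' - s)| < wd C e →
      ∀ Q ∈ L', d1 Q (f s) = 0 → d1 Q (f s') = 0 := by
    intro s hs s' hs' hss Q hQ hdQ
    obtain ⟨Q', hQ', hdQ'⟩ := hrow s' hs'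
    by_cases hQQ : Q = Q'
    · rw [hQQ]; exact hdQ'
    · exfalso
      have : Std.Symm Inc := ⟨fun a b h => Inc.symm h⟩
      have hinc : Inc Q Q' := List.Pairwise.forall hI hQ hQ' hQQ
      exact inc_false (hFLC s hs s' hs' hss) (hL' Q hQ) hinc (hsupp s)
        (hsupp s') hdQ hdQ' (hfne s hs) (hfne s' hs')
  obtain ⟨t0, ht0⟩ := hAne
  obtain ⟨Q, hQ, hdQ⟩ := hrow t0 ht0
  -- the relation
  set R : V → V → Prop := fun t t' => (t ∈ A ↔ t' ∈ A) ∧
    (t ∈ A → t' ∈ A → ∀ Q ∈ L', d1 Q (f t) = 0 ↔ d1 Q (f t') = 0) with hR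
  have hRs : ∀ t ∈ T, ∀ t' ∈ T, R t t' → R t' t := fun t _ t' _ h =>
    ⟨h.1.symm, fun h1 h2 Q hQ => (h.2 h2 h1 Q hQ).symm⟩
  have hRt : ∀ t ∈ T, ∀ t' ∈ T, ∀ t'' ∈ T, R t t' → R t' t'' → R t t'' :=
    fun t _ t' _ t'' _ h h' => ⟨h.1.trans h'.1, fun h1 h2 Q hQ =>
      (h.2 h1 (h.1.1 h1) Q hQ).trans (h'.2 (h.1.1 h1) h2 Q hQ)⟩
  have hdis : ∀ t ∈ T, ∀ t' ∈ T, ∀ x ∈ interior C, ∀ y ∈ interior C,
      rdet e (t + x) = rdet e (t' + y) → t ∈ A → t' ∈ A := by
    intro t ht t' ht' x hx y hy hxy htA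
    rcases hSF t' ht' with h1 | h1
    · exfalso
      obtain ⟨y', hy', hlt⟩ := (updown he.1 hy).2
      have h2 := h1 y' hy'
      have h3 := htA.2 x (interior_subset hx)
      rw [hrd_add] at h2 h3 hxy
      rw [hrd_add] at hxy
      linarith
    · exact ⟨ht', h1⟩
  have hRi : ∀ t ∈ T, ∀ t' ∈ T, ∀ x ∈ interior C, ∀ y ∈ interior C,
      rdet e (t + x) = rdet e (t' + y) → R t t' := by
    intro t ht t' ht' x hx y hy hxy
    refine ⟨⟨hdis t ht t' ht' x hx y hy hxy, hdis t' ht' t ht y hy x hx hxy.symm⟩,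
      fun h1 h2 Q hQ => ?_⟩
    have hlt : |rdet e (t' - t)| < wd C e := by
      obtain ⟨x', hx', hx1⟩ := (updown he.1 hx).2
      obtain ⟨y', hy', hy1⟩ := (updown he.1 hy).2
      have h3 := hwd x' hx' y (interior_subset hy)
      have h4 := hwd y' hy' x (interior_subset hx)
      rw [hrd_add, hrd_add] at hxy
      rw [hrd_sub, abs_lt]
      constructor <;> linarith
    have hlt' : |rdet e (t - t')| < wd C e := by
      rw [hrd_sub, abs_sub_comm, ← hrd_sub]; exact hlt
    exact ⟨hline t h1 t' h2 hlt Q hQ, hline t' h2 t h1 hlt' Q hQ⟩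
  have hkey : ∀ t ∈ A, ∀ t' ∈ A, rdet e t ≤ rdet e t' → R t t' := by
    intro t ht t' ht' hle
    by_contra hcon
    obtain ⟨c', hc', h1, h2⟩ := hFC C hP e he.1 (hIv e he) T R hRs hRt hRi t ht.1 t' ht'.1
      hcon hle
    refine hNS e he T c c' hT ?_ hSF hc'
    obtain ⟨y, hy, hlt⟩ := (updown he.1 hx0).1
    have h3 := ht.2 y hy
    have h4 := h1 x0 (interior_subset hx0)
    rw [hrd_add] at h3 h4
    linarith
  have hall : ∀ t ∈ A, d1 Q (f t) = 0 := by
    intro t ht
    rcases le_total (rdet e t0) (rdet e t) with h | h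
    · exact ((hkey t0 ht0 t ht h).2 ht0 ht Q hQ).1 hdQ
    · exact ((hkey t ht t0 ht0 h).2 ht ht0 Q hQ).2 hdQ
  refine ⟨Q • e, ?_, by rw [hrd_smul, hrd_self, mul_zero], fun z => ?_⟩
  · exact smul_ne_zero (hL' Q hQ) he.1
  constructor
  · intro h
    have h3 := d1_eq_zero (hall _ h) 0
    simp only [hf] at h3
    rw [zero_smul, add_zero, OL.ii_of_mem h, zero_sub, neg_smul, add_neg_cancel_right] at h3
    exact OL.ii_ne (by rw [h3]; exact one_ne_zero)
  · intro h
    have h3 := per_add (hall _ h) 0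
    simp only [hf] at h3
    rw [zero_smul, add_zero, OL.ii_of_mem h, zero_add] at h3
    exact OL.ii_ne (by rw [h3]; exact one_ne_zero)

end Pool.Agent.PTA
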