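import Pool.Agent.PTA.Targets
import Pool.Agent.PTP.P_INJ

/-!
# PTP: the relation of a half plane
-/

set_option autoImplicit false

namespace Pool.Agent.PTA

open Pool.Agent.PTR Filter Topology
open Pool.Agent.PTP (Til TDP Iv wd SF Abv Stp Stk Ds Sm sd T_FF T_INJ T_GLU)
open Pool.Agent.PTR.OL (V ii dif difs FLC InHull)

theorem p_HRL_of (hCFT : T_CFT) (hREL : T_REL) (hBODY : T_BODY) : T_HRL := by
  classical
  intro C hP hD T e c he hT hc
  obtain ⟨L, hL, hrel⟩ := hREL C hP hD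
  obtain ⟨L', hL', hI⟩ := PTP.p_INJ e L he
  refine ⟨L', fun w hw => ⟨hL w (hL' w hw).1, (hL' w hw).2⟩, ?_⟩
  refine hI _ ?_ (hrel _ ((hCFT C hP T hT).2 e c he hc))
  obtain ⟨x0, hx0⟩ := (hBODY C hP).2.1
  have hx0' : x0 ∈ C := interior_subset hx0
  refine ⟨c - rdet e x0, fun z hz => ?_⟩
  have hz' : z ∈ Abv C e T c := by
    by_contra h
    exact hz (OL.ii_of_not h)
  have := hz'.2 x0 hx0'
  rw [rdet_add] at this
  linarith

end Pool.Agent.PTA
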