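import Pool.Agent.PTA.Targets

/-!
# PTP: windows of a half plane have finite local complexity (T_HW)
-/

set_option autoImplicit false

namespace Pool.Agent.PTA

open Pool.Agent.PTR Filter Topology
open Pool.Agent.PTP (Til TDP Iv wd SF Abv Stp Stk Ds Sm sd T_FF T_INJ T_GLU)
open Pool.Agent.PTR.OL (V ii dif difs FLC InHull difs_cons ii_of_mem ii_of_not)

theorem hw_til {C T : Set V} (h : Til C T) (a : V) : Til C {z | z + a ∈ T} := by
  constructor
  · intro z
    obtain ⟨t, ht, hz⟩ := h.1 (z + a)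
    refine ⟨t - a, ?_, ?_⟩
    · change t - a + a ∈ T
      rw [sub_add_cancel]; exact ht
    · have h1 : z - (t - a) = z + a - t := by abel
      rw [h1]; exact hz
  · intro t ht t' ht' z hz hz'
    have h1 : z + a - (t + a) = z - t := by abel
    have h2 : z + a - (t' + a) = z - t' := by abel
    exact add_right_cancel (h.2 (t + a) ht (t' + a) ht' (z + a) (by rw [h1]; exact hz)
      (by rw [h2]; exact hz'))

theorem hw_difs (U : Ultrafilter ℕ) (S : Set V) (tn : ℕ → V) (L : List V) (z : V) :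
    ∀ᶠ n in (U : Filter ℕ),
      difs L (ii {z | ∀ᶠ m in (U : Filter ℕ), z + tn m ∈ S}) z = difs L (ii S) (z + tn n) := by
  induction L generalizing z with
  | nil =>
    by_cases h : ∀ᶠ m in (U : Filter ℕ), z + tn m ∈ S
    · filter_upwards [h] with n hn
      change ii _ z = ii S (z + tn n)
      rw [ii_of_mem hn, ii_of_mem (show z ∈ {z | ∀ᶠ m in (U : Filter ℕ), z + tn m ∈ S} from h)]
    · have h' : ∀ᶠ m in (U : Filter ℕ), ¬ z + tn m ∈ S := Ultrafilter.eventually_not.2 h
      filter_upwards [h'] with n hn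
      change ii _ z = ii S (z + tn n)
      rw [ii_of_not hn, ii_of_not (show z ∉ {z | ∀ᶠ m in (U : Filter ℕ), z + tn m ∈ S} from h)]
  | cons w L ih =>
    filter_upwards [ih z, ih (z - w)] with n h1 h2
    rw [difs_cons, difs_cons]
    change difs L _ z - difs L _ (z - w) = difs L (ii S) (z + tn n) - difs L (ii S) (z + tn n - w)
    have h3 : z + tn n - w = z - w + tn n := by abel
    rw [h1, h2, h3]

/-- A sequence with constant value has the displacement zero. -/
theorem hw_const {C : Set V} (hP : Tame C) (hULB : T_ULB) {U : Ultrafilter ℕ}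
    {Tn : ℕ → Set V} (hT : ∀ n, Til C (Tn n)) {δ : V → ℕ → V} (hδ : Ds U Tn δ) {z : V}
    (hz : ∀ᶠ n in (U : Filter ℕ), z ∈ Tn n) :
    z ∈ Lim U Tn ∧ ∀ᶠ n in (U : Filter ℕ), δ z n = 0 := by
  obtain ⟨t, ht, h1⟩ := hULB C hP U Tn hT δ hδ (fun _ => z) ‖z‖ hz (Eventually.of_forall
    fun _ => le_rfl)
  have h2 : Tendsto (fun n => t + δ t n) (U : Filter ℕ) (𝓝 (t + 0)) :=
    tendsto_const_nhds.add (hδ t ht).2
  have h3 : Tendsto (fun _ : ℕ => z) (U : Filter ℕ) (𝓝 (t + 0)) := by
    refine h2.congr' ?_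
    filter_upwards [h1] with n hn
    exact hn.symm
  have h4 : z = t + 0 := tendsto_nhds_unique tendsto_const_nhds h3
  rw [add_zero] at h4
  subst h4
  refine ⟨ht, ?_⟩
  filter_upwards [h1] with n hn
  have h5 : z + δ z n = z + 0 := by rw [add_zero]; exact hn.symm
  exact add_left_cancel h5

/-- A vector which is parallel to two non-parallel vectors is zero. -/
theorem hw_par {e e' w : V} (h : rdet e' e ≠ 0) (h1 : rdet e w = 0) (h2 : rdet e' w = 0) :
    w = 0 := by
  simp only [rdet] at h h1 h2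
  have a1 : (e'.1 * e.2 - e'.2 * e.1) * w.1 = 0 := by linear_combination e.1 * h2 - e'.1 * h1
  have a2 : (e'.1 * e.2 - e'.2 * e.1) * w.2 = 0 := by linear_combination e.2 * h2 - e'.2 * h1
  refine Prod.ext ?_ ?_
  · exact (mul_eq_zero.1 a1).resolve_left h
  · exact (mul_eq_zero.1 a2).resolve_left h

theorem p_HW_of (hULT : T_ULT) (hULB : T_ULB) (hSLIDE : T_SLIDE) (hSLF : T_SLF) (hHRL : T_HRL)
    (hINJ : T_INJ) (hWD : T_WD) : T_HW := by
  intro C hP hI hNS e he T c hT hF R
  by_contra hcon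
  have hinf : {d | ‖d‖ ≤ R ∧ |rdet e d| < wd C e ∧
    ∃ t ∈ Abv C e T c, t + d ∈ Abv C e T c}.Infinite := hcon
  obtain ⟨d, hdinj, hdmem⟩ : ∃ d : ℕ → V, Function.Injective d ∧ ∀ n, ‖d n‖ ≤ R ∧
      |rdet e (d n)| < wd C e ∧
      ∃ t ∈ Abv C e T c, t + d n ∈ Abv C e T c := by
    refine ⟨fun n => (hinf.natEmbedding _ n : V), ?_, fun n => (hinf.natEmbedding _ n).2⟩
    intro a b hab
    exact (hinf.natEmbedding _).injective (Subtype.ext hab)
  choose hdR hdw tn htn htdn using hdmem
  set U : Ultrafilter ℕ := hyperfilter ℕ with hU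
  set Tn : ℕ → Set V := fun n => {z | z + tn n ∈ T} with hTn
  have hTil : ∀ n, Til C (Tn n) := fun n => hw_til hT (tn n)
  obtain ⟨hLT, δ, hδ⟩ := hULT C hP U Tn hTil
  obtain ⟨h0L, h0δ⟩ := hw_const hP hULB hTil hδ (z := 0) (Eventually.of_forall fun n => by
    change 0 + tn n ∈ T
    rw [zero_add]; exact (htn n).1)
  obtain ⟨t', ht'L, ht'⟩ := hULB C hP U Tn hTil δ hδ d R (Eventually.of_forall fun n => by
    change d n + tn n ∈ T
    rw [add_comm]; exact (htdn n).1) (Eventually.of_forall hdR)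
  -- different displacements
  have hns : ¬ Sm U δ 0 t' := by
    intro hs
    have h1 : ∀ᶠ n in (U : Filter ℕ), d n = t' := by
      filter_upwards [ht', h0δ, hs] with n g1 g2 g3
      rw [g1, ← g3, g2, add_zero]
    have h2 : {n | d n = t'}.Subsingleton := fun a ha b hb => hdinj (ha.trans hb.symm)
    exact notMem_hyperfilter_of_finite h2.finite h1
  have hns' : ¬ Sm U δ t' 0 := fun h => hns (by
    filter_upwards [h] with n g
    exact g.symm)
  rcases hSLIDE C hP U Tn hTil δ hδ with hall | ⟨e', he', hsl⟩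
  · exact hns (hall 0 h0L t' ht'L)
  obtain ⟨hwpos, -, ⟨x₀, hx₀, y₀, hy₀, hxy⟩, -, -⟩ := hWD C hP e he.1
  have hslf : ∀ t ∈ Lim U Tn, ∀ s ∈ Lim U Tn, ¬ Sm U δ t s →
      (∃ c, SF C e' (Lim U Tn) c ∧ (∀ x ∈ C, rdet e' (t + x) ≤ c) ∧
        ∀ x ∈ C, c ≤ rdet e' (s + x)) ∨
      ∃ c, SF C e' (Lim U Tn) c ∧ (∀ x ∈ C, rdet e' (s + x) ≤ c) ∧
        ∀ x ∈ C, c ≤ rdet e' (t + x) :=
    hSLF C hP U Tn hTil δ hδ e' he'.1 (hI e' he') hsl
  by_cases hpar : rdet e' e = 0
  · -- parallel case
    obtain ⟨s, hs0, hs⟩ : ∃ s : ℝ, s ≠ 0 ∧ ∀ z, rdet e' z = s * rdet e z := by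
      have he1 := he.1
      have he2 := he'.1
      simp only [rdet] at hpar
      by_cases hc : e.1 = 0
      · have hc2 : e.2 ≠ 0 := fun h => he1 (Prod.ext hc h)
        have hc3 : e'.1 = 0 := by
          rw [hc, mul_zero, sub_zero] at hpar
          exact (mul_eq_zero.1 hpar).resolve_right hc2
        have hc4 : e'.2 ≠ 0 := fun h => he2 (Prod.ext hc3 h)
        refine ⟨e'.2 / e.2, div_ne_zero hc4 hc2, fun z => ?_⟩
        simp only [rdet, hc, hc3]
        field_simp
        ring
      · have hc4 : e'.1 ≠ 0 := by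
          intro h
          rw [h, zero_mul, zero_sub, neg_eq_zero] at hpar
          exact he2 (Prod.ext h ((mul_eq_zero.1 hpar).resolve_right hc))
        refine ⟨e'.1 / e.1, div_ne_zero hc4 hc, fun z => ?_⟩
        have h5 : e'.2 = e'.1 / e.1 * e.2 := by
          field_simp
          linarith
        have h6 : e'.1 = e'.1 / e.1 * e.1 := by field_simp
        simp only [rdet]
        rw [h5]
        nth_rewrite 1 [h6]
        ring
    have hht : |rdet e t'| < wd C e := by
      obtain ⟨n, g1, g2, g3⟩ := ((hsl.1 0 h0L t' ht'L).and (ht'.and h0δ)).exists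
      rw [g3, hs, hs] at g1
      have g4 : rdet e (0 : V) = 0 := by simp only [rdet, Prod.fst_zero, Prod.snd_zero]; ring
      rw [g4, mul_zero] at g1
      have g5 : rdet e (δ t' n) = 0 := (mul_eq_zero.1 g1.symm).resolve_left hs0
      have g6 := hdw n
      rw [g2, rdet_add, g5, add_zero] at g6
      exact g6
    rw [abs_lt] at hht
    rcases hslf 0 h0L t' ht'L hns with ⟨a, -, ha1, ha2⟩ | ⟨a, -, ha1, ha2⟩
    · rcases lt_or_gt_of_ne hs0 with hneg | hpos
      · have g1 := ha1 y₀ hy₀
        have g2 := ha2 x₀ hx₀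
        rw [zero_add, hs] at g1
        rw [hs, rdet_add] at g2
        nlinarith
      · have g1 := ha1 x₀ hx₀
        have g2 := ha2 y₀ hy₀
        rw [zero_add, hs] at g1
        rw [hs, rdet_add] at g2
        nlinarith
    · rcases lt_or_gt_of_ne hs0 with hneg | hpos
      · have g1 := ha1 y₀ hy₀
        have g2 := ha2 x₀ hx₀
        rw [hs, rdet_add] at g1
        rw [zero_add, hs] at g2
        nlinarith
      · have g1 := ha1 x₀ hx₀
        have g2 := ha2 y₀ hy₀
        rw [hs, rdet_add] at g1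
        rw [zero_add, hs] at g2
        nlinarith
  · -- transversal case
    obtain ⟨hwpos', -, ⟨x₁, hx₁, y₁, hy₁, hxy₁⟩, -, -⟩ := hWD C hP e' he'.1
    have huniq : ∀ a b : ℝ, SF C e' (Lim U Tn) a → SF C e' (Lim U Tn) b → a = b := by
      intro a b ha hb
      rcases lt_trichotomy a b with h | h | h
      · exact (hNS e' he' (Lim U Tn) a b hLT h ha hb).elim
      · exact h
      · exact (hNS e' he' (Lim U Tn) b a hLT h hb ha).elim
    -- a tile is not on both sides
    have hside : ∀ (t : V) (a : ℝ), (∀ x ∈ C, rdet e' (t + x) ≤ a) →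
        (∀ x ∈ C, a ≤ rdet e' (t + x)) → False := by
      intro t a h1 h2
      have g1 := h1 x₁ hx₁
      have g2 := h2 y₁ hy₁
      rw [rdet_add] at g1 g2
      linarith
    set K : Set V := {z | ∀ᶠ m in (U : Filter ℕ), z + tn m ∈ Abv C e T c} with hK
    have hKc : ∀ z ∈ K, z ∈ Lim U Tn ∧ Sm U δ z 0 := by
      intro z hz
      have hz1 : ∀ᶠ n in (U : Filter ℕ), z ∈ Tn n := by
        filter_upwards [hz] with n hn
        exact hn.1
      obtain ⟨g1, g2⟩ := hw_const hP hULB hTil hδ hz1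
      refine ⟨g1, ?_⟩
      filter_upwards [g2, h0δ] with n g3 g4
      rw [g3, g4]
    have h0K : (0 : V) ∈ K := Eventually.of_forall fun n => by
      rw [zero_add]; exact htn n
    obtain ⟨L, hL1, hL2⟩ := hHRL C hP ⟨e, he⟩ T e c he.1 hT hF
    have hLK : difs L (ii K) = 0 := by
      funext z
      obtain ⟨n, hn⟩ := (hw_difs U (Abv C e T c) tn L z).exists
      rw [hn, hL2]
      rfl
    -- the half plane
    have hfin : ∀ e'' : V, (e'' = e' ∨ e'' = -e') →
        (∃ b : ℝ, ∀ z ∈ K, b ≤ rdet e'' z) → False := by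
      intro e'' he'' hb
      have hne : e'' ≠ 0 := by
        rcases he'' with h | h
        · rw [h]; exact he'.1
        · rw [h]; exact neg_ne_zero.2 he'.1
      have hrz : ∀ w : V, rdet e'' w = 0 → rdet e' w = 0 := by
        intro w hw
        rcases he'' with h | h
        · rw [← h]; exact hw
        · rw [h] at hw
          simp only [rdet, Prod.fst_neg, Prod.snd_neg] at hw ⊢
          linarith
      obtain ⟨L', hL', hL''⟩ := hINJ e'' L hne
      have hnil : L' = [] := by
        rw [List.eq_nil_iff_forall_not_mem]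
        intro w hw
        obtain ⟨g1, g2⟩ := hL' w hw
        obtain ⟨g3, g4⟩ := hL1 w g1
        exact g3 (hw_par hpar g4 (hrz w g2))
      obtain ⟨b, hb⟩ := hb
      have h1 := hL'' (ii K) ⟨b, fun z hz => hb z (by
        by_contra hzK
        exact hz (ii_of_not hzK))⟩ hLK
      rw [hnil] at h1
      have h2 : ii K (0 : V) = 0 := congrFun h1 0
      rw [ii_of_mem h0K] at h2
      exact one_ne_zero h2
    have hneg : ∀ z : V, rdet (-e') z = - rdet e' z := by
      intro z
      simp only [rdet, Prod.fst_neg, Prod.snd_neg]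
      ring
    rcases hslf 0 h0L t' ht'L hns with ⟨a, haF, ha1, ha2⟩ | ⟨a, haF, ha1, ha2⟩
    · -- `0` is below, `t'` above
      refine hfin (-e') (Or.inr rfl) ⟨rdet e' x₁ - a, fun z hz => ?_⟩
      obtain ⟨hzL, hz0⟩ := hKc z hz
      have hzt : ¬ Sm U δ z t' := fun h => hns (by
        filter_upwards [h, hz0] with n g1 g2
        rw [← g2, g1])
      have hbelow : ∀ x ∈ C, rdet e' (z + x) ≤ a := by
        rcases hslf z hzL t' ht'L hzt with ⟨b, hbF, hb1, hb2⟩ | ⟨b, hbF, hb1, hb2⟩
        · rw [huniq a b haF hbF]; exact hb1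
        · have hab := huniq a b haF hbF
          subst hab
          exact (hside t' a hb1 ha2).elim
      have g1 := hbelow x₁ hx₁
      rw [rdet_add] at g1
      rw [hneg]
      linarith
    · -- `t'` is below, `0` above
      refine hfin e' (Or.inl rfl) ⟨a - rdet e' x₁, fun z hz => ?_⟩
      obtain ⟨hzL, hz0⟩ := hKc z hz
      have hzt : ¬ Sm U δ z t' := fun h => hns (by
        filter_upwards [h, hz0] with n g1 g2
        rw [← g2, g1])
      have habove : ∀ x ∈ C, a ≤ rdet e' (z + x) := by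
        rcases hslf z hzL t' ht'L hzt with ⟨b, hbF, hb1, hb2⟩ | ⟨b, hbF, hb1, hb2⟩
        · have hab := huniq a b haF hbF
          subst hab
          exact (hside t' a ha1 hb2).elim
        · rw [huniq a b haF hbF]; exact hb2
      have g1 := habove x₁ hx₁
      rw [rdet_add] at g1
      linarith

end Pool.Agent.PTA
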