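import Pool.Agent.PTA.P_A

/-!
# PTA: JD and FOUR
-/

set_option autoImplicit false

namespace Pool.Agent.PTA

open Pool.Agent.PTR Filter Topology
open Pool.Agent.PTP (Til TDP Iv wd SF Abv Stp Stk Ds Sm sd T_FF T_INJ T_GLU)
open Pool.Agent.PTR.OL (V ii dif difs FLC InHull ii_of_mem ii_of_not)

lemma sm_symm {U : Ultrafilter ℕ} {δ : V → ℕ → V} {t t' : V} (h : Sm U δ t t') :
    Sm U δ t' t := h.mono fun _ hn => hn.symm

lemma sm_trans {U : Ultrafilter ℕ} {δ : V → ℕ → V} {t t' t'' : V} (h : Sm U δ t t')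
    (h' : Sm U δ t' t'') : Sm U δ t t'' := by
  filter_upwards [h, h'] with n h1 h2
  exact h1.trans h2

/-- FOUR. -/
theorem p_FOUR_of (hULT : T_ULT) (hTE : T_TE) (hSUM : T_SUM) (hCLS : T_CLS) : T_FOUR := by
  intro C hP U Tn hTn δ hδ e n z t t' s s' hen ht ht' hs hs' h1 h2 h3 h4 hns
  have hT := (hULT C hP U Tn hTn).1
  have hen' : rdet e (-n) ≠ 0 := by rw [rdet_neg_r]; exact neg_ne_zero.2 hen
  have hne : rdet (-e) n ≠ 0 := by rw [rdet_neg_l]; exact neg_ne_zero.2 hen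
  have hne' : rdet (-e) (-n) ≠ 0 := by rw [rdet_neg_l]; exact neg_ne_zero.2 hen'
  -- membership in the covered sets
  have hcv : ∀ (t0 u v τ : V), rdet u v ≠ 0 → τ ∈ Lim U Tn → z - τ ∈ fl C u v →
      (z ∈ cv C u v {x | x ∈ Lim U Tn ∧ ∀ᶠ n in (U : Filter ℕ), δ x n = δ t0 n} ↔
        Sm U δ τ t0) := by
    intro t0 u v τ huv hτ hz
    constructor
    · rintro ⟨x, ⟨hx, hx2⟩, hx3⟩
      have : x = τ := (hTE C hP _ hT u v huv z).unique ⟨hx, hx3⟩ ⟨hτ, hz⟩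
      rw [← this]
      exact hx2
    · intro h
      exact ⟨τ, ⟨hτ, h⟩, hz⟩
  have key : ∀ t0 ∈ Lim U Tn,
      ii (cv C e n {x | x ∈ Lim U Tn ∧ ∀ᶠ n in (U : Filter ℕ), δ x n = δ t0 n}) z -
      ii (cv C e (-n) {x | x ∈ Lim U Tn ∧ ∀ᶠ n in (U : Filter ℕ), δ x n = δ t0 n}) z -
      ii (cv C (-e) n {x | x ∈ Lim U Tn ∧ ∀ᶠ n in (U : Filter ℕ), δ x n = δ t0 n}) z +
      ii (cv C (-e) (-n) {x | x ∈ Lim U Tn ∧ ∀ᶠ n in (U : Filter ℕ), δ x n = δ t0 n}) z = 0 := by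
    intro t0 ht0
    have a1 := hCLS C hP U Tn hTn δ hδ (δ t0) (hδ t0 ht0).2 e n hen z
    have a2 := hSUM C hP (Lim U Tn)
      {x | x ∈ Lim U Tn ∧ ∀ᶠ n in (U : Filter ℕ), δ x n = δ t0 n} hT (fun x hx => hx.1) e n z hen
    rw [a1] at a2
    exact a2.symm
  constructor
  · have k := key t ht
    have b1 : z ∈ cv C e n {x | x ∈ Lim U Tn ∧ ∀ᶠ n in (U : Filter ℕ), δ x n = δ t n} :=
      (hcv t e n t hen ht h1).2 (Filter.Eventually.of_forall fun _ => rfl)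
    have b2 : z ∉ cv C e (-n) {x | x ∈ Lim U Tn ∧ ∀ᶠ n in (U : Filter ℕ), δ x n = δ t n} :=
      fun h => hns (sm_symm ((hcv t e (-n) t' hen' ht' h2).1 h))
    rw [ii_of_mem b1, ii_of_not b2] at k
    by_contra hcon
    have b3 : z ∉ cv C (-e) n {x | x ∈ Lim U Tn ∧ ∀ᶠ n in (U : Filter ℕ), δ x n = δ t n} :=
      fun h => hcon (sm_symm ((hcv t (-e) n s hne hs h3).1 h))
    rw [ii_of_not b3] at k
    by_cases b4 : z ∈ cv C (-e) (-n)
        {x | x ∈ Lim U Tn ∧ ∀ᶠ n in (U : Filter ℕ), δ x n = δ t n}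
    · rw [ii_of_mem b4] at k; omega
    · rw [ii_of_not b4] at k; omega
  · have k := key t' ht'
    have b1 : z ∉ cv C e n {x | x ∈ Lim U Tn ∧ ∀ᶠ n in (U : Filter ℕ), δ x n = δ t' n} :=
      fun h => hns ((hcv t' e n t hen ht h1).1 h)
    have b2 : z ∈ cv C e (-n) {x | x ∈ Lim U Tn ∧ ∀ᶠ n in (U : Filter ℕ), δ x n = δ t' n} :=
      (hcv t' e (-n) t' hen' ht' h2).2 (Filter.Eventually.of_forall fun _ => rfl)
    rw [ii_of_not b1, ii_of_mem b2] at k
    by_contra hcon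
    have b4 : z ∉ cv C (-e) (-n)
        {x | x ∈ Lim U Tn ∧ ∀ᶠ n in (U : Filter ℕ), δ x n = δ t' n} :=
      fun h => hcon (sm_symm ((hcv t' (-e) (-n) s' hne' hs' h4).1 h))
    rw [ii_of_not b4] at k
    by_cases b3 : z ∈ cv C (-e) n
        {x | x ∈ Lim U Tn ∧ ∀ᶠ n in (U : Filter ℕ), δ x n = δ t' n}
    · rw [ii_of_mem b3] at k; omega
    · rw [ii_of_not b3] at k; omega

/-- JD. -/
theorem p_JD_of (hULT : T_ULT) (hULB : T_ULB) (hTE : T_TE) (hLOC : T_LOC)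
    (hINTF : T_INTF) (hBODY : T_BODY) (hSEP : T_SEP) : T_JD := by
  intro C hP U Tn hTn δ hδ e n z t t' hen ht ht' h1 h2
  by_cases htt : t = t'
  · subst htt
    exact Filter.Eventually.of_forall fun _ => rfl
  have hT := (hULT C hP U Tn hTn).1
  have hen' : rdet e (-n) ≠ 0 := by rw [rdet_neg_r]; exact neg_ne_zero.2 hen
  have he : e ≠ 0 := by
    rintro rfl
    apply hen
    simp [rdet]
  obtain ⟨hcomp, hint, hcl⟩ := hBODY C hP
  obtain ⟨B, hB⟩ := hcomp.isBounded.exists_norm_le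
  have hBn : ∀ x ∈ C, ‖x‖ ≤ B := hB
  -- the tiles near `z`
  obtain ⟨ρ, hρ, hsep⟩ := hSEP C hP
  have hfin : {τ | τ ∈ Lim U Tn ∧ ‖τ‖ ≤ ‖z‖ + ‖e‖ + B}.Finite := (hsep (Lim U Tn) hT.2).2 _
  obtain ⟨ε1, hε1, hl1⟩ := hLOC C hP e n (z - t) hen
  obtain ⟨ε2, hε2, hl2⟩ := hLOC C hP e (-n) (z - t') hen'
  -- the local structure at the points of the finitely many tiles
  have hev : ∀ᶠ s in 𝓝[>] (0 : ℝ), ∀ τ ∈ {τ | τ ∈ Lim U Tn ∧ ‖τ‖ ≤ ‖z‖ + ‖e‖ + B},
      z - τ + s • e ∈ C → z - τ + s • e ∈ fl C e n ∨ z - τ + s • e ∈ fl C e (-n) := by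
    rw [Filter.eventually_all_finite hfin]
    intro τ _
    obtain ⟨s₀, hs₀, h3⟩ := hP.edge e n (z - τ) hen
    filter_upwards [Ioo_mem_nhdsGT hs₀] with s hs
    exact h3 s hs.1 hs.2
  obtain ⟨s, hs, hsb⟩ : ∃ s, s ∈ Set.Ioo (0 : ℝ) (min (min ε1 ε2) 1) ∧
      ∀ τ ∈ {τ | τ ∈ Lim U Tn ∧ ‖τ‖ ≤ ‖z‖ + ‖e‖ + B},
      z - τ + s • e ∈ C → z - τ + s • e ∈ fl C e n ∨ z - τ + s • e ∈ fl C e (-n) := by
    have h0 : (0 : ℝ) < min (min ε1 ε2) 1 := lt_min (lt_min hε1 hε2) one_pos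
    obtain ⟨s, h3, h4⟩ := ((eventually_mem_set.2 (Ioo_mem_nhdsGT h0)).and hev).exists
    exact ⟨s, h3, h4⟩
  have hs0 : 0 < s := hs.1
  have hs1 : s < ε1 := lt_of_lt_of_le hs.2 ((min_le_left _ _).trans (min_le_left _ _))
  have hs2 : s < ε2 := lt_of_lt_of_le hs.2 ((min_le_left _ _).trans (min_le_right _ _))
  have hs3 : s < 1 := lt_of_lt_of_le hs.2 (min_le_right _ _)
  set z' := z + s • e with hz'
  have m1 : z' - t ∈ fl C e n := by
    rw [hz', add_sub_right_comm]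
    exact (hl1 s hs0 hs1).1.2 h1
  have m2 : z' - t' ∈ fl C e (-n) := by
    rw [hz', add_sub_right_comm]
    exact (hl2 s hs0 hs2).1.2 h2
  -- only `t` and `t'` contain `z'`
  have honly : ∀ τ ∈ Lim U Tn, z' - τ ∈ C → τ = t ∨ τ = t' := by
    intro τ hτ hzτ
    have hτn : ‖τ‖ ≤ ‖z‖ + ‖e‖ + B := by
      have e1 : τ = z + s • e - (z' - τ) := by rw [hz']; abel
      have e2 : ‖s • e‖ ≤ ‖e‖ := by
        rw [norm_smul, Real.norm_eq_abs, abs_of_pos hs0]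
        exact mul_le_of_le_one_left (norm_nonneg _) hs3.le
      calc ‖τ‖ = ‖z + s • e - (z' - τ)‖ := by rw [← e1]
        _ ≤ ‖z + s • e‖ + ‖z' - τ‖ := norm_sub_le _ _
        _ ≤ (‖z‖ + ‖s • e‖) + B := add_le_add (norm_add_le _ _) (hBn _ hzτ)
        _ ≤ ‖z‖ + ‖e‖ + B := by linarith
    have e3 : z - τ + s • e = z' - τ := by rw [hz']; abel
    have h3 := hsb τ ⟨hτ, hτn⟩
    rw [e3] at h3
    have h3 := h3 hzτ
    rcases h3 with h3 | h3
    · exact Or.inl ((hTE C hP _ hT e n hen z').unique ⟨hτ, h3⟩ ⟨ht, m1⟩)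
    · exact Or.inr ((hTE C hP _ hT e (-n) hen' z').unique ⟨hτ, h3⟩ ⟨ht', m2⟩)
  -- the tiles of the flag `(e, -n)`
  have hex : ∀ m : ℕ, ∃ f, f ∈ Tn m ∧ z' + δ t m - f ∈ fl C e (-n) := fun m =>
    (hTE C hP _ (hTn m) e (-n) hen' (z' + δ t m)).exists
  choose f hf1 hf2 using hex
  have hbd : ∀ᶠ m in (U : Filter ℕ), ‖f m‖ ≤ ‖z'‖ + 1 + B := by
    have h3 := (hδ t ht).2.norm
    rw [norm_zero] at h3
    filter_upwards [h3.eventually (gt_mem_nhds one_pos)] with m hm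
    have e1 : f m = z' + δ t m - (z' + δ t m - f m) := by abel
    calc ‖f m‖ = ‖z' + δ t m - (z' + δ t m - f m)‖ := by rw [← e1]
      _ ≤ ‖z' + δ t m‖ + ‖z' + δ t m - f m‖ := norm_sub_le _ _
      _ ≤ (‖z'‖ + ‖δ t m‖) + B := add_le_add (norm_add_le _ _)
          (hBn _ ((hINTF C hP e (-n) hen').1 _ (hf2 m)))
      _ ≤ ‖z'‖ + 1 + B := by linarith
  obtain ⟨t'', ht'', hft⟩ := hULB C hP U Tn hTn δ hδ f _
    (Filter.Eventually.of_forall hf1) hbd
  -- the limit tile contains `z'`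
  have hlim : z' - t'' ∈ C := by
    have hc : IsClosed C := hcomp.isClosed
    have h3 : Tendsto (fun m => z' + δ t m - (t'' + δ t'' m)) (U : Filter ℕ)
        (𝓝 (z' + 0 - (t'' + 0))) :=
      (tendsto_const_nhds.add (hδ t ht).2).sub (tendsto_const_nhds.add (hδ t'' ht'').2)
    rw [add_zero, add_zero] at h3
    refine hc.mem_of_tendsto h3 ?_
    filter_upwards [hft] with m hm
    rw [← hm]
    exact (hINTF C hP e (-n) hen').1 _ (hf2 m)
  have htt2 : t'' = t' := by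
    rcases honly t'' ht'' hlim with h3 | h3
    · exfalso
      apply htt
      obtain ⟨m, hm⟩ := hft.exists
      have h4 := hf2 m
      rw [hm, h3] at h4
      have e1 : z' + δ t m - (t + δ t m) = z' - t := by abel
      rw [e1] at h4
      exact (hTE C hP _ hT e (-n) hen' z').unique ⟨ht, h4⟩ ⟨ht', m2⟩
    · exact h3
  subst htt2
  -- exactly one of the flags
  have hy : ∀ᶠ m in (U : Filter ℕ), z' + δ t m - (t'' + δ t'' m) ∈ fl C e (-n) ∧
      z' + δ t m - (t'' + δ t'' m) ∉ fl C e n := by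
    have hneq : ∀ᶠ m in (U : Filter ℕ), t + δ t m ≠ t'' + δ t'' m := by
      by_contra hcon
      rw [Ultrafilter.frequently_iff_eventually.symm.not] at hcon
      have h3 : ∀ᶠ m in (U : Filter ℕ), t + δ t m = t'' + δ t'' m := by
        by_contra h4
        apply hcon
        rw [Ultrafilter.frequently_iff_eventually]
        exact Ultrafilter.eventually_not.2 h4
      have a1 : Tendsto (fun m => t + δ t m) (U : Filter ℕ) (𝓝 (t + 0)) :=
        tendsto_const_nhds.add (hδ t ht).2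
      have a2 : Tendsto (fun m => t'' + δ t'' m) (U : Filter ℕ) (𝓝 (t'' + 0)) :=
        tendsto_const_nhds.add (hδ t'' ht'').2
      rw [add_zero] at a1 a2
      exact htt (tendsto_nhds_unique (a1.congr' h3) a2)
    filter_upwards [hft, hneq, (hδ t ht).1, (hδ t'' ht'').1] with m hm hm2 hm3 hm4
    constructor
    · rw [← hm]
      exact hf2 m
    · intro hcon
      apply hm2
      refine (hTE C hP _ (hTn m) e n hen (z' + δ t m)).unique ⟨hm3, ?_⟩ ⟨hm4, hcon⟩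
      have e1 : z' + δ t m - (t + δ t m) = z' - t := by abel
      rw [e1]
      exact m1
  obtain ⟨O, hO⟩ := hP.linf e he
  have hmem : ∀ᶠ m in (U : Filter ℕ), rdet e (z' + δ t m - (t'' + δ t'' m)) ∈ O := by
    filter_upwards [hy] with m hm
    exact hO n _ hen (fun h => hm.2 (h.2 hm.1))
  -- the limit
  have hten : Tendsto (fun m => rdet e (z' + δ t m - (t'' + δ t'' m))) (U : Filter ℕ)
      (𝓝 (rdet e (z' - t''))) := by
    have h3 : Tendsto (fun m => z' + δ t m - (t'' + δ t'' m)) (U : Filter ℕ)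
        (𝓝 (z' + 0 - (t'' + 0))) :=
      (tendsto_const_nhds.add (hδ t ht).2).sub (tendsto_const_nhds.add (hδ t'' ht'').2)
    rw [add_zero, add_zero] at h3
    have hc : Continuous (fun x : V => rdet e x) := by
      unfold rdet
      fun_prop
    exact (hc.tendsto _).comp h3
  have hev : ∀ᶠ m in (U : Filter ℕ), rdet e (z' + δ t m - (t'' + δ t'' m)) = rdet e (z' - t'') := by
    classical
    have hnb : ((O.erase (rdet e (z' - t'')) : Finset ℝ) : Set ℝ)ᶜ ∈ 𝓝 (rdet e (z' - t'')) := by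
      refine IsOpen.mem_nhds (Finset.finite_toSet _).isClosed.isOpen_compl ?_
      simp
    filter_upwards [hmem, hten.eventually hnb] with m hm1 hm2
    by_contra hne
    apply hm2
    exact Finset.mem_coe.2 (Finset.mem_erase.2 ⟨hne, hm1⟩)
  filter_upwards [hev] with m hm
  have e1 : z' + δ t m - (t'' + δ t'' m) = (z' - t'') + (δ t m - δ t'' m) := by abel
  rw [e1] at hm
  simp only [rdet, Prod.fst_add, Prod.snd_add, Prod.fst_sub, Prod.snd_sub] at hm ⊢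
  linarith

end Pool.Agent.PTA
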