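import Pool.Agent.PTA.P_A

/-!
# PTA: NZ
-/

set_option autoImplicit false

namespace Pool.Agent.PTA

open Pool.Agent.PTR Filter Topology
open Pool.Agent.PTR.OL (V ii dif difs FLC InHull ii_of_mem ii_of_not ii_congr)
open Pool.Agent.PTP (Til TDP Iv wd SF Abv Stp Stk Ds Sm sd)

lemma loc_const {g : ℝ → ℤ} (h : ∀ s : ℝ, ∃ ε : ℝ, 0 < ε ∧ ∀ r : ℝ, 0 < r → r < ε →
    g (s + r) = g s ∧ g (s - r) = g s) (a b : ℝ) : g a = g b := by
  have hl : IsLocallyConstant g := by
    rw [IsLocallyConstant.iff_eventually_eq]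
    intro s
    obtain ⟨ε, hε, h1⟩ := h s
    filter_upwards [Metric.ball_mem_nhds s hε] with r hr
    rw [Metric.mem_ball, Real.dist_eq, abs_lt] at hr
    rcases lt_trichotomy r s with h2 | h2 | h2
    · have := (h1 (s - r) (by linarith) (by linarith)).2
      rwa [sub_sub_cancel] at this
    · rw [h2]
    · have := (h1 (r - s) (by linarith) (by linarith)).1
      rwa [add_sub_cancel] at this
  exact hl.apply_eq_of_preconnectedSpace a b

/-- NZ. -/
theorem p_NZ : T_NZ := by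
  rintro C hC ⟨e, he, x, s₀, hs₀, hfr⟩
  set n : V := (-e.2, e.1) with hn
  have hen : rdet e n ≠ 0 := by
    have h1 : rdet e n = e.1 ^ 2 + e.2 ^ 2 := by simp only [rdet, hn]; ring
    rw [h1]
    intro h2
    apply he
    have h3 : e.1 = 0 := by nlinarith [sq_nonneg e.1, sq_nonneg e.2]
    have h4 : e.2 = 0 := by nlinarith [sq_nonneg e.1, sq_nonneg e.2]
    exact Prod.ext h3 h4
  have hen' : rdet e (-n) ≠ 0 := by rw [rdet_neg_r]; exact neg_ne_zero.2 hen
  have hne : rdet (-e) n ≠ 0 := by rw [rdet_neg_l]; exact neg_ne_zero.2 hen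
  have hne' : rdet (-e) (-n) ≠ 0 := by rw [rdet_neg_l]; exact neg_ne_zero.2 hen'
  -- a point with a jump
  obtain ⟨s₁, hs₁, hedge⟩ := hC.edge e n x hen
  set s := min s₀ s₁ / 2 with hs
  have hs0 : 0 < s := by positivity
  have hslt : s < min s₀ s₁ := by rw [hs]; linarith [lt_min hs₀ hs₁]
  have hyC : x + s • e ∈ C := by
    have := hfr s hs0 (lt_of_lt_of_le hslt (min_le_left _ _))
    exact hC.cpt.isClosed.frontier_subset this
  have hone := hedge s hs0 (lt_of_lt_of_le hslt (min_le_right _ _)) hyC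
  have hnot : ¬ (x + s • e ∈ fl C e n ∧ x + s • e ∈ fl C e (-n)) := by
    rintro ⟨h1, h2⟩
    obtain ⟨s₂, hs₂, h3⟩ := hC.seg e n _ hen h1 h2
    have hlt := lt_of_lt_of_le hslt (min_le_left s₀ s₁)
    set s' := min s₂ (s₀ - s) / 2 with hs'
    have hm : 0 < min s₂ (s₀ - s) := lt_min hs₂ (by linarith)
    have hs'0 : 0 < s' := by rw [hs']; linarith
    have hs'1 : s' < min s₂ (s₀ - s) := by rw [hs']; linarith
    have h4 := h3 s' hs'0 (lt_of_lt_of_le hs'1 (min_le_left _ _))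
    have h5 := hfr (s + s') (by linarith)
      (by linarith [lt_of_lt_of_le hs'1 (min_le_right s₂ (s₀ - s))])
    have e1 : x + s • e + s' • e = x + (s + s') • e := by rw [add_smul]; abel
    rw [e1] at h4
    exact h5.2 h4
  by_contra hcon
  push Not at hcon
  -- the jump is locally constant
  set g : ℝ → ℤ := fun r => ii (fl C e n) (x + r • e) - ii (fl C e (-n)) (x + r • e) with hg
  have hgc : ∀ a b, g a = g b := by
    apply loc_const
    intro r
    obtain ⟨a1, ha1, k1⟩ := p_LOC C hC e n (x + r • e) hen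
    obtain ⟨a2, ha2, k2⟩ := p_LOC C hC e (-n) (x + r • e) hen'
    obtain ⟨a3, ha3, k3⟩ := p_LOC C hC (-e) n (x + r • e) hne
    obtain ⟨a4, ha4, k4⟩ := p_LOC C hC (-e) (-n) (x + r • e) hne'
    refine ⟨min (min a1 a2) (min a3 a4), lt_min (lt_min ha1 ha2) (lt_min ha3 ha4),
      fun σ hσ0 hσ1 => ?_⟩
    have l1 : σ < a1 := lt_of_lt_of_le hσ1 ((min_le_left _ _).trans (min_le_left _ _))
    have l2 : σ < a2 := lt_of_lt_of_le hσ1 ((min_le_left _ _).trans (min_le_right _ _))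
    have l3 : σ < a3 := lt_of_lt_of_le hσ1 ((min_le_right _ _).trans (min_le_left _ _))
    have l4 : σ < a4 := lt_of_lt_of_le hσ1 ((min_le_right _ _).trans (min_le_right _ _))
    have e1 : x + (r + σ) • e = x + r • e + σ • e := by rw [add_smul]; abel
    have e2 : x + (r - σ) • e = x + r • e + σ • (-e) := by rw [sub_smul, smul_neg]; abel
    constructor
    · simp only [hg]
      rw [e1, ii_congr (k1 σ hσ0 l1).1, ii_congr (k2 σ hσ0 l2).1]
    · simp only [hg]
      have j3 := (k3 σ hσ0 l3).2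
      have j4 := (k4 σ hσ0 l4).2
      rw [neg_neg] at j3 j4
      rw [e2, ii_congr j3, ii_congr j4]
      have h0 := hcon e n (x + r • e) hen
      unfold kk at h0
      linarith
  -- far away there is no jump
  obtain ⟨B, hB⟩ := hC.cpt.isBounded.exists_norm_le
  have hfar : ∃ r : ℝ, g r = 0 := by
    refine ⟨(B + ‖x‖ + 1) / ‖e‖, ?_⟩
    have hepos : 0 < ‖e‖ := norm_pos_iff.2 he
    have hout : x + ((B + ‖x‖ + 1) / ‖e‖) • e ∉ C := by
      intro h
      have h1 := hB _ h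
      have h2 : ‖((B + ‖x‖ + 1) / ‖e‖) • e‖ = |B + ‖x‖ + 1| := by
        rw [norm_smul, Real.norm_eq_abs, abs_div, abs_of_pos hepos]
        field_simp
      have h3 : ‖((B + ‖x‖ + 1) / ‖e‖) • e‖ ≤ ‖x + ((B + ‖x‖ + 1) / ‖e‖) • e‖ + ‖x‖ := by
        have e3 : ((B + ‖x‖ + 1) / ‖e‖) • e = (x + ((B + ‖x‖ + 1) / ‖e‖) • e) - x := by abel
        calc ‖((B + ‖x‖ + 1) / ‖e‖) • e‖ = ‖(x + ((B + ‖x‖ + 1) / ‖e‖) • e) - x‖ := by rw [← e3]
          _ ≤ _ := norm_sub_le _ _
      rw [h2] at h3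
      have h4 := le_abs_self (B + ‖x‖ + 1)
      linarith
    have o1 : x + ((B + ‖x‖ + 1) / ‖e‖) • e ∉ fl C e n := fun h =>
      hout ((p_INTF C hC e n hen).1 _ h)
    have o2 : x + ((B + ‖x‖ + 1) / ‖e‖) • e ∉ fl C e (-n) := fun h =>
      hout ((p_INTF C hC e (-n) hen').1 _ h)
    simp only [hg]
    rw [ii_of_not o1, ii_of_not o2, sub_zero]
  obtain ⟨r, hr⟩ := hfar
  have h0 := hgc s r
  rw [hr] at h0
  simp only [hg] at h0
  rcases hone with h1 | h1
  · have h2 : x + s • e ∉ fl C e (-n) := fun h2 => hnot ⟨h1, h2⟩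
    rw [ii_of_mem h1, ii_of_not h2] at h0
    norm_num at h0
  · have h2 : x + s • e ∉ fl C e n := fun h2 => hnot ⟨h2, h1⟩
    rw [ii_of_mem h1, ii_of_not h2] at h0
    norm_num at h0

end Pool.Agent.PTA
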