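import Pool.Agent.PTA.Targets

/-!
# PTP: target PFLC (theorem R5)

A polygonal body with a tiling of finite local complexity has a doubly periodic tiling.
-/

set_option autoImplicit false

namespace Pool.Agent.PTA

open Pool.Agent.PTR Filter Topology
open Pool.Agent.PTP (Til TDP Iv wd SF Abv Stp Stk Ds Sm sd T_FF T_INJ T_GLU)
open Pool.Agent.PTR.OL (V ii dif difs FLC InHull)

theorem p_PFLC_of (hREL : T_REL2) (hTE : T_TE) (hFLCR : PTL.T_FLCR) (hET : T_ET)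
    (hINTF : T_INTF) (hBODY : T_BODY) : T_PFLC := by
  intro C hP T hT hF
  have huv : rdet ((1, 0) : V) (0, 1) ≠ 0 := by simp [rdet]
  obtain ⟨r, hr⟩ := (hBODY C hP).1.isBounded.exists_norm_le
  have hb : ∃ r : ℝ, ∀ z ∈ fl C ((1, 0) : V) (0, 1), ‖z‖ ≤ r :=
    ⟨r, fun z hz => hr z ((hINTF C hP (1, 0) (0, 1) huv).1 z hz)⟩
  obtain ⟨L, hL, h⟩ := hREL C hP
  obtain ⟨T', hT', p, v, hpv, h1, h2⟩ := hFLCR (fl C ((1, 0) : V) (0, 1)) hb T
    (hTE C hP T hT _ _ huv) hF L hL (h T hT)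
  exact ⟨T', hET C hP T' _ _ huv hT', p, v, hpv, h1, h2⟩

end Pool.Agent.PTA
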