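import Pool.Agent.PTA.Targets

/-!
# PTP: strips (targets STA and STB)
-/

set_option autoImplicit false

namespace Pool.Agent.PTA

open Pool.Agent.PTR Filter Topology
open Pool.Agent.PTP (Til TDP Iv wd SF Abv Stp Stk Ds Sm sd T_FF T_INJ T_GLU)
open Pool.Agent.PTR.OL (V ii dif difs FLC InHull)

/-- Every height is attained. -/
theorem sta_height (e : V) (he : e ≠ 0) (c : ℝ) : ∃ w : V, rdet e w = c := by
  have hpos : 0 < e.1 ^ 2 + e.2 ^ 2 := by
    rcases eq_or_ne e.1 0 with h1 | h1
    · have h2 : e.2 ≠ 0 := by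
        intro h2
        exact he (Prod.ext h1 h2)
      positivity
    · positivity
  refine ⟨(-(c / (e.1 ^ 2 + e.2 ^ 2)) * e.2, (c / (e.1 ^ 2 + e.2 ^ 2)) * e.1), ?_⟩
  unfold rdet
  field_simp
  ring

theorem sta_add (e a b : V) : rdet e (a + b) = rdet e a + rdet e b := by
  unfold rdet
  simp only [Prod.fst_add, Prod.snd_add]
  ring

theorem sta_sub (e a b : V) : rdet e (a - b) = rdet e a - rdet e b := by
  unfold rdet
  simp only [Prod.fst_sub, Prod.snd_sub]
  ring

/-- STA. -/
theorem p_STA : T_STA := by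
  intro C _ e he T c c' hT hc hf hf'
  obtain ⟨w, hw⟩ := sta_height e he c
  refine ⟨{t | t + w ∈ T ∧ ∀ x ∈ C, c ≤ rdet e (t + w + x) ∧ rdet e (t + w + x) ≤ c'},
    sub_pos.2 hc, ?_, ?_, ?_⟩
  · intro z hz hz'
    obtain ⟨t, ht, hzt⟩ := hT.1 (z + w)
    have hh : rdet e (t + (z + w - t)) = rdet e z + c := by
      rw [show t + (z + w - t) = z + w by abel, sta_add, hw]
    refine ⟨t - w, ⟨by simpa using ht, ?_⟩, ?_⟩
    · have e1 : t - w + w = t := by abel
      rw [e1]
      intro x hx
      constructor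
      · rcases hf t ht with h | h
        · exact absurd (h _ hzt) (by rw [hh]; linarith)
        · exact h x hx
      · rcases hf' t ht with h | h
        · exact h x hx
        · exact absurd (h _ hzt) (by rw [hh]; linarith)
    · have e2 : z - (t - w) = z + w - t := by abel
      rw [e2]
      exact hzt
  · rintro t ⟨ht, _⟩ t' ⟨ht', _⟩ z hz hz'
    have h := hT.2 (t + w) ht (t' + w) ht' (z + w)
      (by rw [show z + w - (t + w) = z - t by abel]; exact hz)
      (by rw [show z + w - (t' + w) = z - t' by abel]; exact hz')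
    exact add_right_cancel h
  · rintro t ⟨_, ht⟩ x hx
    have h := ht x hx
    rw [show t + w + x = (t + x) + w by abel, sta_add, hw] at h
    constructor <;> linarith [h.1, h.2]

/-- STB. -/
theorem p_STB_of (hWD : T_WD) : T_STB := by
  intro C hP e he T h hS
  obtain ⟨hh, hcov, hdis, hin⟩ := hS
  obtain ⟨_, _, ⟨x, hx, y, hy, hxy⟩, _, _⟩ := hWD C hP e he
  refine ⟨?_, ?_⟩
  · obtain ⟨z, hz⟩ := sta_height e he (h / 2)
    obtain ⟨t, ht, _⟩ := hcov z (by rw [hz]; linarith) (by rw [hz]; linarith)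
    have h1 := hin t ht x hx
    have h2 := hin t ht y hy
    rw [sta_add] at h1 h2
    linarith [h1.1, h1.2, h2.1, h2.2]
  · intro c hc hch hf
    refine ⟨?_, ?_⟩
    · obtain ⟨z, hz⟩ := sta_height e he ((c + h) / 2)
      obtain ⟨t, ht, hzt⟩ := hcov z (by rw [hz]; linarith) (by rw [hz]; linarith)
      have hh' : rdet e (t + (z - t)) = (c + h) / 2 := by
        rw [show t + (z - t) = z by abel, hz]
      rcases hf t ht with h3 | h3
      · exact absurd (h3 _ hzt) (by rw [hh']; linarith)
      · have h1 := hin t ht x hx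
        have h2 := h3 y hy
        rw [sta_add] at h1 h2
        linarith [h1.1, h1.2, h2]
    · refine ⟨{t | t ∈ T ∧ ∀ x ∈ C, rdet e (t + x) ≤ c}, hc, ?_, ?_, ?_⟩
      · intro z hz hz'
        obtain ⟨t, ht, hzt⟩ := hcov z hz (by linarith)
        have hh' : rdet e (t + (z - t)) = rdet e z := by
          rw [show t + (z - t) = z by abel]
        refine ⟨t, ⟨ht, ?_⟩, hzt⟩
        rcases hf t ht with h3 | h3
        · exact h3
        · exact absurd (h3 _ hzt) (by rw [hh']; linarith)
      · rintro t ⟨ht, _⟩ t' ⟨ht', _⟩ z hz hz'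
        exact hdis t ht t' ht' z hz hz'
      · rintro t ⟨ht, ht'⟩ x' hx'
        exact ⟨(hin t ht x' hx').1, ht' x' hx'⟩

end Pool.Agent.PTA
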