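import Pool.Agent.PTA.Targets
import Pool.Agent.PTP.P_STK

/-!
# PTA: the stack of a strip (STK)
-/

set_option autoImplicit false

namespace Pool.Agent.PTA

open Pool.Agent.PTR Filter Topology
open Pool.Agent.PTR.OL (V ii dif difs FLC InHull)
open Pool.Agent.PTP (Til TDP Iv wd SF Abv Stp Stk Ds Sm sd)

theorem p_STK_of (hSEP : T_SEP) : T_STK := by
  intro C hC e w T h hS hw
  obtain ⟨ρ, hρ, hsep⟩ := hSEP C hC
  have hbd : ∃ r : ℝ, ∀ x ∈ C, ‖x‖ ≤ r := hC.cpt.isBounded.exists_norm_le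
  exact Pool.Agent.PTP.STKx.stk_core hC.cpt.isClosed hbd (hsep T hS.2.2.1).2 hS hw

end Pool.Agent.PTA
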