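import Pool.Agent.PTA.Targets

/-!
# PTP: target STZ
-/

set_option autoImplicit false

namespace Pool.Agent.PTA

open Pool.Agent.PTR Filter Topology
open Pool.Agent.PTP (Til TDP Iv wd SF Abv Stp Stk Ds Sm sd T_FF T_INJ T_GLU)
open Pool.Agent.PTR.OL (V ii dif difs FLC InHull)

theorem stz_add (e a b : V) : rdet e (a + b) = rdet e a + rdet e b := by
  unfold rdet
  simp only [Prod.fst_add, Prod.snd_add]
  ring

theorem stz_sub (e a b : V) : rdet e (a - b) = rdet e a - rdet e b := by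
  unfold rdet
  simp only [Prod.fst_sub, Prod.snd_sub]
  ring

theorem stz_smul (e a : V) (s : ℝ) : rdet e (s • a) = s * rdet e a := by
  unfold rdet
  simp only [Prod.smul_fst, Prod.smul_snd, smul_eq_mul]
  ring

theorem stz_neg (e a : V) : rdet e (-a) = -rdet e a := by
  unfold rdet
  simp only [Prod.fst_neg, Prod.snd_neg]
  ring

theorem stz_self (e : V) : rdet e e = 0 := by
  unfold rdet
  ring

theorem stz_abs (e a : V) : |rdet e a| ≤ 2 * ‖e‖ * ‖a‖ := by
  have h1 : |e.1| ≤ ‖e‖ := norm_fst_le e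
  have h2 : |e.2| ≤ ‖e‖ := norm_snd_le e
  have h3 : |a.1| ≤ ‖a‖ := norm_fst_le a
  have h4 : |a.2| ≤ ‖a‖ := norm_snd_le a
  have h5 : |rdet e a| ≤ |e.1 * a.2| + |e.2 * a.1| := by
    unfold rdet
    exact abs_sub _ _
  have h6 : |e.1 * a.2| ≤ ‖e‖ * ‖a‖ := by
    rw [abs_mul]
    exact mul_le_mul h1 h4 (abs_nonneg _) (norm_nonneg _)
  have h7 : |e.2 * a.1| ≤ ‖e‖ * ‖a‖ := by
    rw [abs_mul]
    exact mul_le_mul h2 h3 (abs_nonneg _) (norm_nonneg _)
  linarith

/-- small displacements have small heights -/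
theorem stz_small (U : Ultrafilter ℕ) (e : V) (d : ℕ → V)
    (hd : Tendsto d (U : Filter ℕ) (𝓝 0)) (c : ℝ) (hc : 0 < c) :
    ∀ᶠ m in (U : Filter ℕ), |rdet e (d m)| < c := by
  have hcont : Tendsto (fun m => 2 * ‖e‖ * ‖d m‖) (U : Filter ℕ) (𝓝 0) := by
    have h := (hd.norm).const_mul (2 * ‖e‖)
    simpa using h
  filter_upwards [hcont.eventually (gt_mem_nhds hc)] with m hm
  exact lt_of_le_of_lt (stz_abs e (d m)) hm

/-- the height of the displacement of a tile which touches a fault from the side of `n` -/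
theorem stz_side (hI : T_INTF) (C : Set V) (hP : Tame C) (U : Ultrafilter ℕ)
    (Tn : ℕ → Set V) (δ : V → ℕ → V) (hδ : Ds U Tn δ) (e n : V) (c : ℝ)
    (hen : rdet e n ≠ 0) (hSF : ∀ m, SF C e (Tn m) c) (y t : V) (hy : rdet e y = c)
    (ht : t ∈ Lim U Tn) (hyt : y - t ∈ fl C e n) :
    ∀ᶠ m in (U : Filter ℕ), 0 ≤ rdet e n * rdet e (δ t m) := by
  have h1 := (hI C hP e n hen).1
  obtain ⟨s₀, hs₀, h3⟩ := id hyt
  obtain ⟨r₀, hr₀, h4⟩ := h3 (s₀ / 2) (by linarith) (by linarith)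
  have hin := interior_subset (h4 (r₀ / 2) (by linarith) (by linarith))
  have hbd := h1 _ hyt
  have hr : 0 < r₀ / 2 := by linarith
  generalize s₀ / 2 = s at hin
  generalize r₀ / 2 = r at hin hr
  have hc : 0 < r * |rdet e n| := mul_pos hr (abs_pos.2 hen)
  filter_upwards [(hδ t ht).1, stz_small U e (δ t) (hδ t ht).2 _ hc] with m hm hm'
  have e1 : rdet e (t + δ t m + (y - t)) = c + rdet e (δ t m) := by
    rw [show t + δ t m + (y - t) = y + δ t m by abel, stz_add, hy]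
  have e2 : rdet e (t + δ t m + (y - t + s • e + r • n)) =
      c + r * rdet e n + rdet e (δ t m) := by
    rw [show t + δ t m + (y - t + s • e + r • n) = y + s • e + r • n + δ t m by abel,
      stz_add, stz_add, stz_add, stz_smul, stz_smul, stz_self, hy]
    ring
  rw [abs_lt] at hm'
  rcases lt_or_gt_of_ne hen with hneg | hpos
  · rw [abs_of_neg hneg] at hm'
    rcases hSF m _ hm with h | h
    · have h4 := h _ hbd
      rw [e1] at h4
      nlinarith
    · have h4 := h _ hin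
      rw [e2] at h4
      nlinarith
  · rw [abs_of_pos hpos] at hm'
    rcases hSF m _ hm with h | h
    · have h4 := h _ hin
      rw [e2] at h4
      nlinarith
    · have h4 := h _ hbd
      rw [e1] at h4
      nlinarith

/-- the displacements have height zero -/
theorem stz_zero (hU : T_ULT) (hTE : T_TE) (hI : T_INTF) (hJD : T_JD) (hB : T_BODY)
    (C : Set V) (hP : Tame C) (U : Ultrafilter ℕ) (Tn : ℕ → Set V)
    (hT : ∀ n, Til C (Tn n)) (δ : V → ℕ → V) (hδ : Ds U Tn δ) (e e' : V)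
    (hee : rdet e e' ≠ 0) (h : ℝ) (hh : 0 < h)
    (hSF : ∀ n, ∀ k : ℤ, SF C e (Tn n) (k * h)) (hSl : Sl C U Tn δ e')
    (t : V) (ht : t ∈ Lim U Tn) : ∀ᶠ m in (U : Filter ℕ), rdet e (δ t m) = 0 := by
  obtain ⟨hL, -⟩ := hU C hP U Tn hT
  obtain ⟨x₀, hx₀⟩ := (hB C hP).2.1
  have hen : rdet e e' ≠ 0 := hee
  have hen' : rdet e (-e') ≠ 0 := by
    rw [stz_neg]
    exact neg_ne_zero.2 hee
  set y : V := t + x₀ with hy
  set k : ℤ := ⌊rdet e y / h⌋ with hk
  set y₀ : V := y + ((k * h - rdet e y) / rdet e e') • e' with hy₀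
  have hy₀e : rdet e y₀ = k * h := by
    rw [hy₀, stz_add, stz_smul, div_mul_cancel₀ _ hee]
    ring
  have hy₀e' : rdet e' y = rdet e' y₀ := by
    rw [hy₀, stz_add e' y, stz_smul, stz_self]
    ring
  obtain ⟨t₂, ⟨ht₂, hyt₂⟩, -⟩ := hTE C hP _ hL e e' hen y₀
  obtain ⟨t₃, ⟨ht₃, hyt₃⟩, -⟩ := hTE C hP _ hL e (-e') hen' y₀
  have hyt : y - t ∈ fl C e e' := by
    obtain ⟨-, h2, -⟩ := hI C hP e e' hen
    apply h2
    rw [hy, add_sub_cancel_left]
    exact hx₀
  have hsm : Sm U δ t t₂ :=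
    hSl.2 e e' e e' y y₀ t t₂ ht ht₂ hen hen hy₀e' Iff.rfl hyt hyt₂
  have hjd := hJD C hP U Tn hT δ hδ e e' y₀ t₂ t₃ hen ht₂ ht₃ hyt₂ hyt₃
  have h2 := stz_side hI C hP U Tn δ hδ e e' (k * h) hen (fun m => hSF m k) y₀ t₂ hy₀e ht₂ hyt₂
  have h3 := stz_side hI C hP U Tn δ hδ e (-e') (k * h) hen' (fun m => hSF m k) y₀ t₃ hy₀e ht₃
    hyt₃
  filter_upwards [hsm, hjd, h2, h3] with m a1 a2 a3 a4
  rw [a1]
  rw [stz_neg, ← a2] at a4
  have a5 : rdet e e' * rdet e (δ t₂ m) = 0 := by linarith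
  exact (mul_eq_zero.1 a5).resolve_left hee

/-- two vectors with equal heights in two independent directions are equal -/
theorem stz_eq (e e' a b : V) (hee : rdet e e' ≠ 0) (h1 : rdet e a = rdet e b)
    (h2 : rdet e' a = rdet e' b) : a = b := by
  unfold rdet at hee h1 h2
  have h3 : (e.1 * e'.2 - e.2 * e'.1) * (a.1 - b.1) = 0 := by
    linear_combination e'.1 * h1 - e.1 * h2
  have h4 : (e.1 * e'.2 - e.2 * e'.1) * (a.2 - b.2) = 0 := by
    linear_combination e'.2 * h1 - e.2 * h2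
  exact Prod.ext (sub_eq_zero.1 ((mul_eq_zero.1 h3).resolve_left hee))
    (sub_eq_zero.1 ((mul_eq_zero.1 h4).resolve_left hee))

/-- STZ. -/
theorem p_STZ_of (hU : T_ULT) (hTE : T_TE) (hI : T_INTF) (hJD : T_JD) (hB : T_BODY) : T_STZ := by
  intro C hP U Tn hT δ hδ e e' hee h hh hSF hSl t ht t' ht'
  have z1 := stz_zero hU hTE hI hJD hB C hP U Tn hT δ hδ e e' hee h hh hSF hSl t ht
  have z2 := stz_zero hU hTE hI hJD hB C hP U Tn hT δ hδ e e' hee h hh hSF hSl t' ht'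
  filter_upwards [z1, z2, hSl.1 t ht t' ht'] with m b1 b2 b3
  exact stz_eq e e' _ _ hee (by rw [b1, b2]) b3

end Pool.Agent.PTA
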