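import Pool.Agent.PTP.Defs

/-!
# PTA: definitions

Port of PTP (polygonal bodies) to bodies with a tame boundary, in particular to bodies with a
piecewise analytic boundary.  See ideas row 2630 (MP_eac546_co).
-/

set_option autoImplicit false

namespace Pool.Agent.PTA

open Pool.Agent.PTR Filter Topology
open Pool.Agent.PTR.OL (V ii dif difs FLC InHull)
open Pool.Agent.PTP (Til TDP Iv wd SF Abv Stp Stk Ds Sm sd)

/-! ## Flags -/

/-- `x` is in the flagged set `(u, v)`: for all small `s > 0` and all small `r > 0` (depending on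
`s`) the point `x + s u + r v` is in the interior of `C`. -/
def fl (C : Set V) (u v : V) : Set V :=
  {x | ∃ s₀ : ℝ, 0 < s₀ ∧ ∀ s : ℝ, 0 < s → s < s₀ → ∃ r₀ : ℝ, 0 < r₀ ∧
    ∀ r : ℝ, 0 < r → r < r₀ → x + s • u + r • v ∈ interior C}

/-- The same with the complement of `C`. -/
def fo (C : Set V) (u v : V) : Set V :=
  {x | ∃ s₀ : ℝ, 0 < s₀ ∧ ∀ s : ℝ, 0 < s → s < s₀ → ∃ r₀ : ℝ, 0 < r₀ ∧
    ∀ r : ℝ, 0 < r → r < r₀ → x + s • u + r • v ∉ C}

/-- Outer flags: for all small `ε > 0` and all small `s > 0` (depending on `ε`) the point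
`x + s (u + ε v)` is in the interior of `C`. -/
def fu (C : Set V) (u v : V) : Set V :=
  {x | ∃ ε₀ : ℝ, 0 < ε₀ ∧ ∀ ε : ℝ, 0 < ε → ε < ε₀ → ∃ s₀ : ℝ, 0 < s₀ ∧
    ∀ s : ℝ, 0 < s → s < s₀ → x + s • (u + ε • v) ∈ interior C}

/-- The same with the complement of `C`. -/
def fv (C : Set V) (u v : V) : Set V :=
  {x | ∃ ε₀ : ℝ, 0 < ε₀ ∧ ∀ ε : ℝ, 0 < ε → ε < ε₀ → ∃ s₀ : ℝ, 0 < s₀ ∧
    ∀ s : ℝ, 0 < s → s < s₀ → x + s • (u + ε • v) ∉ C}

/-- The boundary of `C` contains a segment parallel to `e`. -/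
def Dir (C : Set V) (e : V) : Prop :=
  e ≠ 0 ∧ ∃ (x : V) (s₀ : ℝ), 0 < s₀ ∧ ∀ s : ℝ, 0 < s → s < s₀ → x + s • e ∈ frontier C

/-- The corner function. -/
noncomputable def kk (C : Set V) (e n : V) (x : V) : ℤ :=
  ii (fl C e n) x - ii (fl C e (-n)) x - ii (fl C (-e) n) x + ii (fl C (-e) (-n)) x

/-- The points with a corner. -/
def crs (C : Set V) : Set V := {x | ∃ e n : V, rdet e n ≠ 0 ∧ kk C e n x ≠ 0}

open Classical in
/-- The points with a corner as a finite set. -/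
noncomputable def cD (C : Set V) : Finset V :=
  if h : (crs C).Finite then h.toFinset else ∅

/-- The points covered by the tiles in `K`, for the flag `(u, v)`. -/
def cv (C : Set V) (u v : V) (K : Set V) : Set V := {z | ∃ t ∈ K, z - t ∈ fl C u v}

/-- The sum of the corners at the point `z`. -/
noncomputable def cs (C : Set V) (e n : V) (K : Set V) (z : V) : ℤ :=
  ∑ v ∈ cD C, kk C e n v * ii K (z - v)

/-- `K` is corner free. -/
def Cf (C : Set V) (K : Set V) : Prop :=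
  ∀ e n : V, rdet e n ≠ 0 → ∀ z, cs C e n K z = 0

/-- `e` is a slide direction. -/
def Sl (C : Set V) (U : Ultrafilter ℕ) (Tn : ℕ → Set V) (δ : V → ℕ → V) (e : V) :
    Prop :=
  (∀ t ∈ Lim U Tn, ∀ t' ∈ Lim U Tn,
    ∀ᶠ n in (U : Filter ℕ), rdet e (δ t n) = rdet e (δ t' n)) ∧
  ∀ u v u' v' z z' t t' : V, t ∈ Lim U Tn → t' ∈ Lim U Tn → rdet u v ≠ 0 → rdet u' v' ≠ 0 →
    rdet e z = rdet e z' → (sd e u v ↔ sd e u' v') → z - t ∈ fl C u v → z' - t' ∈ fl C u' v' →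
    Sm U δ t t'

/-- Tame bodies. -/
structure Tame (C : Set V) : Prop where
  cpt : IsCompact C
  ne : (interior C).Nonempty
  cl : closure (interior C) = C
  /-- dichotomy -/
  dich : ∀ u v x : V, rdet u v ≠ 0 → x ∈ fl C u v ∨ x ∈ fo C u v
  scal : ∀ (u v : V) (l m k : ℝ), rdet u v ≠ 0 → 0 < l → 0 < m →
    fl C (l • u) (m • v + k • u) = fl C u v
  crsf : (crs C).Finite
  linf : ∀ e : V, e ≠ 0 → ∃ O : Finset ℝ, ∀ n x : V, rdet e n ≠ 0 →
    ¬ (x ∈ fl C e n ↔ x ∈ fl C e (-n)) → rdet e x ∈ O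
  edge : ∀ e n x : V, rdet e n ≠ 0 → ∃ s₀ : ℝ, 0 < s₀ ∧ ∀ s : ℝ, 0 < s → s < s₀ →
    x + s • e ∈ C → x + s • e ∈ fl C e n ∨ x + s • e ∈ fl C e (-n)
  /-- both sides inside: the line is inside -/
  seg : ∀ e n x : V, rdet e n ≠ 0 → x ∈ fl C e n → x ∈ fl C e (-n) →
    ∃ s₀ : ℝ, 0 < s₀ ∧ ∀ s : ℝ, 0 < s → s < s₀ → x + s • e ∈ interior C
  /-- dichotomy for the outer flags -/
  dich2 : ∀ u v x : V, rdet u v ≠ 0 → x ∈ fu C u v ∨ x ∈ fv C u v
  /-- the inner and the outer flags differ at finitely many points (tangency points) -/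
  iof : ∀ u v : V, rdet u v ≠ 0 → {x | ¬ (x ∈ fl C u v ↔ x ∈ fu C u v)}.Finite

end Pool.Agent.PTA
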