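import Pool.Agent.PTA.PWFacts
import Pool.Agent.PTA.Defs

/-!
# Piecewise convex bodies are tame
-/

set_option autoImplicit false

namespace Pool.Agent.PTA

open Pool.Agent.PTR Filter Topology
open Pool.Agent.PTP (par_of ne_of_rdet)
open Pool.Agent.PTR.OL (V ii dif difs FLC InHull)

lemma fl_eq (C : Set V) (u v : V) : fl C u v = Fli C u v := by
  ext x
  constructor
  · rintro ⟨s₀, h0, h⟩
    refine ev_iff_Ioo.2 ⟨s₀, h0, fun s a b => ?_⟩
    obtain ⟨r₀, h1, h2⟩ := h s a b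
    exact ev_iff_Ioo.2 ⟨r₀, h1, fun r c d => h2 r c d⟩
  · intro h
    obtain ⟨s₀, h0, h1⟩ := ev_iff_Ioo.1 h
    refine ⟨s₀, h0, fun s a b => ?_⟩
    obtain ⟨r₀, h2, h3⟩ := ev_iff_Ioo.1 (h1 s a b)
    exact ⟨r₀, h2, fun r c d => h3 r c d⟩

lemma fu_eq (C : Set V) (u v : V) : fu C u v = Flo C u v := by
  ext x
  constructor
  · rintro ⟨s₀, h0, h⟩
    refine ev_iff_Ioo.2 ⟨s₀, h0, fun s a b => ?_⟩
    obtain ⟨r₀, h1, h2⟩ := h s a b
    exact ev_iff_Ioo.2 ⟨r₀, h1, fun r c d => h2 r c d⟩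
  · intro h
    obtain ⟨s₀, h0, h1⟩ := ev_iff_Ioo.1 h
    refine ⟨s₀, h0, fun s a b => ?_⟩
    obtain ⟨r₀, h2, h3⟩ := ev_iff_Ioo.1 (h1 s a b)
    exact ⟨r₀, h2, fun r c d => h3 r c d⟩

lemma PWL.ball_in {C K : Set V} {L : Finset (V × ℝ)} (h : PWL C K L) {e n x : V}
    (hen : rdet e n ≠ 0) {s : ℝ} (h1 : InS C x e n s) (h2 : InS C x e (-n) s) :
    x + s • e ∈ interior C := by
  obtain ⟨ρ, hρ, h1⟩ := h1
  obtain ⟨ρ', hρ', h2⟩ := h2
  have hoff : ∀ y : V, ‖y - (x + s • e)‖ < min ρ ρ' → rdet e (y - x) ≠ 0 → y ∈ interior C := by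
    intro y hy h0
    rcases lt_or_gt_of_ne (mul_ne_zero hen h0) with h3 | h3
    · refine h2 y ⟨hy.trans_le (min_le_right _ _), ?_⟩
      rw [PTP.rdet_neg_r]
      linarith
    · exact h1 y ⟨hy.trans_le (min_le_left _ _), h3⟩
  rw [mem_interior]
  refine ⟨Metric.ball (x + s • e) (min ρ ρ'), ?_, Metric.isOpen_ball,
    Metric.mem_ball_self (lt_min hρ hρ')⟩
  intro y hy
  rw [← h.cl, Metric.mem_closure_iff]
  intro ε hε
  by_cases h0 : rdet e (y - x) = 0
  · obtain ⟨δ, hδ, hb⟩ := Metric.isOpen_iff.1 Metric.isOpen_ball y hy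
    set η := min δ ε / 2 / (‖n‖ + 1) with hη
    have hη0 : 0 < η := by positivity
    have hn : ‖η • n‖ < min δ ε := by
      rw [norm_smul, Real.norm_eq_abs, abs_of_pos hη0]
      have h5 : η * ‖n‖ ≤ η * (‖n‖ + 1) := mul_le_mul_of_nonneg_left (by linarith) hη0.le
      have h6 : η * (‖n‖ + 1) = min δ ε / 2 := by
        rw [hη, div_mul_cancel₀ _ (by positivity)]
      have h7 : 0 < min δ ε := lt_min hδ hε
      linarith
    refine ⟨y + η • n, hoff _ ?_ ?_, ?_⟩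
    · have := hb (show y + η • n ∈ Metric.ball y δ by
        rw [Metric.mem_ball, dist_eq_norm, add_sub_cancel_left]
        exact hn.trans_le (min_le_left _ _))
      rwa [Metric.mem_ball, dist_eq_norm] at this
    · have e1 : y + η • n - x = (y - x) + η • n := by abel
      rw [e1, rdet_add, h0, zero_add, PTP.rdet_smul_r]
      exact mul_ne_zero hη0.ne' hen
    · rw [dist_comm, dist_eq_norm, add_sub_cancel_left]
      exact hn.trans_le (min_le_right _ _)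
  · refine ⟨y, hoff y ?_ h0, by rwa [dist_self]⟩
    rwa [Metric.mem_ball, dist_eq_norm] at hy

lemma ii_eq_of_iff {A B : Set V} {x : V} (h : x ∈ A ↔ x ∈ B) : ii A x = ii B x := by
  unfold ii
  by_cases hx : x ∈ A
  · rw [if_pos hx, if_pos (h.1 hx)]
  · rw [if_neg hx, if_neg (fun h' => hx (h.2 h'))]

lemma PWL.crs_sub {C K : Set V} {L : Finset (V × ℝ)} (h : PWL C K L) : (crs C).Finite := by
  have h1 : (⋃ q ∈ (L : Set (V × ℝ)), {x : V | ∃ p ∈ L, rdet p.1 q.1 = 0 ∧ rdet p.1 x = p.2 ∧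
      (x ∈ K ∨ ∃ p' ∈ L, rdet p'.1 q.1 ≠ 0 ∧ rdet p'.1 x = p'.2)}).Finite :=
    L.finite_toSet.biUnion fun q hq => h.badset (h.nz q hq)
  refine h1.subset ?_
  rintro x ⟨e, n, hen, hk⟩
  have he := ne_of_rdet hen
  have hen1 : rdet e (-n) ≠ 0 := by rw [PTP.rdet_neg_r]; exact neg_ne_zero.2 hen
  have hen2 : rdet (-e) n ≠ 0 := by rw [PTP.rdet_neg_l]; exact neg_ne_zero.2 hen
  by_contra hcon
  apply hk
  unfold kk
  simp only [fl_eq]
  by_cases hc : ∃ p ∈ L, rdet p.1 e = 0 ∧ rdet p.1 x = p.2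
  · obtain ⟨p, hp, h2, h3⟩ := hc
    have hpar : ∀ q : V × ℝ, q ∈ L → (rdet q.1 p.1 = 0 ↔ rdet q.1 e = 0) := by
      intro q hq
      obtain ⟨a, ha⟩ := par_of (h.nz p hp) h2
      have ha0 : a ≠ 0 := by
        rintro rfl
        rw [zero_smul] at ha
        exact he ha
      rw [ha, PTP.rdet_smul_r, mul_eq_zero]
      constructor
      · intro h4; exact Or.inr h4
      · intro h4; exact h4.resolve_left ha0
    have hnot : ¬ (x ∈ K ∨ ∃ p' ∈ L, rdet p'.1 p.1 ≠ 0 ∧ rdet p'.1 x = p'.2) := by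
      intro h4
      apply hcon
      simp only [Set.mem_iUnion]
      exact ⟨p, hp, p, hp, rdet_self _, h3, h4⟩
    rw [not_or] at hnot
    obtain ⟨hK, hL⟩ := hnot
    obtain ⟨ρ, hρ, h5⟩ := offl h (x := x) (u := e) (s := 0) (by simpa using hK) (by
      intro q hq h6
      rw [zero_smul, add_zero] at h6
      refine ⟨?_, h6⟩
      by_contra h4
      exact hL ⟨q, hq, fun h7 => h4 ((hpar q hq).1 h7), h6⟩)
    have h6 : ∀ y : V, ‖y - x‖ < ρ → rdet e (y - x) ≠ 0 → y ∉ frontier C := by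
      intro y hy
      refine h5 y ?_
      rwa [zero_smul, add_zero]
    rw [ii_eq_of_iff (h.side_eq hen hρ h6), ii_eq_of_iff (h.side_eq hen1 hρ h6)]
    ring
  · have hc' : ∀ p ∈ L, rdet p.1 e = 0 → rdet p.1 x ≠ p.2 := fun p hp h1 h2 => hc ⟨p, hp, h1, h2⟩
    have h4 := h.cross_eq hen hc'
    have h5 := h.cross_eq hen2 fun p hp h1 => hc' p hp (by
      have e1 : rdet p.1 (-e) = -rdet p.1 e := PTP.rdet_neg_r _ _
      rw [e1] at h1
      linarith)
    rw [ii_eq_of_iff h4, ii_eq_of_iff h5]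
    ring

theorem PWL.tame {C K : Set V} {L : Finset (V × ℝ)} (h : PWL C K L) : Tame C where
  cpt := h.cpt
  ne := h.ne
  cl := h.cl
  dich := by
    intro u v x huv
    by_cases hx : x ∈ Fli C u v
    · left
      rwa [fl_eq]
    · right
      have h1 := h.din huv hx
      obtain ⟨s₀, h0, h2⟩ := ev_iff_Ioo.1 h1
      refine ⟨s₀, h0, fun s a b => ?_⟩
      obtain ⟨r₀, h3, h4⟩ := ev_iff_Ioo.1 (h2 s a b)
      exact ⟨r₀, h3, fun r c d => h4 r c d⟩
  scal := by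
    intro u v l m k huv hl hm
    rw [fl_eq, fl_eq]
    exact h.scal u v l m k hl hm huv
  crsf := h.crs_sub
  linf := by
    intro e he
    obtain ⟨O, hO⟩ := h.linf he
    refine ⟨O, fun n x hen hx => hO n x hen ?_⟩
    rwa [fl_eq, fl_eq] at hx
  edge := by
    intro e n x hen
    have hen1 : rdet e (-n) ≠ 0 := by rw [PTP.rdet_neg_r]; exact neg_ne_zero.2 hen
    have h1 := h.edge x hen
    have h2 := h.loc x hen
    have h3 := h.loc x hen1
    obtain ⟨s₀, h0, h4⟩ := ev_iff_Ioo.1 ((h1.and h2).and h3)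
    refine ⟨s₀, h0, fun s a b hC => ?_⟩
    obtain ⟨⟨h5, h6, -⟩, h7, -⟩ := h4 s a b
    rw [fl_eq, fl_eq, h6, h7]
    exact h5 hC
  seg := by
    intro e n x hen h1 h2
    rw [fl_eq] at h1 h2
    have hen1 : rdet e (-n) ≠ 0 := by rw [PTP.rdet_neg_r]; exact neg_ne_zero.2 hen
    rcases h.inner x hen with ⟨-, r, hr, h3⟩ | ⟨h3, -⟩
    · rcases h.inner x hen1 with ⟨-, r', hr', h4⟩ | ⟨h4, -⟩
      · refine ⟨min r r', lt_min hr hr', fun s a b => ?_⟩
        exact h.ball_in hen (h3 s a (b.trans_le (min_le_left _ _)))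
          (h4 s a (b.trans_le (min_le_right _ _)))
      · exact absurd h2 h4
    · exact absurd h1 h3
  dich2 := by
    intro u v x huv
    by_cases hx : x ∈ Flo C u v
    · left
      rwa [fu_eq]
    · right
      have h1 := h.dou huv hx
      obtain ⟨s₀, h0, h2⟩ := ev_iff_Ioo.1 h1
      refine ⟨s₀, h0, fun s a b => ?_⟩
      obtain ⟨r₀, h3, h4⟩ := ev_iff_Ioo.1 (h2 s a b)
      exact ⟨r₀, h3, fun r c d => h4 r c d⟩
  iof := by
    intro u v huv
    simp only [fl_eq, fu_eq]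
    exact h.fin2 huv

/-- A body whose boundary is contained in the union of finitely many lines and of finitely many
strictly convex arcs is tame. -/
theorem tame_of_arcs {C : Set V} (h1 : IsCompact C) (h2 : closure (interior C) = C)
    (h3 : (interior C).Nonempty) (F : Set (Set V)) (hF : F.Finite) (hA : ∀ Γ ∈ F, Arc Γ)
    (L : Finset (V × ℝ)) (hL : ∀ p ∈ L, p.1 ≠ 0)
    (hb : ∀ x ∈ frontier C, x ∈ ⋃₀ F ∨ ∃ p ∈ L, rdet p.1 x = p.2) : Tame C :=
  PWL.tame ⟨h1, h2, h3, cur_biUnion F hF hA, hL, hb⟩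

end Pool.Agent.PTA
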