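import Pool.Agent.PTA.P_A

/-! PTA, section A: WD. -/

set_option autoImplicit false

namespace Pool.Agent.PTA

open Pool.Agent.PTR Filter Topology
open Pool.Agent.PTP (Til TDP Iv wd SF Abv Stp Stk Ds Sm sd T_FF T_INJ T_GLU)
open Pool.Agent.PTR.OL (V ii dif difs FLC InHull)

namespace WDx

lemma rcont (e : V) : Continuous (rdet e) := by
  unfold rdet
  exact (continuous_const.mul continuous_snd).sub (continuous_const.mul continuous_fst)

lemma rsmul (e z : V) (s : ℝ) : rdet e (s • z) = s * rdet e z := by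
  simp only [rdet, Prod.smul_fst, Prod.smul_snd, smul_eq_mul]
  ring

lemma rperp {e : V} (he : e ≠ 0) : 0 < rdet e (-e.2, e.1) := by
  simp only [rdet]
  have h : e.1 ≠ 0 ∨ e.2 ≠ 0 := by
    by_contra hcon
    push Not at hcon
    exact he (Prod.ext hcon.1 hcon.2)
  rcases h with h | h
  · have := mul_self_pos.2 h
    nlinarith [mul_self_nonneg e.2]
  · have := mul_self_pos.2 h
    nlinarith [mul_self_nonneg e.1]

end WDx

open WDx

theorem p_WD : T_WD := by
  intro C hP e he
  obtain ⟨hc, ⟨x0, hx0⟩, hcl⟩ := p_BODY C hP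
  have hx0C : x0 ∈ C := interior_subset hx0
  obtain ⟨xM, hxM, hM⟩ := hc.exists_isMaxOn ⟨x0, hx0C⟩ (rcont e).continuousOn
  obtain ⟨xm, hxm, hm⟩ := hc.exists_isMinOn ⟨x0, hx0C⟩ (rcont e).continuousOn
  have hM' : ∀ x ∈ C, rdet e x ≤ rdet e xM := fun x hx => hM hx
  have hm' : ∀ x ∈ C, rdet e xm ≤ rdet e x := fun x hx => hm hx
  have hg : IsGreatest {d : ℝ | ∃ x ∈ C, ∃ y ∈ C, d = rdet e x - rdet e y}
      (rdet e xM - rdet e xm) := by
    refine ⟨⟨xM, hxM, xm, hxm, rfl⟩, ?_⟩
    rintro d ⟨x, hx, y, hy, rfl⟩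
    linarith [hM' x hx, hm' y hy]
  have hw : wd C e = rdet e xM - rdet e xm := hg.csSup_eq
  -- a point of the body strictly above the point `x` when a small push stays in the body
  have hpos : 0 < wd C e := by
    rw [hw]
    have h1 : Tendsto (fun s : ℝ => x0 + s • ((-e.2, e.1) : V)) (𝓝 0)
        (𝓝 (x0 + (0 : ℝ) • ((-e.2, e.1) : V))) := by
      apply Continuous.tendsto
      fun_prop
    rw [zero_smul, add_zero] at h1
    have h2 : ∀ᶠ s in 𝓝[>] (0 : ℝ), x0 + s • ((-e.2, e.1) : V) ∈ interior C :=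
      (h1.mono_left nhdsWithin_le_nhds).eventually (isOpen_interior.mem_nhds hx0)
    obtain ⟨s, hs, hs0⟩ := (h2.and (eventually_mem_set.2 self_mem_nhdsWithin)).exists
    have hs0' : 0 < s := hs0
    have h4 := hM' _ (interior_subset hs)
    rw [rdet_add, rsmul] at h4
    have h5 := hm' _ hx0C
    have h6 : 0 < s * rdet e (-e.2, e.1) := mul_pos hs0' (rperp he)
    linarith
  refine ⟨hpos, ?_, ⟨xM, hxM, xm, hxm, hw.symm⟩, ⟨rdet e xm, ?_⟩, ?_⟩
  · intro x hx y hy
    rw [hw]
    linarith [hM' x hx, hm' y hy]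
  · intro u v hu x hx
    obtain ⟨s₀, hs₀, h1⟩ := hx
    obtain ⟨r₀, hr₀, h2⟩ := h1 (s₀ / 2) (by linarith) (by linarith)
    have hu' : 0 < s₀ / 2 * rdet e u := mul_pos (by linarith) hu
    have hden : 0 < |rdet e v| + 1 := by positivity
    obtain ⟨r, hr, hr', hr''⟩ : ∃ r : ℝ, 0 < r ∧ r < r₀ ∧
        r * (|rdet e v| + 1) < s₀ / 2 * rdet e u := by
      refine ⟨min (r₀ / 2) (s₀ / 2 * rdet e u / (|rdet e v| + 1) / 2), ?_, ?_, ?_⟩
      · exact lt_min (by linarith) (by positivity)
      · exact (min_le_left _ _).trans_lt (by linarith)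
      · have h3 : min (r₀ / 2) (s₀ / 2 * rdet e u / (|rdet e v| + 1) / 2) * (|rdet e v| + 1) ≤
            s₀ / 2 * rdet e u / (|rdet e v| + 1) / 2 * (|rdet e v| + 1) :=
          mul_le_mul_of_nonneg_right (min_le_right _ _) hden.le
        have h4 : s₀ / 2 * rdet e u / (|rdet e v| + 1) / 2 * (|rdet e v| + 1) =
            s₀ / 2 * rdet e u / 2 := by
          field_simp
        linarith
    have h3 := hM' _ (interior_subset (h2 r hr hr'))
    rw [rdet_add, rdet_add, rsmul, rsmul] at h3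
    have h4 : -(r * |rdet e v|) ≤ r * rdet e v := by
      have := neg_abs_le (rdet e v)
      nlinarith
    have hxC : x ∈ C := by
      by_contra hcon
      have hev : ∀ᶠ p : ℝ × ℝ in 𝓝 (0, 0), x + p.1 • u + p.2 • v ∈ Cᶜ := by
        have h5 : Tendsto (fun p : ℝ × ℝ => x + p.1 • u + p.2 • v) (𝓝 (0, 0))
            (𝓝 (x + (0 : ℝ) • u + (0 : ℝ) • v)) := by
          apply Continuous.tendsto
          fun_prop
        rw [zero_smul, zero_smul, add_zero, add_zero] at h5
        exact h5.eventually (hc.isClosed.isOpen_compl.mem_nhds hcon)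
      obtain ⟨η, hη, hb⟩ := Metric.eventually_nhds_iff.1 hev
      obtain ⟨r₁, hr₁, h6⟩ := h1 (min (s₀ / 2) (η / 2)) (lt_min (by linarith) (by linarith))
        ((min_le_left _ _).trans_lt (by linarith))
      have h7 := h6 (min (r₁ / 2) (η / 2)) (lt_min (by linarith) (by linarith))
        ((min_le_left _ _).trans_lt (by linarith))
      refine hb (y := (min (s₀ / 2) (η / 2), min (r₁ / 2) (η / 2))) ?_ (interior_subset h7)
      have e1 : 0 ≤ min (s₀ / 2) (η / 2) := le_min (by linarith) (by linarith)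
      have e2 : 0 ≤ min (r₁ / 2) (η / 2) := le_min (by linarith) (by linarith)
      rw [Prod.dist_eq, max_lt_iff, Real.dist_eq, Real.dist_eq, sub_zero, sub_zero,
        abs_of_nonneg e1, abs_of_nonneg e2]
      exact ⟨(min_le_right _ _).trans_lt (by linarith), (min_le_right _ _).trans_lt (by linarith)⟩
    refine ⟨hm' x hxC, ?_⟩
    rw [hw]
    nlinarith
  · intro hI d hd
    have key : ∀ z ∈ C, ∀ η > (0 : ℝ), ∃ y ∈ interior C, |rdet e y - rdet e z| < η := by
      intro z hz η hη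
      rw [← hcl] at hz
      have h1 : {y | |rdet e y - rdet e z| < η} ∈ 𝓝 z := by
        apply IsOpen.mem_nhds
        · exact isOpen_lt ((rcont e).sub continuous_const).abs continuous_const
        · simpa using hη
      obtain ⟨y, hy1, hy2⟩ := mem_closure_iff_nhds.1 hz _ h1
      exact ⟨y, hy2, hy1⟩
    obtain ⟨x, hx, hx'⟩ := key xM hxM ((wd C e - |d|) / 2) (by linarith)
    obtain ⟨y, hy, hy'⟩ := key xm hxm ((wd C e - |d|) / 2) (by linarith)
    rw [abs_lt] at hx' hy'
    have hd1 : |d| < rdet e x - rdet e y := by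
      rw [hw] at hx' hy' hd
      linarith [hx'.1, hy'.2]
    have hA : rdet e x - rdet e y ∈ {d : ℝ | ∃ x ∈ interior C, ∃ y ∈ interior C,
        d = rdet e x - rdet e y} := ⟨x, hx, y, hy, rfl⟩
    have hB : rdet e y - rdet e x ∈ {d : ℝ | ∃ x ∈ interior C, ∃ y ∈ interior C,
        d = rdet e x - rdet e y} := ⟨y, hy, x, hx, rfl⟩
    have h5 : d ∈ Set.Icc (rdet e y - rdet e x) (rdet e x - rdet e y) := by
      have := abs_lt.1 hd1
      exact ⟨by linarith [this.1], this.2.le⟩
    exact hI.out hB hA h5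

end Pool.Agent.PTA
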