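import Pool.Agent.PTA.P_A
import Pool.Agent.PTA.P_A1
import Pool.Agent.PTA.P_FC
import Pool.Agent.PTA.P_FF2
import Pool.Agent.PTA.P_HG
import Pool.Agent.PTA.P_HP
import Pool.Agent.PTA.P_HRL
import Pool.Agent.PTA.P_HW
import Pool.Agent.PTA.P_JD
import Pool.Agent.PTA.P_NZ
import Pool.Agent.PTA.P_PFLC
import Pool.Agent.PTA.P_REL
import Pool.Agent.PTA.P_SEP
import Pool.Agent.PTA.P_SLIDE
import Pool.Agent.PTA.P_STA
import Pool.Agent.PTA.P_STF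
import Pool.Agent.PTA.P_STK
import Pool.Agent.PTA.P_STZ
import Pool.Agent.PTA.P_TAME
import Pool.Agent.PTA.P_WD
import Pool.Agent.PTA.R6
import Pool.Agent.PTP.P_GLU
import Pool.Agent.PTL.All

/-!
# PTA: the main theorem from TE, ET, SUM, CFT, REL2, INTU, TU, CLG, IOC, ULT, ULB, CLS, SFL
-/

set_option autoImplicit false

namespace Pool.Agent.PTA

theorem p_SEP : T_SEP := p_SEP_of p_BODY

theorem p_REL : T_REL := p_REL_of p_NZ p_KKD

theorem p_STK : T_STK := p_STK_of p_SEP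

theorem p_FC : T_FC := p_FC_of p_WD

theorem p_SLF : T_SLF := p_SLF_of p_FC p_INTF

theorem p_STB : T_STB := p_STB_of p_WD

theorem R6_of' (hTE : T_TE) (hET : T_ET) (hSUM : T_SUM) (hCFT : T_CFT) (hREL2 : T_REL2)
    (hINTU : T_INTU) (hTU : T_TU) (hIOC : T_IOC) (hULT : T_ULT) (hULB : T_ULB) (hCLS : T_CLS)
    (hSFL : T_SFL) : T_PFLC ∧ T_R6 := by
  have hFOUR : T_FOUR := p_FOUR_of hULT hTE hSUM hCLS
  have hJD : T_JD := p_JD_of hULT hULB hTE p_LOC p_INTF p_BODY p_SEP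
  have hSLIDE : T_SLIDE :=
    p_SLIDE_of p_FF2 hULT hTE hTU hINTU hIOC p_LOC hFOUR hJD p_DIRF p_INTF p_BODY
  have hA0 : T_A0 := p_A0_of hULT hULB hSLIDE p_SLF
  have hHRL : T_HRL := p_HRL_of hCFT p_REL p_BODY
  have hHW : T_HW := p_HW_of hULT hULB hSLIDE p_SLF hHRL PTP.p_INJ p_WD
  have hHP : T_HP := p_HP_of hHW hHRL p_FC p_WD p_BODY
  have hHG : T_HG := p_HG_of PTP.p_GLU hTE hET p_WD p_INTF
  have hSTZ : T_STZ := p_STZ_of hULT hTE p_INTF hJD p_BODY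
  have hSTF : T_STF := p_STF_of p_STK hSTZ hSLIDE p_SLF hULT hULB hSFL p_WD
  have hA1 : T_A1 := p_A1_of p_STA p_STB hSTF p_STK hTE hET p_WD p_BODY p_INTF
  have hPFLC : T_PFLC := p_PFLC_of hREL2 hTE PTL.p_FLCR hET p_INTF p_BODY
  exact ⟨hPFLC, R6_of hA0 hPFLC hA1 hHW hHP hHG⟩

end Pool.Agent.PTA
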