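import Pool.Agent.PTA.Arcs

/-!
# Graphs of strictly convex functions are strictly convex arcs
-/

set_option autoImplicit false

namespace Pool.Agent.PTA

open Pool.Agent.PTR Filter Topology
open Pool.Agent.PTR.OL (V)

/-- The graph of a strictly convex function. -/
theorem arc_of_strictConvex {a b : ℝ} (hab : a < b) {f : ℝ → ℝ}
    (hc : ContinuousOn f (Set.Icc a b)) (hf : StrictConvexOn ℝ (Set.Icc a b) f) :
    Arc {p : V | p.1 ∈ Set.Icc a b ∧ p.2 = f p.1} := by
  have hm : ∀ t : ℝ, t ∈ Set.Icc (0 : ℝ) 1 → a + (b - a) * t ∈ Set.Icc a b := by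
    intro t ht
    have h1 := mul_nonneg (show (0 : ℝ) ≤ b - a by linarith) ht.1
    have h2 := mul_le_mul_of_nonneg_left ht.2 (show (0 : ℝ) ≤ b - a by linarith)
    exact ⟨by linarith, by linarith⟩
  refine ⟨fun t => (a + (b - a) * t, f (a + (b - a) * t)), 1, one_ne_zero, ?_, ?_, ?_⟩
  · refine ContinuousOn.prodMk (by fun_prop) ?_
    exact hc.comp (by fun_prop) hm
  · intro t₁ t₂ t₃ h1 h2 h3 h4
    have hx : a + (b - a) * t₁ < a + (b - a) * t₂ := by
      have := mul_lt_mul_of_pos_left h2 (show (0 : ℝ) < b - a by linarith)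
      linarith
    have hy : a + (b - a) * t₂ < a + (b - a) * t₃ := by
      have := mul_lt_mul_of_pos_left h3 (show (0 : ℝ) < b - a by linarith)
      linarith
    have hs := hf.slope_strict_mono_adjacent (hm t₁ ⟨h1, by linarith⟩)
      (hm t₃ ⟨by linarith, h4⟩) hx hy
    rw [div_lt_div_iff₀ (by linarith) (by linarith)] at hs
    rw [one_mul]
    simp only [rdet, Prod.fst_sub, Prod.snd_sub]
    linarith
  · ext p
    constructor
    · rintro ⟨⟨h1, h2⟩, h3⟩
      have hpos : (0 : ℝ) < b - a := by linarith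
      refine ⟨(p.1 - a) / (b - a), ⟨div_nonneg (by linarith) hpos.le, ?_⟩, ?_⟩
      · rw [div_le_one hpos]
        linarith
      · have e : a + (b - a) * ((p.1 - a) / (b - a)) = p.1 := by
          rw [mul_div_cancel₀ _ hpos.ne']
          ring
        simp only [e]
        exact Prod.ext rfl h3.symm
    · rintro ⟨t, ht, rfl⟩
      exact ⟨hm t ht, rfl⟩

/-- The image of an arc under an invertible linear map. -/
lemma Arc.map {Γ : Set V} (h : Arc Γ) (φ : V → V) (hφ : Continuous φ) (d : ℝ) (hd : d ≠ 0)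
    (hdet : ∀ x y z : V, rdet (φ y - φ x) (φ z - φ x) = d * rdet (y - x) (z - x)) :
    Arc (φ '' Γ) := by
  obtain ⟨γ, σ, hσ, hc, ht, rfl⟩ := h
  refine ⟨φ ∘ γ, σ / d, div_ne_zero hσ hd, hφ.comp_continuousOn hc, ?_, ?_⟩
  · intro t₁ t₂ t₃ h1 h2 h3 h4
    have := ht t₁ t₂ t₃ h1 h2 h3 h4
    simp only [Function.comp]
    rw [hdet]
    have e : σ / d * (d * rdet (γ t₂ - γ t₁) (γ t₃ - γ t₁)) =
        σ * rdet (γ t₂ - γ t₁) (γ t₃ - γ t₁) := by
      field_simp
    rw [e]
    exact this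
  · rw [Set.image_comp]

/-- The graph of a strictly concave function. -/
theorem arc_of_strictConcave {a b : ℝ} (hab : a < b) {f : ℝ → ℝ}
    (hc : ContinuousOn f (Set.Icc a b)) (hf : StrictConcaveOn ℝ (Set.Icc a b) f) :
    Arc {p : V | p.1 ∈ Set.Icc a b ∧ p.2 = f p.1} := by
  have h := (arc_of_strictConvex hab hc.neg hf.neg).map (fun p => (p.1, -p.2)) (by fun_prop) (-1)
    (by norm_num) (by
      intro x y z
      simp only [rdet, Prod.fst_sub, Prod.snd_sub]
      ring)
  convert h using 1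
  ext p
  constructor
  · rintro ⟨h1, h2⟩
    exact ⟨(p.1, -p.2), ⟨h1, by simp [h2]⟩, by simp⟩
  · rintro ⟨q, ⟨h1, h2⟩, rfl⟩
    exact ⟨h1, by simp [h2]⟩

/-- The reflected arc: graphs over the `y` axis. -/
theorem Arc.swap {Γ : Set V} (h : Arc Γ) : Arc {p : V | (p.2, p.1) ∈ Γ} := by
  have h' := h.map (fun p => (p.2, p.1)) (by fun_prop) (-1) (by norm_num) (by
      intro x y z
      simp only [rdet, Prod.fst_sub, Prod.snd_sub]
      ring)
  convert h' using 1
  ext p
  constructor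
  · intro h1
    exact ⟨(p.2, p.1), h1, rfl⟩
  · rintro ⟨q, h1, rfl⟩
    exact h1

end Pool.Agent.PTA
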