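import Pool.Agent.PTP.P_FF

/-!
# Strictly convex arcs

An arc is strictly convex if all its triples of points have the same orientation.  A finite union
of such arcs is a curve in the sense of `Cur`: every line meets it in a finite set, at every point
there are only finitely many tangent directions, every direction is tangent at finitely many points.
-/

set_option autoImplicit false

namespace Pool.Agent.PTA

open Pool.Agent.PTR Pool.Agent.PTP Filter Topology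
open Pool.Agent.PTR.OL (V ii dif difs FLC InHull)

/-- `w` is not a tangent direction of `K` at `x`. -/
def NT (K : Set V) (x w : V) : Prop :=
  ∃ r > (0 : ℝ), ∀ (s : ℝ) (w' : V), 0 < s → s < r → ‖w' - w‖ < r → x + s • w' ∉ K

/-- Curves without straight pieces. -/
structure Cur (K : Set V) : Prop where
  cl : IsClosed K
  line : ∀ e : V, e ≠ 0 → ∀ c : ℝ, {x | x ∈ K ∧ rdet e x = c}.Finite
  tan : ∀ x : V, ∃ W : Finset V, ∀ w : V, w ≠ 0 → ¬ NT K x w → ∃ w₀ ∈ W, w₀ ≠ 0 ∧ rdet w₀ w = 0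
  fin : ∀ u : V, u ≠ 0 → {x | ¬ NT K x u}.Finite

/-- Strictly convex arcs: all triples of points of a continuous curve have the same orientation. -/
def Arc (Γ : Set V) : Prop := ∃ γ : ℝ → V, ∃ σ : ℝ, σ ≠ 0 ∧ ContinuousOn γ (Set.Icc 0 1) ∧
  (∀ t₁ t₂ t₃ : ℝ, 0 ≤ t₁ → t₁ < t₂ → t₂ < t₃ → t₃ ≤ 1 →
    0 < σ * rdet (γ t₂ - γ t₁) (γ t₃ - γ t₁)) ∧ Γ = γ '' Set.Icc 0 1

/-! ## Unions -/

lemma NT.mono {K K' : Set V} {x w : V} (h : NT K' x w) (hK : K ⊆ K') : NT K x w := by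
  obtain ⟨r, hr, h⟩ := h
  exact ⟨r, hr, fun s w' h1 h2 h3 h4 => h s w' h1 h2 h3 (hK h4)⟩

lemma NT.union {K K' : Set V} {x w : V} (h : NT K x w) (h' : NT K' x w) : NT (K ∪ K') x w := by
  obtain ⟨r, hr, h⟩ := h
  obtain ⟨r', hr', h'⟩ := h'
  refine ⟨min r r', lt_min hr hr', fun s w' h1 h2 h3 h4 => ?_⟩
  rcases h4 with h4 | h4
  · exact h s w' h1 (h2.trans_le (min_le_left _ _)) (h3.trans_le (min_le_left _ _)) h4
  · exact h' s w' h1 (h2.trans_le (min_le_right _ _)) (h3.trans_le (min_le_right _ _)) h4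

lemma Cur.empty : Cur ∅ := by
  refine ⟨isClosed_empty, fun e _ c => ?_, fun x => ⟨∅, fun w _ h => ?_⟩, fun u _ => ?_⟩
  · simp
  · exact absurd ⟨1, one_pos, fun s w' _ _ _ h => h⟩ h
  · have : {x | ¬ NT ∅ x u} = ∅ := by
      ext x
      simp only [Set.mem_ofPred_eq, Set.mem_empty_iff_false, iff_false, not_not]
      exact ⟨1, one_pos, fun s w' _ _ _ h => h⟩
    rw [this]
    exact Set.finite_empty

lemma Cur.union {K K' : Set V} (h : Cur K) (h' : Cur K') : Cur (K ∪ K') := by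
  classical
  refine ⟨h.cl.union h'.cl, fun e he c => ?_, fun x => ?_, fun u hu => ?_⟩
  · refine ((h.line e he c).union (h'.line e he c)).subset ?_
    rintro x ⟨hx | hx, hc⟩
    · exact Or.inl ⟨hx, hc⟩
    · exact Or.inr ⟨hx, hc⟩
  · obtain ⟨W, hW⟩ := h.tan x
    obtain ⟨W', hW'⟩ := h'.tan x
    refine ⟨W ∪ W', fun w hw hn => ?_⟩
    by_cases h1 : NT K x w
    · by_cases h2 : NT K' x w
      · exact absurd (h1.union h2) hn
      · obtain ⟨w₀, h3, h4⟩ := hW' w hw h2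
        exact ⟨w₀, Finset.mem_union_right _ h3, h4⟩
    · obtain ⟨w₀, h3, h4⟩ := hW w hw h1
      exact ⟨w₀, Finset.mem_union_left _ h3, h4⟩
  · refine ((h.fin u hu).union (h'.fin u hu)).subset ?_
    intro x hx
    by_contra hc
    rw [Set.mem_union, not_or] at hc
    simp only [Set.mem_ofPred_eq, not_not] at hc
    exact hx (hc.1.union hc.2)

/-! ## One arc -/

/-- `w` is a tangent direction to the right at `γ t₀`. -/
def RT (γ : ℝ → V) (t₀ : ℝ) (w : V) : Prop := ∀ r > (0 : ℝ), ∃ (s t : ℝ) (w' : V), 0 < s ∧ s < r ∧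
  ‖w' - w‖ < r ∧ t₀ < t ∧ t < t₀ + r ∧ t ≤ 1 ∧ γ t - γ t₀ = s • w'

/-- All triples have the same orientation. -/
def Tr (γ : ℝ → V) (σ : ℝ) : Prop := ∀ t₁ t₂ t₃ : ℝ, 0 ≤ t₁ → t₁ < t₂ → t₂ < t₃ → t₃ ≤ 1 →
    0 < σ * rdet (γ t₂ - γ t₁) (γ t₃ - γ t₁)

lemma rdet_cont : Continuous (fun p : V × V => rdet p.1 p.2) := by
  unfold rdet
  fun_prop

/-- Chords to the right, both to the right. -/
lemma Tr.r2 {γ : ℝ → V} {σ : ℝ} (h : Tr γ σ) {t₀ t t' : ℝ} (h0 : 0 ≤ t₀) (h1 : t₀ < t)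
    (h2 : t < t') (h3 : t' ≤ 1) : 0 < σ * rdet (γ t - γ t₀) (γ t' - γ t₀) :=
  h t₀ t t' h0 h1 h2 h3

/-- A chord to the right and a chord to the left. -/
lemma Tr.rl {γ : ℝ → V} {σ : ℝ} (h : Tr γ σ) {t₀ t t' : ℝ} (h0 : 0 ≤ t') (h1 : t' < t₀)
    (h2 : t₀ < t) (h3 : t ≤ 1) : 0 < σ * rdet (γ t - γ t₀) (γ t' - γ t₀) := by
  have := h t' t₀ t h0 h1 h2 h3
  have e : rdet (γ t₀ - γ t') (γ t - γ t') = rdet (γ t - γ t₀) (γ t' - γ t₀) := by
    simp only [rdet, Prod.fst_sub, Prod.snd_sub]; ring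
  rwa [e] at this

/-- The limit of positive determinants is nonnegative. -/
lemma lim_nonneg {σ : ℝ} {w d : V}
    (h : ∀ r > (0 : ℝ), ∃ w' : V, ‖w' - w‖ < r ∧ 0 < σ * rdet w' d) : 0 ≤ σ * rdet w d := by
  by_contra hc
  rw [not_le] at hc
  have hcont : Continuous (fun w' : V => σ * rdet w' d) :=
    continuous_const.mul (rdet_cont.comp (Continuous.prodMk_left d))
  have hop : IsOpen {w' : V | σ * rdet w' d < 0} := isOpen_lt hcont continuous_const
  obtain ⟨r, hr, hb⟩ := Metric.isOpen_iff.1 hop w hc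
  obtain ⟨w', h1, h2⟩ := h r hr
  have := hb (show w' ∈ Metric.ball w r by rwa [Metric.mem_ball, dist_eq_norm])
  exact absurd h2 (not_lt.2 (le_of_lt this))

lemma pos_of_smul {σ s : ℝ} (hs : 0 < s) {a b : V} (h : 0 < σ * rdet (s • a) b) :
    0 < σ * rdet a b := by
  rw [rdet_smul_l, ← mul_assoc, mul_comm σ s, mul_assoc] at h
  exact pos_of_mul_pos_right h hs.le

lemma RT.right {γ : ℝ → V} {σ : ℝ} (h : Tr γ σ) {t₀ : ℝ} {w : V} (h0 : 0 ≤ t₀)
    (hw : RT γ t₀ w) {t : ℝ} (h1 : t₀ < t) (h2 : t ≤ 1) : 0 ≤ σ * rdet w (γ t - γ t₀) := by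
  apply lim_nonneg
  intro r hr
  obtain ⟨s, t', w', k1, k2, k3, k4, k5, k6, k7⟩ := hw (min r (t - t₀)) (lt_min hr (by linarith))
  have k8 : t' < t := by
    have := k5.trans_le (add_le_add_right (min_le_right r (t - t₀)) t₀)
    linarith
  have := h.r2 h0 k4 k8 h2
  rw [k7] at this
  exact ⟨w', k3.trans_le (min_le_left _ _), pos_of_smul k1 this⟩

lemma RT.left {γ : ℝ → V} {σ : ℝ} (h : Tr γ σ) {t₀ : ℝ} {w : V}
    (hw : RT γ t₀ w) {t : ℝ} (h0 : 0 ≤ t) (h1 : t < t₀) : 0 ≤ σ * rdet w (γ t - γ t₀) := by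
  apply lim_nonneg
  intro r hr
  obtain ⟨s, t', w', k1, k2, k3, k4, k5, k6, k7⟩ := hw r hr
  have := h.rl h0 h1 k4 k6
  rw [k7] at this
  exact ⟨w', k3, pos_of_smul k1 this⟩

lemma RT.right' {γ : ℝ → V} {σ : ℝ} (h : Tr γ σ) {t₀ : ℝ} {w : V} (h0 : 0 ≤ t₀) (hw0 : w ≠ 0)
    (hw : RT γ t₀ w) {t : ℝ} (h1 : t₀ < t) (h2 : t < 1) : 0 < σ * rdet w (γ t - γ t₀) := by
  rcases eq_or_lt_of_le (hw.right h h0 h1 h2.le) with h3 | h3
  · exfalso
    have hσ : σ ≠ 0 := by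
      rintro rfl
      have := h.r2 h0 h1 h2 le_rfl
      rw [zero_mul] at this
      exact lt_irrefl _ this
    have h4 : rdet w (γ t - γ t₀) = 0 := by
      rcases mul_eq_zero.1 h3.symm with h5 | h5
      · exact absurd h5 hσ
      · exact h5
    obtain ⟨c, hc⟩ := par_of hw0 h4
    have k1 := h.r2 h0 h1 h2 le_rfl
    have k2 := h.r2 h0 (show t₀ < (t₀ + t) / 2 by linarith) (show (t₀ + t) / 2 < t by linarith)
      h2.le
    have k3 := hw.right h h0 (h1.trans h2) le_rfl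
    have k4 := hw.right h h0 (show t₀ < (t₀ + t) / 2 by linarith) (by linarith)
    rw [hc, rdet_smul_l] at k1
    rw [hc, rdet_smul_r, rdet_swap] at k2
    have k1' : 0 < c * (σ * rdet w (γ 1 - γ t₀)) := by linarith
    have k2' : 0 < -c * (σ * rdet w (γ ((t₀ + t) / 2) - γ t₀)) := by linarith
    rcases lt_trichotomy c 0 with h5 | h5 | h5
    · have := mul_nonpos_of_nonpos_of_nonneg h5.le k3
      linarith
    · rw [h5, zero_mul] at k1'
      exact lt_irrefl _ k1'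
    · have := mul_nonpos_of_nonpos_of_nonneg (show -c ≤ 0 by linarith) k4
      linarith
  · exact h3

/-- The tangent direction to the right is unique. -/
lemma RT.uniq {γ : ℝ → V} {σ : ℝ} (h : Tr γ σ) {t₀ : ℝ} {w w' : V} (h0 : 0 ≤ t₀)
    (hw : RT γ t₀ w) (hw' : RT γ t₀ w') : σ * rdet w w' ≤ 0 := by
  by_contra hc
  rw [not_le] at hc
  have hcont : Continuous (fun p : V × V => σ * rdet p.1 p.2) := continuous_const.mul rdet_cont
  have hop : IsOpen {p : V × V | 0 < σ * rdet p.1 p.2} := isOpen_lt continuous_const hcont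
  obtain ⟨r, hr, hb⟩ := Metric.isOpen_iff.1 hop (w, w') hc
  obtain ⟨s, t, a, k1, k2, k3, k4, k5, k6, k7⟩ := hw r hr
  obtain ⟨s', t', b, l1, l2, l3, l4, l5, l6, l7⟩ := hw' (min r (t - t₀)) (lt_min hr (by linarith))
  have l8 : t' < t := by
    have := l5.trans_le (add_le_add_right (min_le_right r (t - t₀)) t₀)
    linarith
  have h1 : 0 < σ * rdet a b := hb (show (a, b) ∈ Metric.ball (w, w') r by
    rw [Metric.mem_ball, Prod.dist_eq, dist_eq_norm, dist_eq_norm]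
    exact max_lt k3 (l3.trans_le (min_le_left _ _)))
  have h2 := h.r2 h0 l4 l8 k6
  rw [l7, k7] at h2
  have h3 := pos_of_smul l1 h2
  rw [rdet_smul_r, rdet_swap] at h3
  have h4 : 0 < s * -(σ * rdet a b) := by linarith
  have := pos_of_mul_pos_right h4 k1.le
  linarith

/-- Every direction is the tangent to the right at one point only. -/
lemma RT.once {γ : ℝ → V} {σ : ℝ} (h : Tr γ σ) {t₀ t₁ : ℝ} {w : V} (h0 : 0 ≤ t₀) (hw0 : w ≠ 0)
    (hw : RT γ t₀ w) (hw' : RT γ t₁ w) (hlt : t₀ < t₁) : False := by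
  obtain ⟨s, t, a, k1, k2, k3, k4, k5, k6, k7⟩ := hw' 1 one_pos
  have h1 := hw.right' h h0 hw0 hlt (by linarith)
  have h2 := hw'.left h h0 hlt
  have e : rdet w (γ t₀ - γ t₁) = - rdet w (γ t₁ - γ t₀) := by
    simp only [rdet, Prod.fst_sub, Prod.snd_sub]; ring
  rw [e] at h2
  linarith

/-- The reversed arc. -/
lemma Tr.rev {γ : ℝ → V} {σ : ℝ} (h : Tr γ σ) : Tr (fun t => γ (1 - t)) (-σ) := by
  intro t₁ t₂ t₃ h1 h2 h3 h4
  have := h (1 - t₃) (1 - t₂) (1 - t₁) (by linarith) (by linarith) (by linarith) (by linarith)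
  have e : rdet (γ (1 - t₂) - γ (1 - t₃)) (γ (1 - t₁) - γ (1 - t₃)) =
      - rdet (γ (1 - t₂) - γ (1 - t₁)) (γ (1 - t₃) - γ (1 - t₁)) := by
    simp only [rdet, Prod.fst_sub, Prod.snd_sub]; ring
  rw [e] at this
  change 0 < -σ * rdet (γ (1 - t₂) - γ (1 - t₁)) (γ (1 - t₃) - γ (1 - t₁))
  linarith

lemma Tr.inj {γ : ℝ → V} {σ : ℝ} (h : Tr γ σ) : Set.InjOn γ (Set.Icc 0 1) := by
  have key : ∀ a b : ℝ, 0 ≤ a → a < b → b ≤ 1 → γ a ≠ γ b := by
    intro a b ha hab hb he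
    have := h a ((a + b) / 2) b ha (by linarith) (by linarith) hb
    rw [← he] at this
    simp only [sub_self, rdet, Prod.fst_zero, Prod.snd_zero, mul_zero, lt_self_iff_false] at this
  intro a ha b hb he
  rcases lt_trichotomy a b with h1 | h1 | h1
  · exact absurd he (key a b ha.1 h1 hb.2)
  · exact h1
  · exact absurd he.symm (key b a hb.1 h1 ha.2)

/-- A tangent direction is a tangent direction to the right or to the left. -/
lemma NT.of_not {γ : ℝ → V} (hc : ContinuousOn γ (Set.Icc 0 1)) (hi : Set.InjOn γ (Set.Icc 0 1))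
    {t₀ : ℝ} (ht₀ : t₀ ∈ Set.Icc (0 : ℝ) 1) {w : V} (hw : w ≠ 0)
    (h : ¬ NT (γ '' Set.Icc 0 1) (γ t₀) w) : RT γ t₀ w ∨ RT (fun t => γ (1 - t)) (1 - t₀) w := by
  by_contra hcon
  rw [not_or] at hcon
  obtain ⟨h1, h2⟩ := hcon
  unfold RT at h1 h2
  push Not at h1 h2
  obtain ⟨r1, hr1, g1⟩ := h1
  obtain ⟨r2, hr2, g2⟩ := h2
  set δ := min r1 r2 with hδ
  have hδ0 : 0 < δ := lt_min hr1 hr2
  -- compactness
  obtain ⟨ρ, hρ, hcomp⟩ : ∃ ρ > (0 : ℝ), ∀ t ∈ Set.Icc (0 : ℝ) 1, ‖γ t - γ t₀‖ < ρ →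
      |t - t₀| < δ := by
    set A : Set ℝ := Set.Icc 0 1 ∩ {t | δ ≤ |t - t₀|} with hA
    have hAc : IsCompact A := isCompact_Icc.inter_right
      (isClosed_le continuous_const (by fun_prop))
    have hI : IsClosed (γ '' A) :=
      (hAc.image_of_continuousOn (hc.mono Set.inter_subset_left)).isClosed
    have hn : γ t₀ ∉ γ '' A := by
      rintro ⟨t, ⟨ht1, ht2⟩, ht3⟩
      have := hi ht1 ht₀ ht3
      rw [this, Set.mem_ofPred_eq, sub_self, abs_zero] at ht2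
      linarith
    obtain ⟨ρ, hρ, hb⟩ := Metric.isOpen_iff.1 hI.isOpen_compl (γ t₀) hn
    refine ⟨ρ, hρ, fun t ht hlt => ?_⟩
    by_contra hc'
    exact hb (show γ t ∈ Metric.ball (γ t₀) ρ by rwa [Metric.mem_ball, dist_eq_norm])
      ⟨t, ⟨ht, not_lt.1 hc'⟩, rfl⟩
  apply h
  have hw0 : 0 < ‖w‖ := norm_pos_iff.2 hw
  set r := min (min δ ‖w‖) (min 1 (ρ / (‖w‖ + 1))) with hr
  have hr0 : 0 < r := by
    refine lt_min (lt_min hδ0 hw0) (lt_min one_pos (by positivity))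
  have e1 : r ≤ δ := (min_le_left _ _).trans (min_le_left _ _)
  have e2 : r ≤ ‖w‖ := (min_le_left _ _).trans (min_le_right _ _)
  have e3 : r ≤ 1 := (min_le_right _ _).trans (min_le_left _ _)
  have e4 : r ≤ ρ / (‖w‖ + 1) := (min_le_right _ _).trans (min_le_right _ _)
  refine ⟨r, hr0, fun s w' hs hsr hw' hmem => ?_⟩
  obtain ⟨t, ht, hte⟩ := hmem
  have hd : γ t - γ t₀ = s • w' := by rw [hte, add_sub_cancel_left]
  have hw'1 : ‖w'‖ < ‖w‖ + 1 := by
    have : ‖w'‖ ≤ ‖w' - w‖ + ‖w‖ := by simpa using norm_add_le (w' - w) w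
    linarith
  have hw'0 : w' ≠ 0 := by
    rintro rfl
    rw [zero_sub, norm_neg] at hw'
    linarith
  have hn : ‖γ t - γ t₀‖ < ρ := by
    rw [hd, norm_smul, Real.norm_eq_abs, abs_of_pos hs]
    calc s * ‖w'‖ ≤ s * (‖w‖ + 1) := by
          exact mul_le_mul_of_nonneg_left hw'1.le hs.le
      _ < ρ / (‖w‖ + 1) * (‖w‖ + 1) := by
          exact mul_lt_mul_of_pos_right (hsr.trans_le e4) (by linarith)
      _ = ρ := by field_simp
  have habs := hcomp t ht hn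
  have hne : t ≠ t₀ := by
    rintro rfl
    rw [sub_self] at hd
    rcases smul_eq_zero.1 hd.symm with h3 | h3
    · exact hs.ne' h3
    · exact hw'0 h3
  rw [abs_lt] at habs
  have d1 : δ ≤ r1 := min_le_left _ _
  have d2 : δ ≤ r2 := min_le_right _ _
  rcases lt_or_gt_of_ne hne with h3 | h3
  · refine g2 s (1 - t) w' hs (by linarith) (by linarith) (by linarith) (by linarith)
      (by linarith [ht.1]) ?_
    simp only [sub_sub_cancel]
    exact hd
  · exact g1 s t w' hs (by linarith) (by linarith) h3 (by linarith) ht.2 hd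

/-- A set of reals without three elements is finite. -/
lemma fin_of_three (S : Set ℝ) (h : ∀ a ∈ S, ∀ b ∈ S, ∀ c ∈ S, a < b → b < c → False) :
    S.Finite := by
  by_contra hinf
  obtain ⟨t, ht, hcard⟩ := Set.Infinite.exists_subset_card_eq hinf 3
  have h0 := Finset.orderEmbOfFin_mem t hcard
  have hm := (Finset.orderEmbOfFin t hcard).strictMono
  exact h _ (ht (h0 0)) _ (ht (h0 1)) _ (ht (h0 2)) (hm (by decide)) (hm (by decide))

theorem Arc.cur {Γ : Set V} (h : Arc Γ) : Cur Γ := by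
  classical
  obtain ⟨γ, σ, hσ, hc, htr, rfl⟩ := h
  have hT : Tr γ σ := htr
  have hi := hT.inj
  have hcomp : IsCompact (γ '' Set.Icc 0 1) := isCompact_Icc.image_of_continuousOn hc
  have hout : ∀ x w, x ∉ γ '' Set.Icc 0 1 → NT (γ '' Set.Icc 0 1) x w := by
    intro x w hx
    obtain ⟨ρ, hρ, hb⟩ := Metric.isOpen_iff.1 hcomp.isClosed.isOpen_compl x hx
    refine ⟨min 1 (ρ / (‖w‖ + 1)), lt_min one_pos (by positivity), fun s w' h1 h2 h3 h4 => ?_⟩
    refine hb (show x + s • w' ∈ Metric.ball x ρ from ?_) h4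
    rw [Metric.mem_ball, dist_eq_norm, add_sub_cancel_left, norm_smul, Real.norm_eq_abs,
      abs_of_pos h1]
    have hw'1 : ‖w'‖ < ‖w‖ + 1 := by
      have : ‖w'‖ ≤ ‖w' - w‖ + ‖w‖ := by simpa using norm_add_le (w' - w) w
      have := h3.trans_le (min_le_left _ _)
      linarith
    calc s * ‖w'‖ ≤ s * (‖w‖ + 1) := mul_le_mul_of_nonneg_left hw'1.le h1.le
      _ < ρ / (‖w‖ + 1) * (‖w‖ + 1) :=
          mul_lt_mul_of_pos_right (h2.trans_le (min_le_right _ _)) (by positivity)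
      _ = ρ := by field_simp
  refine ⟨hcomp.isClosed, fun e he c => ?_, fun x => ?_, fun u hu => ?_⟩
  · have hS : {t | t ∈ Set.Icc (0 : ℝ) 1 ∧ rdet e (γ t) = c}.Finite := by
      apply fin_of_three
      rintro t1 ⟨h1, g1⟩ t2 ⟨h2, g2⟩ t3 ⟨h3, g3⟩ h12 h23
      have := hT t1 t2 t3 h1.1 h12 h23 h3.2
      obtain ⟨a, ha⟩ := par_of he (show rdet e (γ t2 - γ t1) = 0 by rw [rdet_sub]; linarith)
      obtain ⟨b, hb⟩ := par_of he (show rdet e (γ t3 - γ t1) = 0 by rw [rdet_sub]; linarith)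
      rw [ha, hb, rdet_smul_l, rdet_smul_r, rdet_self] at this
      simp at this
    refine (hS.image γ).subset ?_
    rintro x ⟨⟨t, ht, rfl⟩, hx⟩
    exact ⟨t, ⟨ht, hx⟩, rfl⟩
  · by_cases hx : x ∈ γ '' Set.Icc 0 1
    · obtain ⟨t₀, ht₀, rfl⟩ := hx
      have one : ∀ (γ : ℝ → V) (σ : ℝ) (t₀ : ℝ), σ ≠ 0 → 0 ≤ t₀ → Tr γ σ →
          ∃ W : Finset V, ∀ w, w ≠ 0 → RT γ t₀ w → ∃ w₀ ∈ W, w₀ ≠ 0 ∧ rdet w₀ w = 0 := by
        intro γ σ t₀ hσ ht hT
        by_cases hex : ∃ w₀, w₀ ≠ 0 ∧ RT γ t₀ w₀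
        · obtain ⟨w₀, hw0, hR⟩ := hex
          refine ⟨{w₀}, fun w hw hRw => ⟨w₀, Finset.mem_singleton_self _, hw0, ?_⟩⟩
          have k1 := hR.uniq hT ht hRw
          have k2 := hRw.uniq hT ht hR
          rw [rdet_swap] at k2
          have k3 : σ * rdet w₀ w = 0 := by linarith
          exact (mul_eq_zero.1 k3).resolve_left hσ
        · refine ⟨∅, fun w hw hRw => absurd ⟨w, hw, hRw⟩ hex⟩
      obtain ⟨W, hW⟩ := one γ σ t₀ hσ ht₀.1 hT
      obtain ⟨W', hW'⟩ := one (fun t => γ (1 - t)) (-σ) (1 - t₀) (neg_ne_zero.2 hσ)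
        (by linarith [ht₀.2]) hT.rev
      refine ⟨W ∪ W', fun w hw hn => ?_⟩
      rcases NT.of_not hc hi ht₀ hw hn with h1 | h1
      · obtain ⟨w₀, k1, k2⟩ := hW w hw h1
        exact ⟨w₀, Finset.mem_union_left _ k1, k2⟩
      · obtain ⟨w₀, k1, k2⟩ := hW' w hw h1
        exact ⟨w₀, Finset.mem_union_right _ k1, k2⟩
    · exact ⟨∅, fun w _ hn => absurd (hout x w hx) hn⟩
  · have one : ∀ (γ : ℝ → V) (σ : ℝ), Tr γ σ → {t | 0 ≤ t ∧ RT γ t u}.Finite := by
      intro γ σ hT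
      apply fin_of_three
      rintro t1 ⟨h1, g1⟩ t2 ⟨h2, g2⟩ t3 - h12 -
      exact g1.once hT h1 hu g2 h12
    refine (((one γ σ hT).image γ).union
      (((one (fun t => γ (1 - t)) (-σ) hT.rev)).image (fun t => γ (1 - t)))).subset ?_
    intro x hx
    by_cases hxm : x ∈ γ '' Set.Icc 0 1
    · obtain ⟨t₀, ht₀, rfl⟩ := hxm
      rcases NT.of_not hc hi ht₀ hu hx with h1 | h1
      · exact Or.inl ⟨t₀, ⟨ht₀.1, h1⟩, rfl⟩
      · exact Or.inr ⟨1 - t₀, ⟨by linarith [ht₀.2], h1⟩, by simp⟩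
    · exact absurd (hout x u hxm) hx

/-- A finite union of strictly convex arcs. -/
theorem cur_biUnion (F : Set (Set V)) (hF : F.Finite) (h : ∀ Γ ∈ F, Arc Γ) : Cur (⋃₀ F) := by
  induction F, hF using Set.Finite.induction_on with
  | empty => rw [Set.sUnion_empty]; exact Cur.empty
  | @insert a s ha hs ih =>
    rw [Set.sUnion_insert]
    exact (h a (Set.mem_insert _ _)).cur.union (ih fun Γ hΓ => h Γ (Set.mem_insert_of_mem _ hΓ))

end Pool.Agent.PTA
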