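import Pool.Agent.PTA.P_TAME
import Pool.Agent.PTA.Targets
import Pool.Agent.PTP.Final

/-!
# Bodies with a piecewise convex boundary: the final statements from the targets
-/

set_option autoImplicit false

namespace Pool.Agent.PTA

open Pool.Agent.PTR Filter Topology
open Pool.Agent.PTR.OL (V ii dif difs FLC InHull)
open Pool.Agent.PTP (Til TDP Iv)

/-- A body whose boundary is contained in the union of finitely many lines
`{x | rdet p.1 x = p.2}` and of finitely many strictly convex arcs. -/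
structure PConv (C : Set (ℝ × ℝ)) : Prop where
  body : PSQ.IsBody C
  bd : ∃ (F : Set (Set (ℝ × ℝ))) (L : Finset ((ℝ × ℝ) × ℝ)), F.Finite ∧ (∀ Γ ∈ F, Arc Γ) ∧
    (∀ p ∈ L, p.1 ≠ 0) ∧ ∀ x ∈ frontier C, (∃ Γ ∈ F, x ∈ Γ) ∨ ∃ p ∈ L, rdet p.1 x = p.2

/-- A body which tiles the plane is not empty. -/
lemma tiling_ne {C T : Set V} (h1 : closure (interior C) = C) (h : PSQ.Tiling C T) :
    (interior C).Nonempty := by
  rw [Set.nonempty_iff_ne_empty]
  intro h2
  rw [h2, closure_empty] at h1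
  have h3 : (0 : V) ∈ ⋃ t ∈ T, PSQ.tr C t := by rw [h.2]; exact Set.mem_univ _
  simp only [Set.mem_iUnion, exists_prop] at h3
  obtain ⟨t, -, hz⟩ := h3
  rw [PTP.mem_tr, ← h1] at hz
  exact hz

lemma PConv.tame {C : Set V} (hC : PConv C) (h : (interior C).Nonempty) : Tame C := by
  obtain ⟨⟨h1, h2⟩, F, L, hF, hA, hL, hb⟩ := hC
  refine tame_of_arcs h1 h2 h F hF hA L hL fun x hx => ?_
  rcases hb x hx with ⟨Γ, h3, h4⟩ | h3
  · exact Or.inl ⟨Γ, h3, h4⟩
  · exact Or.inr h3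

/-- Final statement, piecewise convex bodies. -/
theorem final_R8 (hR6 : T_R6) (C : Set V) (hC : PConv C)
    (h : (∀ e, Dir C e → Iv C e) ∨ IsPreconnected C) (hT : ∃ T, PSQ.Tiling C T) :
    ∃ T, PSQ.Tiling C T ∧ PSQ.Periodic T := by
  obtain ⟨T, hT⟩ := hT
  have h1 := tiling_ne hC.body.2 hT
  refine PTP.tdp_periodic (hR6 C (hC.tame h1) ?_ ⟨T, (PTP.til_iff _ T).1 hT⟩)
  rcases h with h | h
  · exact h
  · exact fun e he => PTP.iv_of_conn hC.body.2.symm.subset h he.1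

/-- Final statement, finite local complexity. -/
theorem final_R5 (hPFLC : T_PFLC) (C : Set V) (hC : PConv C) (T : Set V)
    (hT : PSQ.Tiling C T)
    (hF : ∀ R : ℝ, {d : ℝ × ℝ | ‖d‖ ≤ R ∧ ∃ t ∈ T, t + d ∈ T}.Finite) :
    ∃ T', PSQ.Tiling C T' ∧ PSQ.Periodic T' :=
  PTP.tdp_periodic (hPFLC C (hC.tame (tiling_ne hC.body.2 hT)) T ((PTP.til_iff _ T).1 hT) hF)

end Pool.Agent.PTA
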