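import Pool.Agent.PTA.PWLoc

/-!
# Flags of piecewise convex bodies
-/

set_option autoImplicit false

namespace Pool.Agent.PTA

open Pool.Agent.PTR Pool.Agent.PTP Filter Topology
open Pool.Agent.PTR.OL (V ii dif difs FLC InHull)

/-- Inner flag: the points `x + s u + η v` with `0 < η ≪ s ≪ 1` are in the interior of `C`. -/
def Fli (C : Set V) (u v : V) : Set V :=
  {x | ∀ᶠ s in 𝓝[>] (0 : ℝ), ∀ᶠ η in 𝓝[>] (0 : ℝ), x + s • u + η • v ∈ interior C}

/-- Outer flag: the points `x + s (u + ε v)` with `0 < s ≪ ε ≪ 1` are in the interior of `C`. -/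
def Flo (C : Set V) (u v : V) : Set V :=
  {x | ∀ᶠ ε in 𝓝[>] (0 : ℝ), ∀ᶠ s in 𝓝[>] (0 : ℝ), x + s • (u + ε • v) ∈ interior C}

lemma half_l {r r' : ℝ} (h : 0 < min r r') : min r r' / 2 < r :=
  lt_of_lt_of_le (by linarith) (min_le_left r r')

lemma half_r {r r' : ℝ} (h : 0 < min r r') : min r r' / 2 < r' :=
  lt_of_lt_of_le (by linarith) (min_le_right r r')

/-! ## Inner flags -/

lemma InS.ev {C : Set V} {x u v : V} {s : ℝ} (huv : rdet u v ≠ 0) (h : InS C x u v s) {m : ℝ}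
    (hm : 0 < m) (k : ℝ) :
    ∀ᶠ η in 𝓝[>] (0 : ℝ), x + s • u + η • (m • v + k • u) ∈ interior C := by
  obtain ⟨ρ, hρ, h⟩ := h
  filter_upwards [HB.mem_ev huv s hρ hm k] with η hη
  exact h _ hη

lemma OutS.ev {C : Set V} {x u v : V} {s : ℝ} (huv : rdet u v ≠ 0) (h : OutS C x u v s) {m : ℝ}
    (hm : 0 < m) (k : ℝ) :
    ∀ᶠ η in 𝓝[>] (0 : ℝ), x + s • u + η • (m • v + k • u) ∉ C := by
  obtain ⟨ρ, hρ, h⟩ := h
  filter_upwards [HB.mem_ev huv s hρ hm k] with η hη
  exact h _ hη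

/-- The dichotomy for inner flags. -/
lemma PWL.inner {C K : Set V} {L : Finset (V × ℝ)} (h : PWL C K L) (x : V) {u v : V}
    (huv : rdet u v ≠ 0) :
    (x ∈ Fli C u v ∧ ∃ r > (0 : ℝ), ∀ s, 0 < s → s < r → InS C x u v s) ∨
      (x ∉ Fli C u v ∧ ∃ r > (0 : ℝ), ∀ s, 0 < s → s < r → OutS C x u v s) := by
  obtain ⟨r, hr, hg⟩ := ev_iff_Ioo.1 (h.goodS x huv)
  rcases sideS huv hg with h1 | h1
  · left
    refine ⟨?_, r, hr, h1⟩
    refine ev_iff_Ioo.2 ⟨r, hr, fun s a b => ?_⟩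
    have := (h1 s a b).ev huv one_pos 0
    simpa using this
  · right
    refine ⟨fun hx => ?_, r, hr, h1⟩
    obtain ⟨r', hr', h2⟩ := ev_iff_Ioo.1 hx
    have h0 : 0 < min r r' := lt_min hr hr'
    have h3 := h1 (min r r' / 2) (by positivity)
      (half_l h0)
    have h4 := h2 (min r r' / 2) (by positivity)
      (half_r h0)
    have h5 := h3.ev huv one_pos 0
    simp only [one_smul, zero_smul, add_zero] at h5
    obtain ⟨η, h6, h7⟩ := (h4.and h5).exists
    exact h7 (interior_subset h6)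

lemma PWL.din {C K : Set V} {L : Finset (V × ℝ)} (h : PWL C K L) {u v x : V}
    (huv : rdet u v ≠ 0) (hx : x ∉ Fli C u v) :
    ∀ᶠ s in 𝓝[>] (0 : ℝ), ∀ᶠ η in 𝓝[>] (0 : ℝ), x + s • u + η • v ∉ C := by
  rcases h.inner x huv with ⟨h1, -⟩ | ⟨-, r, hr, h1⟩
  · exact absurd h1 hx
  · refine ev_iff_Ioo.2 ⟨r, hr, fun s a b => ?_⟩
    have := (h1 s a b).ev huv one_pos 0
    simpa using this

/-- The half ball at `x + s u`, seen from the point `x + s₀ u`. -/
lemma HB_shift (x u v : V) (s₀ s ρ : ℝ) : HB (x + s₀ • u) u v s ρ = HB x u v (s₀ + s) ρ := by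
  ext y
  have e1 : y - (x + s₀ • u + s • u) = y - (x + (s₀ + s) • u) := by module
  have e2 : rdet u (y - (x + s₀ • u)) = rdet u (y - x) := by
    simp only [rdet, Prod.fst_sub, Prod.snd_sub, Prod.fst_add, Prod.snd_add, Prod.smul_fst,
      Prod.smul_snd, smul_eq_mul]
    ring
  simp only [HB, Set.mem_ofPred_eq]
  rw [e1, e2]

lemma HB_back (x u v : V) (s₀ s ρ : ℝ) : HB (x + s₀ • u) (-u) v s ρ = HB x u v (s₀ - s) ρ := by
  ext y
  have e1 : y - (x + s₀ • u + s • (-u)) = y - (x + (s₀ - s) • u) := by module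
  have e2 : rdet (-u) v * rdet (-u) (y - (x + s₀ • u)) = rdet u v * rdet u (y - x) := by
    simp only [rdet, Prod.fst_sub, Prod.snd_sub, Prod.fst_add, Prod.snd_add, Prod.smul_fst,
      Prod.smul_snd, smul_eq_mul, Prod.fst_neg, Prod.snd_neg]
    ring
  simp only [HB, Set.mem_ofPred_eq]
  rw [e1, e2]

lemma InS.shift {C : Set V} {x u v : V} {s₀ s : ℝ} :
    InS C (x + s₀ • u) u v s ↔ InS C x u v (s₀ + s) := by
  unfold InS
  simp only [HB_shift]

lemma OutS.shift {C : Set V} {x u v : V} {s₀ s : ℝ} :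
    OutS C (x + s₀ • u) u v s ↔ OutS C x u v (s₀ + s) := by
  unfold OutS
  simp only [HB_shift]

lemma InS.back {C : Set V} {x u v : V} {s₀ s : ℝ} :
    InS C (x + s₀ • u) (-u) v s ↔ InS C x u v (s₀ - s) := by
  unfold InS
  simp only [HB_back]

lemma OutS.back {C : Set V} {x u v : V} {s₀ s : ℝ} :
    OutS C (x + s₀ • u) (-u) v s ↔ OutS C x u v (s₀ - s) := by
  unfold OutS
  simp only [HB_back]

lemma mem_Fli_of {C : Set V} {x u v : V} (huv : rdet u v ≠ 0) {r : ℝ} (hr : 0 < r)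
    (h : ∀ s, 0 < s → s < r → InS C x u v s) : x ∈ Fli C u v := by
  refine ev_iff_Ioo.2 ⟨r, hr, fun s a b => ?_⟩
  have := (h s a b).ev huv one_pos 0
  simpa using this

lemma notMem_Fli_of {C : Set V} {x u v : V} (huv : rdet u v ≠ 0) {r : ℝ} (hr : 0 < r)
    (h : ∀ s, 0 < s → s < r → OutS C x u v s) : x ∉ Fli C u v := by
  intro hx
  obtain ⟨r', hr', h2⟩ := ev_iff_Ioo.1 hx
  have h0 : 0 < min r r' := lt_min hr hr'
  have h3 := h (min r r' / 2) (by positivity) (half_l h0)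
  have h4 := h2 (min r r' / 2) (by positivity) (half_r h0)
  have h5 := h3.ev huv one_pos 0
  simp only [one_smul, zero_smul, add_zero] at h5
  obtain ⟨η, h6, h7⟩ := (h4.and h5).exists
  exact h7 (interior_subset h6)

lemma PWL.loc {C K : Set V} {L : Finset (V × ℝ)} (h : PWL C K L) {u v : V} (x : V)
    (huv : rdet u v ≠ 0) : ∀ᶠ s in 𝓝[>] (0 : ℝ),
    (x + s • u ∈ Fli C u v ↔ x ∈ Fli C u v) ∧ (x + s • u ∈ Fli C (-u) v ↔ x ∈ Fli C u v) := by
  have huv' : rdet (-u) v ≠ 0 := by rw [rdet_neg_l]; exact neg_ne_zero.2 huv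
  rcases h.inner x huv with ⟨h1, r, hr, h2⟩ | ⟨h1, r, hr, h2⟩
  · refine ev_iff_Ioo.2 ⟨r, hr, fun s a b => ⟨?_, ?_⟩⟩
    · refine iff_of_true (mem_Fli_of huv (r := r - s) (by linarith) fun s' c d => ?_) h1
      exact InS.shift.2 (h2 _ (by linarith) (by linarith))
    · refine iff_of_true (mem_Fli_of huv' a fun s' c d => ?_) h1
      exact InS.back.2 (h2 _ (by linarith) (by linarith))
  · refine ev_iff_Ioo.2 ⟨r, hr, fun s a b => ⟨?_, ?_⟩⟩
    · refine iff_of_false (notMem_Fli_of huv (r := r - s) (by linarith) fun s' c d => ?_) h1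
      exact OutS.shift.2 (h2 _ (by linarith) (by linarith))
    · refine iff_of_false (notMem_Fli_of huv' a fun s' c d => ?_) h1
      exact OutS.back.2 (h2 _ (by linarith) (by linarith))

lemma PWL.scal {C K : Set V} {L : Finset (V × ℝ)} (h : PWL C K L) (u v : V) (l m k : ℝ)
    (hl : 0 < l) (hm : 0 < m) (huv : rdet u v ≠ 0) :
    Fli C (l • u) (m • v + k • u) = Fli C u v := by
  ext x
  have e : ∀ s η : ℝ, x + s • l • u + η • (m • v + k • u) =
      x + (s * l) • u + η • (m • v + k • u) := by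
    intro s η; rw [smul_smul]
  rcases h.inner x huv with ⟨h1, r, hr, h2⟩ | ⟨h1, r, hr, h2⟩
  · refine iff_of_true ?_ h1
    refine ev_iff_Ioo.2 ⟨r / l, by positivity, fun s a b => ?_⟩
    have hb : s * l < r := (lt_div_iff₀ hl).1 b
    have := (h2 (s * l) (by positivity) hb).ev huv hm k
    simp only [e]
    exact this
  · refine iff_of_false ?_ h1
    intro hx
    obtain ⟨r', hr', h3⟩ := ev_iff_Ioo.1 hx
    have h0 : 0 < min (r / l) r' := lt_min (by positivity) hr'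
    set s := min (r / l) r' / 2 with hs
    have hs0 : 0 < s := by positivity
    have hb : s * l < r := (lt_div_iff₀ hl).1 (half_l h0)
    have h4 := (h2 (s * l) (by positivity) hb).ev huv hm k
    have h5 := h3 s hs0 (lt_of_lt_of_le (by linarith) (min_le_right (r / l) r'))
    simp only [e] at h5
    obtain ⟨η, h6, h7⟩ := (h5.and h4).exists
    exact h7 (interior_subset h6)

/-! ## Outer flags -/

lemma InC.ev {C : Set V} {x w : V} (h : InC C x w) :
    ∀ᶠ s in 𝓝[>] (0 : ℝ), x + s • w ∈ interior C := by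
  obtain ⟨r, hr, h⟩ := h
  exact ev_iff_Ioo.2 ⟨r, hr, fun s a b => h s w a b (by rwa [sub_self, norm_zero])⟩

lemma OutC.ev {C : Set V} {x w : V} (h : OutC C x w) :
    ∀ᶠ s in 𝓝[>] (0 : ℝ), x + s • w ∉ C := by
  obtain ⟨r, hr, h⟩ := h
  exact ev_iff_Ioo.2 ⟨r, hr, fun s a b => h s w a b (by rwa [sub_self, norm_zero])⟩

lemma PWL.outer {C K : Set V} {L : Finset (V × ℝ)} (h : PWL C K L) (x : V) {u v : V}
    (huv : rdet u v ≠ 0) :
    (x ∈ Flo C u v ∧ ∃ r > (0 : ℝ), ∀ ε, 0 < ε → ε < r → InC C x (u + ε • v)) ∨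
      (x ∉ Flo C u v ∧ ∃ r > (0 : ℝ), ∀ ε, 0 < ε → ε < r → OutC C x (u + ε • v)) := by
  obtain ⟨r, hr, hg⟩ := ev_iff_Ioo.1 (h.goodC x huv)
  rcases sideC hg with h1 | h1
  · left
    exact ⟨ev_iff_Ioo.2 ⟨r, hr, fun ε a b => (h1 ε a b).ev⟩, r, hr, h1⟩
  · right
    refine ⟨fun hx => ?_, r, hr, h1⟩
    obtain ⟨r', hr', h2⟩ := ev_iff_Ioo.1 hx
    have h0 : 0 < min r r' := lt_min hr hr'
    have h3 := (h1 (min r r' / 2) (by positivity)
      (half_l h0)).ev
    have h4 := h2 (min r r' / 2) (by positivity)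
      (half_r h0)
    obtain ⟨s, h6, h7⟩ := (h4.and h3).exists
    exact h7 (interior_subset h6)

lemma PWL.dou {C K : Set V} {L : Finset (V × ℝ)} (h : PWL C K L) {u v x : V}
    (huv : rdet u v ≠ 0) (hx : x ∉ Flo C u v) :
    ∀ᶠ ε in 𝓝[>] (0 : ℝ), ∀ᶠ s in 𝓝[>] (0 : ℝ), x + s • (u + ε • v) ∉ C := by
  rcases h.outer x huv with ⟨h1, -⟩ | ⟨-, r, hr, h1⟩
  · exact absurd h1 hx
  · exact ev_iff_Ioo.2 ⟨r, hr, fun ε a b => (h1 ε a b).ev⟩

lemma cone_pt {x w v : V} {s η : ℝ} (hs : 0 < s) :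
    x + s • w + η • v = x + s • (w + (η / s) • v) := by
  rw [smul_add, smul_smul, mul_div_cancel₀ _ hs.ne', add_assoc]

lemma ev_cone (w v : V) {r : ℝ} (hr : 0 < r) {s : ℝ} (hs : 0 < s) :
    ∀ᶠ η in 𝓝[>] (0 : ℝ), ‖(w + (η / s) • v) - w‖ < r := by
  have hc : Continuous (fun η : ℝ => ‖(w + (η / s) • v) - w‖) := by fun_prop
  have h0 := hc.tendsto 0
  simp only [zero_div, zero_smul, add_zero, sub_self, norm_zero] at h0
  exact (h0.mono_left nhdsWithin_le_nhds).eventually_lt_const hr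

lemma InC.fli {C : Set V} {x w : V} (h : InC C x w) (v : V) : x ∈ Fli C w v := by
  obtain ⟨r, hr, h⟩ := h
  refine ev_iff_Ioo.2 ⟨r, hr, fun s a b => ?_⟩
  filter_upwards [ev_cone w v hr a] with η hη
  rw [cone_pt a]
  exact h s _ a b hη

lemma OutC.fli {C : Set V} {x w : V} (h : OutC C x w) (v : V) : x ∉ Fli C w v := by
  obtain ⟨r, hr, h⟩ := h
  intro hx
  obtain ⟨r', hr', h2⟩ := ev_iff_Ioo.1 hx
  have h0 : 0 < min r r' := lt_min hr hr'
  have h4 := h2 (min r r' / 2) (by positivity)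
    (half_r h0)
  have hs : 0 < min r r' / 2 := by positivity
  obtain ⟨η, h6, h7⟩ := (h4.and (ev_cone w v hr hs)).exists
  rw [cone_pt hs] at h6
  exact h _ _ hs (half_l h0) h7 (interior_subset h6)

lemma PWL.pert {C K : Set V} {L : Finset (V × ℝ)} (h : PWL C K L) (u v x : V)
    (huv : rdet u v ≠ 0) : ∀ᶠ ε in 𝓝[>] (0 : ℝ), ∀ w : V,
      (x ∈ Fli C (u + ε • v) w ↔ x ∈ Flo C u v) := by
  rcases h.outer x huv with ⟨h1, r, hr, h2⟩ | ⟨h1, r, hr, h2⟩
  · exact ev_iff_Ioo.2 ⟨r, hr, fun ε a b w => iff_of_true ((h2 ε a b).fli w) h1⟩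
  · exact ev_iff_Ioo.2 ⟨r, hr, fun ε a b w => iff_of_false ((h2 ε a b).fli w) h1⟩

/-! ## Finiteness -/

/-- A punctured half ball free of the boundary gives equal flags for the two orientations. -/
lemma PWL.side_eq {C K : Set V} {L : Finset (V × ℝ)} (h : PWL C K L) {e n x : V}
    (hen : rdet e n ≠ 0) {ρ : ℝ} (hρ : 0 < ρ)
    (hf : ∀ y : V, ‖y - x‖ < ρ → rdet e (y - x) ≠ 0 → y ∉ frontier C) :
    (x ∈ Fli C e n ↔ x ∈ Fli C (-e) n) := by
  have hen' : rdet (-e) n ≠ 0 := by rw [rdet_neg_l]; exact neg_ne_zero.2 hen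
  have hG : GoodS C x e n 0 := by
    refine ⟨ρ, hρ, fun y hy => hf y ?_ ?_⟩
    · have := hy.1
      rwa [zero_smul, add_zero] at this
    · intro h0
      have := hy.2
      rw [h0, mul_zero] at this
      exact lt_irrefl _ this
  have e0 : ∀ ρ', HB x (-e) n 0 ρ' = HB x e n 0 ρ' := by
    intro ρ'
    have := HB_back x e n 0 0 ρ'
    rwa [zero_smul, add_zero, sub_zero] at this
  have hG' : InS C x (-e) n 0 ↔ InS C x e n 0 := by
    unfold InS
    simp only [e0]
  have hG'' : OutS C x (-e) n 0 ↔ OutS C x e n 0 := by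
    unfold OutS
    simp only [e0]
  have near : ∀ (e : V), rdet e n ≠ 0 → InS C x e n 0 → x ∈ Fli C e n := by
    intro e hen hin
    obtain ⟨δ, hδ, hb⟩ := Metric.isOpen_iff.1 (inS_open C x e n) 0 hin
    refine mem_Fli_of hen hδ fun s a b => hb ?_
    rw [Metric.mem_ball, Real.dist_eq, sub_zero, abs_of_pos a]
    exact b
  have far : ∀ (e : V), rdet e n ≠ 0 → OutS C x e n 0 → x ∉ Fli C e n := by
    intro e hen hin
    obtain ⟨δ, hδ, hb⟩ := Metric.isOpen_iff.1 (outS_open C x e n) 0 hin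
    refine notMem_Fli_of hen hδ fun s a b => hb ?_
    rw [Metric.mem_ball, Real.dist_eq, sub_zero, abs_of_pos a]
    exact b
  rcases hG.or with h1 | h1
  · exact iff_of_true (near e hen h1) (near (-e) hen' (hG'.2 h1))
  · exact iff_of_false (far e hen h1) (far (-e) hen' (hG''.2 h1))

/-- If the ray from `x` in the direction `e` is not in a line of `L`, then the two sides agree. -/
lemma PWL.cross_eq {C K : Set V} {L : Finset (V × ℝ)} (h : PWL C K L) {e n x : V}
    (hen : rdet e n ≠ 0) (hL : ∀ p ∈ L, rdet p.1 e = 0 → rdet p.1 x ≠ p.2) :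
    (x ∈ Fli C e n ↔ x ∈ Fli C e (-n)) := by
  have he := ne_of_rdet hen
  have hen' : rdet e (-n) ≠ 0 := by rw [rdet_neg_r]; exact neg_ne_zero.2 hen
  have h1 := ev_fin (h.cur.line e he (rdet e x)) x he
  have h2 : ∀ᶠ s in 𝓝[>] (0 : ℝ), ∀ p ∈ L, rdet p.1 (x + s • e) ≠ p.2 := by
    rw [Filter.eventually_all_finset]
    intro p hp
    have : rdet p.1 x - p.2 ≠ 0 ∨ rdet p.1 e ≠ 0 := by
      by_contra hcon
      rw [not_or, not_not, not_not] at hcon
      exact hL p hp hcon.2 (by linarith [hcon.1])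
    filter_upwards [ev_aff _ _ this] with s hs he
    apply hs
    rw [rdet_add, rdet_smul_r] at he
    linarith
  -- at such a point the frontier is avoided
  have h3 : ∀ᶠ s in 𝓝[>] (0 : ℝ), x + s • e ∉ frontier C := by
    filter_upwards [h1, h2] with s k1 k2 hf
    rcases h.bd _ hf with h4 | ⟨p, hp, h4⟩
    · refine k1 ⟨h4, ?_⟩
      rw [rdet_add, rdet_smul_r, rdet_self, mul_zero, add_zero]
    · exact k2 p hp h4
  have key : ∀ n : V, rdet e n ≠ 0 → (x ∈ Fli C e n ↔ ∀ᶠ s in 𝓝[>] (0 : ℝ), x + s • e ∈ C) := by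
    intro n hen
    rcases h.inner x hen with ⟨k1, r, hr, k2⟩ | ⟨k1, r, hr, k2⟩
    · refine iff_of_true k1 ?_
      refine ev_iff_Ioo.2 ⟨r, hr, fun s a b => ?_⟩
      obtain ⟨ρ, hρ, k3⟩ := k2 s a b
      rw [← h.cl]
      refine closure_mono (fun y hy => k3 y hy) (s := HB x e n s ρ) ?_
      rw [mem_closure_iff_seq_limit]
      obtain ⟨q, hq⟩ := ev_iff_Ioo.1 (HB.mem_ev (x := x) hen s hρ one_pos 0)
      refine ⟨fun i => x + s • e + (q / (i + 2)) • ((1 : ℝ) • n + (0 : ℝ) • e), fun i => ?_, ?_⟩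
      · refine hq.2 _ (div_pos hq.1 (by positivity)) ?_
        rw [div_lt_iff₀ (by positivity)]
        have := hq.1
        have h5 : (0 : ℝ) ≤ i := Nat.cast_nonneg i
        nlinarith
      · have h6 : Tendsto (fun i : ℕ => q / ((i : ℝ) + 2)) atTop (𝓝 0) := by
          refine Tendsto.div_atTop tendsto_const_nhds ?_
          exact tendsto_atTop_add_const_right _ _ tendsto_natCast_atTop_atTop
        have h7 : Tendsto (fun i : ℕ => x + s • e +
            (q / ((i : ℝ) + 2)) • ((1 : ℝ) • n + (0 : ℝ) • e)) atTop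
            (𝓝 (x + s • e + (0 : ℝ) • ((1 : ℝ) • n + (0 : ℝ) • e))) :=
          tendsto_const_nhds.add (h6.smul_const _)
        have h8 : x + s • e + (0 : ℝ) • ((1 : ℝ) • n + (0 : ℝ) • e) = x + s • e := by module
        rw [h8] at h7
        exact h7
    · refine iff_of_false k1 ?_
      intro hev
      obtain ⟨r', hr', k3⟩ := ev_iff_Ioo.1 (hev.and h3)
      have h0 : 0 < min r r' := lt_min hr hr'
      obtain ⟨k4, k5⟩ := k3 (min r r' / 2) (by positivity)
        (half_r h0)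
      obtain ⟨ρ, hρ, k6⟩ := k2 (min r r' / 2) (by positivity)
        (half_l h0)
      have k7 : x + (min r r' / 2) • e ∈ interior C := by
        by_contra hc
        exact k5 ⟨subset_closure k4, hc⟩
      obtain ⟨ρ', hρ', k8⟩ := Metric.isOpen_iff.1 isOpen_interior _ k7
      obtain ⟨η, h6, h7⟩ := ((HB.mem_ev (x := x) hen (min r r' / 2) hρ one_pos 0).and
        (HB.mem_ev (x := x) hen (min r r' / 2) hρ' one_pos 0)).exists
      refine k6 _ h6 (interior_subset (k8 ?_))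
      rw [Metric.mem_ball, dist_eq_norm]
      exact h7.1
  rw [key n hen, key (-n) hen']

/-- The lines of `L` and the curve meet a given line of `L` in a finite set (apart from the lines
of `L` which are equal to it). -/
lemma PWL.badset {C K : Set V} {L : Finset (V × ℝ)} (h : PWL C K L) {e : V} (he : e ≠ 0) :
    {x : V | ∃ p ∈ L, rdet p.1 e = 0 ∧ rdet p.1 x = p.2 ∧
      (x ∈ K ∨ ∃ p' ∈ L, rdet p'.1 e ≠ 0 ∧ rdet p'.1 x = p'.2)}.Finite := by
  have h1 : ∀ p ∈ L, rdet p.1 e = 0 → {x : V | rdet p.1 x = p.2 ∧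
      (x ∈ K ∨ ∃ p' ∈ L, rdet p'.1 e ≠ 0 ∧ rdet p'.1 x = p'.2)}.Finite := by
    intro p hp hpe
    have h2 : {x : V | x ∈ K ∧ rdet p.1 x = p.2}.Finite := h.cur.line _ (h.nz p hp) _
    have h3 : ∀ p' ∈ L, {x : V | rdet p'.1 e ≠ 0 ∧ rdet p'.1 x = p'.2 ∧
        rdet p.1 x = p.2}.Finite := by
      intro p' hp'
      by_cases hc : rdet p'.1 e = 0
      · convert Set.finite_empty
        ext x
        simp [hc]
      · apply Set.Subsingleton.finite
        rintro x ⟨-, hx1, hx2⟩ y ⟨-, hy1, hy2⟩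
        have h4 : rdet p.1 (x - y) = 0 := by rw [rdet_sub]; linarith
        have h5 : rdet p'.1 (x - y) = 0 := by rw [rdet_sub]; linarith
        obtain ⟨a, ha⟩ := par_of (h.nz p hp) hpe
        obtain ⟨b, hb⟩ := par_of (h.nz p hp) h4
        have ha0 : a ≠ 0 := by
          rintro rfl
          rw [zero_smul] at ha
          exact he ha
        have h6 : x - y = (b / a) • e := by
          rw [hb, ha, smul_smul, div_mul_cancel₀ _ ha0]
        rw [h6, rdet_smul_r] at h5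
        rcases mul_eq_zero.1 h5 with h7 | h7
        · rw [h7, zero_smul] at h6
          exact sub_eq_zero.1 h6
        · exact absurd h7 hc
    refine (h2.union (L.finite_toSet.biUnion h3)).subset ?_
    rintro x ⟨hx, hx' | ⟨p', hp', hx1, hx2⟩⟩
    · exact Or.inl ⟨hx', hx⟩
    · right
      simp only [Set.mem_iUnion]
      exact ⟨p', hp', hx1, hx2, hx⟩
  have h2 : {x : V | ∃ p ∈ L, rdet p.1 e = 0 ∧ rdet p.1 x = p.2 ∧
      (x ∈ K ∨ ∃ p' ∈ L, rdet p'.1 e ≠ 0 ∧ rdet p'.1 x = p'.2)} ⊆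
      ⋃ p ∈ (L : Set (V × ℝ)), {x : V | rdet p.1 e = 0 ∧ rdet p.1 x = p.2 ∧
      (x ∈ K ∨ ∃ p' ∈ L, rdet p'.1 e ≠ 0 ∧ rdet p'.1 x = p'.2)} := by
    rintro x ⟨p, hp, hx⟩
    simp only [Set.mem_iUnion]
    exact ⟨p, hp, hx⟩
  refine (L.finite_toSet.biUnion fun p hp => ?_).subset h2
  by_cases hpe : rdet p.1 e = 0
  · exact (h1 p hp hpe).subset fun x hx => hx.2
  · convert Set.finite_empty
    ext x
    simp [hpe]

/-- Outside a finite set the four inner flags with the directions `e`, `-e` agree in pairs. -/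
lemma PWL.fin4 {C K : Set V} {L : Finset (V × ℝ)} (h : PWL C K L) {e n : V}
    (hen : rdet e n ≠ 0) :
    {x : V | ¬ (((x ∈ Fli C e n ↔ x ∈ Fli C e (-n)) ∧ (x ∈ Fli C (-e) n ↔ x ∈ Fli C (-e) (-n))) ∨
      ((x ∈ Fli C e n ↔ x ∈ Fli C (-e) n) ∧
        (x ∈ Fli C e (-n) ↔ x ∈ Fli C (-e) (-n))))}.Finite := by
  have he := ne_of_rdet hen
  have hen1 : rdet e (-n) ≠ 0 := by rw [rdet_neg_r]; exact neg_ne_zero.2 hen
  have hen2 : rdet (-e) n ≠ 0 := by rw [rdet_neg_l]; exact neg_ne_zero.2 hen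
  refine (h.badset he).subset ?_
  intro x hx
  by_contra hb
  apply hx
  by_cases hc : ∃ p ∈ L, rdet p.1 e = 0 ∧ rdet p.1 x = p.2
  · obtain ⟨p, hp, h1, h2⟩ := hc
    right
    have hb' : ∀ q ∈ L, rdet q.1 e ≠ 0 → rdet q.1 x ≠ q.2 := by
      intro q hq h3 h4
      exact hb ⟨p, hp, h1, h2, Or.inr ⟨q, hq, h3, h4⟩⟩
    have hK : x ∉ K := fun h3 => hb ⟨p, hp, h1, h2, Or.inl h3⟩
    obtain ⟨ρ, hρ, h5⟩ := offl h (x := x) (u := e) (s := 0) (by simpa using hK) (by
      intro q hq h3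
      rw [zero_smul, add_zero] at h3
      refine ⟨?_, h3⟩
      by_contra h4
      exact hb' q hq h4 h3)
    have h6 : ∀ y : V, ‖y - x‖ < ρ → rdet e (y - x) ≠ 0 → y ∉ frontier C := by
      intro y hy
      refine h5 y ?_
      rwa [zero_smul, add_zero]
    exact ⟨h.side_eq hen hρ h6, h.side_eq hen1 hρ h6⟩
  · left
    have hc' : ∀ p ∈ L, rdet p.1 e = 0 → rdet p.1 x ≠ p.2 := fun p hp h1 h2 => hc ⟨p, hp, h1, h2⟩
    refine ⟨h.cross_eq hen hc', h.cross_eq hen2 fun p hp h1 => hc' p hp ?_⟩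
    have e1 : rdet p.1 (-e) = -rdet p.1 e := rdet_neg_r _ _
    rw [e1] at h1
    linarith

/-- Inner and outer flags agree outside a finite set. -/
lemma PWL.fin2 {C K : Set V} {L : Finset (V × ℝ)} (h : PWL C K L) {u v : V}
    (huv : rdet u v ≠ 0) : {x : V | ¬ (x ∈ Fli C u v ↔ x ∈ Flo C u v)}.Finite := by
  have hu := ne_of_rdet huv
  refine (h.cur.fin u hu).subset ?_
  intro x hx hNT
  apply hx
  clear hx
  -- the sector is free of the frontier
  have hL : NT {y : V | ∃ p ∈ L.filter (fun p => rdet p.1 u ≠ 0 ∨ rdet p.1 x ≠ p.2),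
      rdet p.1 y = p.2} x u := by
    apply NT_lines
    intro p hp
    exact (Finset.mem_filter.1 hp).2
  obtain ⟨r, hr, hN⟩ := hNT.union hL
  -- sector: w' close to u, on the side of v
  have hsec : ∀ (s : ℝ) (w' : V), 0 < s → s < r → ‖w' - u‖ < r → rdet u w' ≠ 0 →
      x + s • w' ∉ frontier C := by
    intro s w' h1 h2 h3 h4 h5
    have h6 := hN s w' h1 h2 h3
    rcases h.bd _ h5 with h7 | ⟨p, hp, h7⟩
    · exact h6 (Or.inl h7)
    · by_cases h8 : rdet p.1 u ≠ 0 ∨ rdet p.1 x ≠ p.2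
      · exact h6 (Or.inr ⟨p, Finset.mem_filter.2 ⟨hp, h8⟩, h7⟩)
      · rw [not_or, not_not, not_not] at h8
        rw [rdet_add, rdet_smul_r, h8.2] at h7
        have h9 : s * rdet p.1 w' = 0 := by linarith
        rcases mul_eq_zero.1 h9 with h10 | h10
        · exact h1.ne' h10
        · obtain ⟨a, ha⟩ := par_of (h.nz p hp) h8.1
          obtain ⟨b, hb⟩ := par_of (h.nz p hp) h10
          apply h4
          rw [ha, hb, rdet_smul_l, rdet_smul_r, rdet_self, mul_zero, mul_zero]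
  -- the sector is connected
  set A : Set V := (fun p : ℝ × V => x + p.1 • p.2) ''
    (Set.Ioo 0 r ×ˢ (Metric.ball u r ∩ {w' : V | 0 < rdet u v * rdet u w'})) with hA
  have hconv : Convex ℝ {w' : V | 0 < rdet u v * rdet u w'} := by
    intro y hy z hz a b ha hb hab
    change 0 < rdet u v * rdet u y at hy
    change 0 < rdet u v * rdet u z at hz
    change 0 < rdet u v * rdet u (a • y + b • z)
    have e2 : rdet u v * rdet u (a • y + b • z) =
        a * (rdet u v * rdet u y) + b * (rdet u v * rdet u z) := by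
      rw [rdet_add, rdet_smul_r, rdet_smul_r]; ring
    rw [e2]
    rcases eq_or_lt_of_le ha with h | h
    · have hb1 : b = 1 := by linarith
      rw [← h, hb1, zero_mul, zero_add, one_mul]
      exact hz
    · have := mul_pos h hy
      have := mul_nonneg hb hz.le
      linarith
  have hp : IsPreconnected A := by
    refine IsPreconnected.image ?_ _ (by fun_prop)
    exact isPreconnected_Ioo.prod ((convex_ball u r).inter hconv).isPreconnected
  have hm : ∀ (s : ℝ) (w' : V), 0 < s → s < r → ‖w' - u‖ < r → 0 < rdet u v * rdet u w' →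
      x + s • w' ∈ A := by
    intro s w' h1 h2 h3 h4
    exact ⟨(s, w'), ⟨⟨h1, h2⟩, by rwa [Metric.mem_ball, dist_eq_norm], h4⟩, rfl⟩
  have hd : ∀ y ∈ A, y ∉ frontier C := by
    rintro y ⟨⟨s, w'⟩, ⟨⟨h1, h2⟩, h3, h4⟩, rfl⟩
    refine hsec s w' h1 h2 (by rwa [Metric.mem_ball, dist_eq_norm] at h3) ?_
    intro h0
    change 0 < rdet u v * rdet u w' at h4
    rw [h0, mul_zero] at h4
    exact lt_irrefl _ h4
  -- points of both kinds are in the sector
  have hpos : ∀ ε : ℝ, 0 < ε → 0 < rdet u v * rdet u (u + ε • v) := by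
    intro ε hε
    rw [rdet_add, rdet_self, zero_add, rdet_smul_r]
    have : 0 < ε * (rdet u v * rdet u v) := mul_pos hε (mul_self_pos.2 huv)
    linarith
  have hev : ∀ᶠ ε in 𝓝[>] (0 : ℝ), ∀ᶠ s in 𝓝[>] (0 : ℝ), x + s • (u + ε • v) ∈ A := by
    have h1 := ev_cone u v hr one_pos
    filter_upwards [h1, self_mem_nhdsWithin] with ε h2 h3
    rw [div_one] at h2
    exact ev_iff_Ioo.2 ⟨r, hr, fun s a b => hm s _ a b h2 (hpos ε h3)⟩
  have hev' : ∀ᶠ s in 𝓝[>] (0 : ℝ), ∀ᶠ η in 𝓝[>] (0 : ℝ), x + s • u + η • v ∈ A := by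
    refine ev_iff_Ioo.2 ⟨r, hr, fun s a b => ?_⟩
    filter_upwards [ev_cone u v hr a, self_mem_nhdsWithin] with η h2 h3
    rw [cone_pt a]
    exact hm s _ a b h2 (hpos _ (div_pos h3 a))
  rcases dich hp hd with h1 | h1
  · refine iff_of_true ?_ ?_
    · filter_upwards [hev'] with s hs
      filter_upwards [hs] with η hη
      exact h1 _ hη
    · filter_upwards [hev] with s hs
      filter_upwards [hs] with η hη
      exact h1 _ hη
  · refine iff_of_false ?_ ?_
    · intro hx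
      have hx' : ∀ᶠ s in 𝓝[>] (0 : ℝ), ∀ᶠ η in 𝓝[>] (0 : ℝ),
        x + s • u + η • v ∈ interior C := hx
      obtain ⟨s, h2, h3⟩ := (hx'.and hev').exists
      obtain ⟨η, h4, h5⟩ := (h2.and h3).exists
      exact h1 _ h5 (interior_subset h4)
    · intro hx
      have hx' : ∀ᶠ ε in 𝓝[>] (0 : ℝ), ∀ᶠ s in 𝓝[>] (0 : ℝ),
        x + s • (u + ε • v) ∈ interior C := hx
      obtain ⟨s, h2, h3⟩ := (hx'.and hev).exists
      obtain ⟨η, h4, h5⟩ := (h2.and h3).exists
      exact h1 _ h5 (interior_subset h4)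

/-- The lines of the direction `e` on which the two sides differ have finitely many heights. -/
lemma PWL.linf {C K : Set V} {L : Finset (V × ℝ)} (h : PWL C K L) {e : V} (he : e ≠ 0) :
    ∃ O : Finset ℝ, ∀ n x : V, rdet e n ≠ 0 →
      ¬ (x ∈ Fli C e n ↔ x ∈ Fli C e (-n)) → rdet e x ∈ O := by
  classical
  obtain ⟨J, hJ⟩ : ∃ J : V, 0 < rdet e J := ⟨J9 e, rdet_J9 he⟩
  refine ⟨L.image fun p => p.2 * rdet e J / rdet p.1 J, fun n x hen hx => ?_⟩
  by_contra hcon
  apply hx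
  apply h.cross_eq hen
  intro p hp hpe hpx
  apply hcon
  rw [Finset.mem_image]
  refine ⟨p, hp, ?_⟩
  obtain ⟨a, ha⟩ := par_of he (show rdet e p.1 = 0 by rw [rdet_swap, hpe, neg_zero])
  have ha0 : a ≠ 0 := by
    rintro rfl
    rw [zero_smul] at ha
    exact h.nz p hp ha
  rw [← hpx, ha, rdet_smul_l, rdet_smul_l]
  field_simp

/-- Points of `C` on a ray: one of the two sides is in `C`. -/
lemma PWL.edge {C K : Set V} {L : Finset (V × ℝ)} (h : PWL C K L) {e n : V} (x : V)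
    (hen : rdet e n ≠ 0) : ∀ᶠ s in 𝓝[>] (0 : ℝ), x + s • e ∈ C →
      x ∈ Fli C e n ∨ x ∈ Fli C e (-n) := by
  have he := ne_of_rdet hen
  have hen' : rdet e (-n) ≠ 0 := by rw [rdet_neg_r]; exact neg_ne_zero.2 hen
  rcases h.inner x hen with ⟨h1, -⟩ | ⟨h1, r, hr, h2⟩
  · exact Eventually.of_forall fun s _ => Or.inl h1
  · rcases h.inner x hen' with ⟨h3, -⟩ | ⟨h3, r', hr', h4⟩
    · exact Eventually.of_forall fun s _ => Or.inr h3
    · refine ev_iff_Ioo.2 ⟨min r r', lt_min hr hr', fun s a b hC => ?_⟩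
      exfalso
      obtain ⟨ρ, hρ, h5⟩ := h2 s a (b.trans_le (min_le_left _ _))
      obtain ⟨ρ', hρ', h6⟩ := h4 s a (b.trans_le (min_le_right _ _))
      rw [← h.cl, Metric.mem_closure_iff] at hC
      obtain ⟨y, hy, hd⟩ := hC (min ρ ρ') (lt_min hρ hρ')
      -- y is interior, move it off the line
      obtain ⟨δ, hδ, hb⟩ := Metric.isOpen_iff.1
        (isOpen_interior.inter (Metric.isOpen_ball (x := x + s • e) (ε := min ρ ρ'))) y
        ⟨hy, by rw [Metric.mem_ball, dist_comm]; exact hd⟩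
      have key : ∃ z ∈ Metric.ball y δ, rdet e (z - x) ≠ 0 := by
        by_cases h0 : rdet e (y - x) = 0
        · refine ⟨y + (δ / 2 / (‖n‖ + 1)) • n, ?_, ?_⟩
          · rw [Metric.mem_ball, dist_eq_norm, add_sub_cancel_left, norm_smul, Real.norm_eq_abs,
              abs_of_pos (by positivity)]
            have : δ / 2 / (‖n‖ + 1) * ‖n‖ ≤ δ / 2 / (‖n‖ + 1) * (‖n‖ + 1) :=
              mul_le_mul_of_nonneg_left (by linarith) (by positivity)
            rw [div_mul_cancel₀ _ (by positivity)] at this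
            linarith
          · have e1 : y + (δ / 2 / (‖n‖ + 1)) • n - x = (y - x) + (δ / 2 / (‖n‖ + 1)) • n := by
              abel
            rw [e1, rdet_add, h0, zero_add, rdet_smul_r]
            exact mul_ne_zero (by positivity) hen
        · exact ⟨y, Metric.mem_ball_self hδ, h0⟩
      obtain ⟨z, hz, hz0⟩ := key
      obtain ⟨hz1, hz2⟩ := hb hz
      rw [Metric.mem_ball, dist_eq_norm] at hz2
      rcases lt_or_gt_of_ne (mul_ne_zero hen hz0) with h7 | h7
      · refine h6 z ⟨hz2.trans_le (min_le_right _ _), ?_⟩ (interior_subset hz1)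
        rw [rdet_neg_r]
        linarith
      · exact h5 z ⟨hz2.trans_le (min_le_left _ _), h7⟩ (interior_subset hz1)

end Pool.Agent.PTA
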