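import Pool.Agent.PTA.Arcs

/-!
# Local structure of piecewise convex bodies

`PW C`: the boundary of the body `C` is contained in the union of a curve `K` (`Cur K`) and of
finitely many lines.
-/

set_option autoImplicit false

namespace Pool.Agent.PTA

open Pool.Agent.PTR Pool.Agent.PTP Filter Topology
open Pool.Agent.PTR.OL (V ii dif difs FLC InHull)

/-- The boundary of `C` is contained in the union of `K` and of the lines in `L`. -/
structure PWL (C K : Set V) (L : Finset (V × ℝ)) : Prop where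
  cpt : IsCompact C
  cl : closure (interior C) = C
  ne : (interior C).Nonempty
  cur : Cur K
  nz : ∀ p ∈ L, p.1 ≠ 0
  bd : ∀ x ∈ frontier C, x ∈ K ∨ ∃ p ∈ L, rdet p.1 x = p.2

/-! ## Elementary facts -/

lemma ev_aff (a b : ℝ) (h : a ≠ 0 ∨ b ≠ 0) : ∀ᶠ s in 𝓝[>] (0 : ℝ), a + s * b ≠ 0 := by
  by_cases hb : b = 0
  · have ha : a ≠ 0 := h.resolve_right (fun h' => h' hb)
    refine Eventually.of_forall fun s => ?_
    rw [hb, mul_zero, add_zero]
    exact ha
  · have h0 : ∀ᶠ s in 𝓝[>] (0 : ℝ), s ≠ -a / b := by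
      by_cases hc : -a / b = 0
      · rw [hc]
        exact eventually_nhdsWithin_of_forall fun s hs => (Set.mem_Ioi.1 hs).ne'
      · exact eventually_nhdsWithin_of_eventually_nhds
          ((isOpen_ne.mem_nhds (Ne.symm hc)))
    filter_upwards [h0] with s hs h1
    apply hs
    field_simp
    linarith

lemma ev_fin {F : Set V} (hF : F.Finite) (x : V) {u : V} (hu : u ≠ 0) :
    ∀ᶠ s in 𝓝[>] (0 : ℝ), x + s • u ∉ F := by
  have h : ∀ᶠ s in 𝓝[>] (0 : ℝ), ∀ y ∈ F, x + s • u ≠ y := by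
    rw [hF.eventually_all]
    intro y _
    have hu' : u.1 ≠ 0 ∨ u.2 ≠ 0 := by
      by_contra hc
      rw [not_or, not_not, not_not] at hc
      exact hu (Prod.ext hc.1 hc.2)
    rcases hu' with h1 | h1
    · filter_upwards [ev_aff (x.1 - y.1) u.1 (Or.inr h1)] with s hs he
      apply hs
      have := congrArg Prod.fst he
      simp only [Prod.fst_add, Prod.smul_fst, smul_eq_mul] at this
      linarith
    · filter_upwards [ev_aff (x.2 - y.2) u.2 (Or.inr h1)] with s hs he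
      apply hs
      have := congrArg Prod.snd he
      simp only [Prod.snd_add, Prod.smul_snd, smul_eq_mul] at this
      linarith
  filter_upwards [h] with s hs hm
  exact hs _ hm rfl

lemma ev_iff_Ioo {p : ℝ → Prop} :
    (∀ᶠ s in 𝓝[>] (0 : ℝ), p s) ↔ ∃ r > (0 : ℝ), ∀ s, 0 < s → s < r → p s := by
  constructor
  · intro h
    obtain ⟨r, hr, h⟩ := mem_nhdsGT_iff_exists_Ioo_subset.1 h
    exact ⟨r, hr, fun s h1 h2 => h ⟨h1, h2⟩⟩
  · rintro ⟨r, hr, h⟩
    exact mem_nhdsGT_iff_exists_Ioo_subset.2 ⟨r, hr, fun s hs => h s hs.1 hs.2⟩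

/-- A preconnected set which does not meet the boundary is inside or outside. -/
lemma dich {C A : Set V} (hA : IsPreconnected A) (hd : ∀ y ∈ A, y ∉ frontier C) :
    (∀ y ∈ A, y ∈ interior C) ∨ ∀ y ∈ A, y ∉ C := by
  have := IsPreconnected.subset_or_subset (isOpen_interior (s := C))
    (isClosed_closure (s := C)).isOpen_compl
    (by
      rw [Set.disjoint_left]
      intro y h1 h2
      exact h2 (subset_closure (interior_subset h1)))
    (fun y hy => by
      by_cases h : y ∈ closure C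
      · left
        by_contra h'
        exact hd y hy ⟨h, h'⟩
      · right
        exact h) hA
  rcases this with h | h
  · exact Or.inl fun y hy => h hy
  · exact Or.inr fun y hy hyC => h hy (subset_closure hyC)

/-! ## Half balls -/

/-- The half ball at `x + s u` on the side of `v`. -/
def HB (x u v : V) (s ρ : ℝ) : Set V :=
  {y | ‖y - (x + s • u)‖ < ρ ∧ 0 < rdet u v * rdet u (y - x)}

lemma HB.conv (x u v : V) (s ρ : ℝ) : Convex ℝ (HB x u v s ρ) := by
  have h1 : Convex ℝ {y : V | ‖y - (x + s • u)‖ < ρ} := by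
    have : {y : V | ‖y - (x + s • u)‖ < ρ} = Metric.ball (x + s • u) ρ := by
      ext y; rw [Metric.mem_ball, dist_eq_norm]; rfl
    rw [this]
    exact convex_ball _ _
  have h2 : Convex ℝ {y : V | 0 < rdet u v * rdet u (y - x)} := by
    intro y hy z hz a b ha hb hab
    change 0 < rdet u v * rdet u (y - x) at hy
    change 0 < rdet u v * rdet u (z - x) at hz
    change 0 < rdet u v * rdet u (a • y + b • z - x)
    have e : rdet u (a • y + b • z - x) = a * rdet u (y - x) + b * rdet u (z - x) := by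
      have : a • y + b • z - x = a • (y - x) + b • (z - x) := by
        have h : x = (a + b) • x := by rw [hab, one_smul]
        nth_rw 1 [h]
        module
      rw [this, rdet_add, rdet_smul_r, rdet_smul_r]
    rw [e]
    have e2 : rdet u v * (a * rdet u (y - x) + b * rdet u (z - x)) =
      a * (rdet u v * rdet u (y - x)) + b * (rdet u v * rdet u (z - x)) := by ring
    rw [e2]
    rcases eq_or_lt_of_le ha with h | h
    · have hb1 : b = 1 := by linarith
      rw [← h, hb1, zero_mul, zero_add, one_mul]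
      exact hz
    · have := mul_pos h hy
      have := mul_nonneg hb hz.le
      linarith
  exact h1.inter h2

lemma HB.mem_ev {x u v : V} (h : rdet u v ≠ 0) (s : ℝ) {ρ : ℝ} (hρ : 0 < ρ) {m : ℝ} (hm : 0 < m)
    (k : ℝ) : ∀ᶠ η in 𝓝[>] (0 : ℝ), x + s • u + η • (m • v + k • u) ∈ HB x u v s ρ := by
  have hc : Tendsto (fun η : ℝ => ‖η • (m • v + k • u)‖) (𝓝[>] 0) (𝓝 0) := by
    have : Continuous (fun η : ℝ => ‖η • (m • v + k • u)‖) := by fun_prop
    have h0 := this.tendsto 0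
    simp only [zero_smul, norm_zero] at h0
    exact h0.mono_left nhdsWithin_le_nhds
  filter_upwards [hc.eventually_lt_const hρ, self_mem_nhdsWithin] with η h1 h2
  refine ⟨by rwa [add_sub_cancel_left], ?_⟩
  have e : rdet u (x + s • u + η • (m • v + k • u) - x) = η * m * rdet u v := by
    simp only [rdet, Prod.fst_add, Prod.snd_add, Prod.smul_fst, Prod.smul_snd, smul_eq_mul,
      Prod.fst_sub, Prod.snd_sub]
    ring
  rw [e]
  have : 0 < η * m * (rdet u v * rdet u v) :=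
    mul_pos (mul_pos h2 hm) (mul_self_pos.2 h)
  linarith

lemma HB.sub {x u v : V} {s s' ρ ρ' : ℝ} (h : ‖(s' - s) • u‖ + ρ' ≤ ρ) :
    HB x u v s' ρ' ⊆ HB x u v s ρ := by
  rintro y ⟨h1, h2⟩
  refine ⟨?_, h2⟩
  have e : y - (x + s • u) = (y - (x + s' • u)) + (s' - s) • u := by module
  rw [e]
  have := norm_add_le (y - (x + s' • u)) ((s' - s) • u)
  linarith

lemma HB.near (u : V) {ρ : ℝ} (hρ : 0 < ρ) (s : ℝ) :
    ∃ δ > (0 : ℝ), ∀ s', |s' - s| < δ → ‖(s' - s) • u‖ + ρ / 2 ≤ ρ := by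
  refine ⟨ρ / 2 / (‖u‖ + 1), by positivity, fun s' hs => ?_⟩
  rw [norm_smul, Real.norm_eq_abs]
  have : |s' - s| * ‖u‖ ≤ ρ / 2 / (‖u‖ + 1) * (‖u‖ + 1) := by
    apply mul_le_mul hs.le (by linarith) (norm_nonneg _) (by positivity)
  rw [div_mul_cancel₀ _ (by positivity)] at this
  linarith

/-- The half ball at `x + s u` does not meet the boundary. -/
def GoodS (C : Set V) (x u v : V) (s : ℝ) : Prop :=
  ∃ ρ > (0 : ℝ), ∀ y ∈ HB x u v s ρ, y ∉ frontier C

def InS (C : Set V) (x u v : V) (s : ℝ) : Prop :=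
  ∃ ρ > (0 : ℝ), ∀ y ∈ HB x u v s ρ, y ∈ interior C

def OutS (C : Set V) (x u v : V) (s : ℝ) : Prop :=
  ∃ ρ > (0 : ℝ), ∀ y ∈ HB x u v s ρ, y ∉ C

lemma GoodS.or {C : Set V} {x u v : V} {s : ℝ} (h : GoodS C x u v s) :
    InS C x u v s ∨ OutS C x u v s := by
  obtain ⟨ρ, hρ, h⟩ := h
  rcases dich (HB.conv x u v s ρ).isPreconnected h with h1 | h1
  · exact Or.inl ⟨ρ, hρ, h1⟩
  · exact Or.inr ⟨ρ, hρ, h1⟩

lemma InS.not_out {C : Set V} {x u v : V} {s : ℝ} (huv : rdet u v ≠ 0) (h : InS C x u v s)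
    (h' : OutS C x u v s) : False := by
  obtain ⟨ρ, hρ, h⟩ := h
  obtain ⟨ρ', hρ', h'⟩ := h'
  obtain ⟨η, h1, h2⟩ := ((HB.mem_ev huv s hρ one_pos 0).and
    (HB.mem_ev (x := x) huv s hρ' one_pos 0)).exists
  exact h' _ h2 (interior_subset (h _ h1))

lemma inS_open (C : Set V) (x u v : V) : IsOpen {s | InS C x u v s} := by
  rw [Metric.isOpen_iff]
  rintro s ⟨ρ, hρ, h⟩
  obtain ⟨δ, hδ, hn⟩ := HB.near u hρ s
  refine ⟨δ, hδ, fun s' hs' => ⟨ρ / 2, by positivity, fun y hy => h y (HB.sub (hn s' ?_) hy)⟩⟩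
  rwa [Metric.mem_ball, Real.dist_eq] at hs'

lemma outS_open (C : Set V) (x u v : V) : IsOpen {s | OutS C x u v s} := by
  rw [Metric.isOpen_iff]
  rintro s ⟨ρ, hρ, h⟩
  obtain ⟨δ, hδ, hn⟩ := HB.near u hρ s
  refine ⟨δ, hδ, fun s' hs' => ⟨ρ / 2, by positivity, fun y hy => h y (HB.sub (hn s' ?_) hy)⟩⟩
  rwa [Metric.mem_ball, Real.dist_eq] at hs'

lemma sideS {C : Set V} {x u v : V} (huv : rdet u v ≠ 0) {r : ℝ}
    (h : ∀ s, 0 < s → s < r → GoodS C x u v s) :
    (∀ s, 0 < s → s < r → InS C x u v s) ∨ ∀ s, 0 < s → s < r → OutS C x u v s := by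
  have := IsPreconnected.subset_or_subset (inS_open C x u v) (outS_open C x u v)
    (by
      rw [Set.disjoint_left]
      intro s h1 h2
      exact InS.not_out huv h1 h2)
    (fun s hs => (h s hs.1 hs.2).or) (isPreconnected_Ioo (a := (0 : ℝ)) (b := r))
  rcases this with h1 | h1
  · exact Or.inl fun s a b => h1 ⟨a, b⟩
  · exact Or.inr fun s a b => h1 ⟨a, b⟩

/-! ## Cones -/

def GoodC (C : Set V) (x w : V) : Prop := NT (frontier C) x w

def InC (C : Set V) (x w : V) : Prop :=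
  ∃ r > (0 : ℝ), ∀ (s : ℝ) (w' : V), 0 < s → s < r → ‖w' - w‖ < r → x + s • w' ∈ interior C

def OutC (C : Set V) (x w : V) : Prop :=
  ∃ r > (0 : ℝ), ∀ (s : ℝ) (w' : V), 0 < s → s < r → ‖w' - w‖ < r → x + s • w' ∉ C

lemma GoodC.or {C : Set V} {x w : V} (h : GoodC C x w) : InC C x w ∨ OutC C x w := by
  obtain ⟨r, hr, h⟩ := h
  set A : Set V := (fun p : ℝ × V => x + p.1 • p.2) '' (Set.Ioo 0 r ×ˢ Metric.ball w r) with hA
  have hp : IsPreconnected A := by
    refine IsPreconnected.image ?_ _ (by fun_prop)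
    exact isPreconnected_Ioo.prod (convex_ball w r).isPreconnected
  have hm : ∀ (s : ℝ) (w' : V), 0 < s → s < r → ‖w' - w‖ < r → x + s • w' ∈ A := by
    intro s w' h1 h2 h3
    exact ⟨(s, w'), ⟨⟨h1, h2⟩, by rwa [Metric.mem_ball, dist_eq_norm]⟩, rfl⟩
  have hd : ∀ y ∈ A, y ∉ frontier C := by
    rintro y ⟨⟨s, w'⟩, ⟨⟨h1, h2⟩, h3⟩, rfl⟩
    exact h s w' h1 h2 (by rwa [Metric.mem_ball, dist_eq_norm] at h3)
  rcases dich hp hd with h1 | h1
  · exact Or.inl ⟨r, hr, fun s w' a b c => h1 _ (hm s w' a b c)⟩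
  · exact Or.inr ⟨r, hr, fun s w' a b c => h1 _ (hm s w' a b c)⟩

lemma InC.not_out {C : Set V} {x w : V} (h : InC C x w) (h' : OutC C x w) : False := by
  obtain ⟨r, hr, h⟩ := h
  obtain ⟨r', hr', h'⟩ := h'
  have h0 : 0 < min r r' := lt_min hr hr'
  have h1 : min r r' / 2 < min r r' := by linarith
  refine h' (min r r' / 2) w (by positivity) (h1.trans_le (min_le_right _ _))
    (by rwa [sub_self, norm_zero]) (interior_subset (h (min r r' / 2) w (by positivity)
      (h1.trans_le (min_le_left _ _)) (by rwa [sub_self, norm_zero])))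

lemma inC_open (C : Set V) (x : V) : IsOpen {w | InC C x w} := by
  rw [Metric.isOpen_iff]
  rintro w ⟨r, hr, h⟩
  refine ⟨r / 2, by positivity, fun w' hw' => ⟨r / 2, by positivity,
    fun s w'' h1 h2 h3 => h s w'' h1 (by linarith) ?_⟩⟩
  rw [Metric.mem_ball, dist_eq_norm] at hw'
  have := norm_add_le (w'' - w') (w' - w)
  rw [sub_add_sub_cancel] at this
  linarith

lemma outC_open (C : Set V) (x : V) : IsOpen {w | OutC C x w} := by
  rw [Metric.isOpen_iff]
  rintro w ⟨r, hr, h⟩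
  refine ⟨r / 2, by positivity, fun w' hw' => ⟨r / 2, by positivity,
    fun s w'' h1 h2 h3 => h s w'' h1 (by linarith) ?_⟩⟩
  rw [Metric.mem_ball, dist_eq_norm] at hw'
  have := norm_add_le (w'' - w') (w' - w)
  rw [sub_add_sub_cancel] at this
  linarith

lemma sideC {C : Set V} {x u v : V} {r : ℝ} (h : ∀ ε, 0 < ε → ε < r → GoodC C x (u + ε • v)) :
    (∀ ε, 0 < ε → ε < r → InC C x (u + ε • v)) ∨ ∀ ε, 0 < ε → ε < r → OutC C x (u + ε • v) := by
  have hcont : Continuous (fun ε : ℝ => u + ε • v) := by fun_prop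
  have := IsPreconnected.subset_or_subset ((inC_open C x).preimage hcont)
    ((outC_open C x).preimage hcont)
    (by
      rw [Set.disjoint_left]
      intro s h1 h2
      exact InC.not_out h1 h2)
    (fun s hs => (h s hs.1 hs.2).or) (isPreconnected_Ioo (a := (0 : ℝ)) (b := r))
  rcases this with h1 | h1
  · exact Or.inl fun s a b => h1 ⟨a, b⟩
  · exact Or.inr fun s a b => h1 ⟨a, b⟩

/-! ## Bodies -/

lemma line_closed (p : V × ℝ) : IsClosed {x : V | rdet p.1 x = p.2} := by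
  have : Continuous (fun x : V => rdet p.1 x) := rdet_cont.comp (Continuous.prodMk_right p.1)
  exact isClosed_eq this continuous_const

/-- The lines which do not contain `x` or are not parallel to `u`. -/
lemma offl {C K : Set V} {L : Finset (V × ℝ)} (h : PWL C K L) {x u : V} {s : ℝ}
    (hK : x + s • u ∉ K)
    (hL : ∀ p ∈ L, rdet p.1 (x + s • u) = p.2 → rdet p.1 u = 0 ∧ rdet p.1 x = p.2) :
    ∃ ρ > (0 : ℝ), ∀ y : V, ‖y - (x + s • u)‖ < ρ → rdet u (y - x) ≠ 0 → y ∉ frontier C := by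
  classical
  set A : Set V := K ∪ ⋃ p ∈ L.filter (fun p => rdet p.1 (x + s • u) ≠ p.2),
    {y : V | rdet p.1 y = p.2} with hA
  have hAc : IsClosed A := by
    refine h.cur.cl.union ?_
    exact isClosed_biUnion_finset fun p _ => line_closed p
  have hx : x + s • u ∉ A := by
    rintro (h1 | h1)
    · exact hK h1
    · simp only [Set.mem_iUnion, Finset.mem_filter] at h1
      obtain ⟨p, ⟨-, h2⟩, h3⟩ := h1
      exact h2 h3
  obtain ⟨ρ, hρ, hb⟩ := Metric.isOpen_iff.1 hAc.isOpen_compl _ hx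
  refine ⟨ρ, hρ, fun y hy hn hf => ?_⟩
  have hyA : y ∉ A := hb (by rwa [Metric.mem_ball, dist_eq_norm])
  rcases h.bd y hf with h1 | ⟨p, hp, h1⟩
  · exact hyA (Or.inl h1)
  · by_cases h2 : rdet p.1 (x + s • u) = p.2
    · obtain ⟨h3, h4⟩ := hL p hp h2
      apply hn
      have h5 : rdet p.1 (y - x) = 0 := by rw [rdet_sub]; linarith
      obtain ⟨a, ha⟩ := par_of (h.nz p hp) h3
      obtain ⟨b, hb'⟩ := par_of (h.nz p hp) h5
      rw [ha, hb', rdet_smul_l, rdet_smul_r, rdet_self, mul_zero, mul_zero]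
    · apply hyA
      right
      simp only [Set.mem_iUnion, Finset.mem_filter]
      exact ⟨p, ⟨hp, h2⟩, h1⟩

/-- The punctured half balls, eventually. -/
lemma PWL.ball {C K : Set V} {L : Finset (V × ℝ)} (h : PWL C K L) (x : V) {u : V} (hu : u ≠ 0) :
    ∀ᶠ s in 𝓝[>] (0 : ℝ), ∃ ρ > (0 : ℝ), ∀ y : V, ‖y - (x + s • u)‖ < ρ →
      rdet u (y - x) ≠ 0 → y ∉ frontier C := by
  have h1 := ev_fin (h.cur.line u hu (rdet u x)) x hu
  have h2 : ∀ᶠ s in 𝓝[>] (0 : ℝ), ∀ p ∈ L,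
      rdet p.1 (x + s • u) = p.2 → rdet p.1 u = 0 ∧ rdet p.1 x = p.2 := by
    rw [Filter.eventually_all_finset]
    intro p hp
    by_cases hc : rdet p.1 u = 0 ∧ rdet p.1 x = p.2
    · exact Eventually.of_forall fun s _ => hc
    · have : rdet p.1 x - p.2 ≠ 0 ∨ rdet p.1 u ≠ 0 := by
        by_contra hcon
        rw [not_or, not_not, not_not] at hcon
        exact hc ⟨hcon.2, by linarith [hcon.1]⟩
      filter_upwards [ev_aff _ _ this] with s hs he
      exfalso
      apply hs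
      rw [rdet_add, rdet_smul_r] at he
      linarith
  filter_upwards [h1, h2] with s h3 h4
  refine offl h (fun hK => h3 ⟨hK, ?_⟩) h4
  rw [rdet_add, rdet_smul_r, rdet_self, mul_zero, add_zero]

lemma PWL.goodS {C K : Set V} {L : Finset (V × ℝ)} (h : PWL C K L) (x : V) {u v : V}
    (huv : rdet u v ≠ 0) : ∀ᶠ s in 𝓝[>] (0 : ℝ), GoodS C x u v s := by
  filter_upwards [h.ball x (ne_of_rdet huv)] with s hs
  obtain ⟨ρ, hρ, hb⟩ := hs
  refine ⟨ρ, hρ, fun y hy => hb y hy.1 ?_⟩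
  intro h0
  have := hy.2
  rw [h0, mul_zero] at this
  exact lt_irrefl _ this

lemma NT_line {p : V × ℝ} {x w : V} (h : rdet p.1 w ≠ 0 ∨ rdet p.1 x ≠ p.2) :
    NT {y : V | rdet p.1 y = p.2} x w := by
  have hcont : Continuous (fun y : V => rdet p.1 y) := rdet_cont.comp (Continuous.prodMk_right p.1)
  by_cases hx : rdet p.1 x = p.2
  · have hw : rdet p.1 w ≠ 0 := h.resolve_right (fun h' => h' hx)
    obtain ⟨r, hr, hb⟩ := Metric.isOpen_iff.1 (isOpen_ne.preimage hcont) w hw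
    refine ⟨r, hr, fun s w' h1 h2 h3 h4 => ?_⟩
    have h5 : rdet p.1 w' ≠ 0 := hb (by rwa [Metric.mem_ball, dist_eq_norm])
    rw [Set.mem_ofPred_eq, rdet_add, rdet_smul_r, hx] at h4
    have : s * rdet p.1 w' = 0 := by linarith
    rcases mul_eq_zero.1 this with h6 | h6
    · exact h1.ne' h6
    · exact h5 h6
  · obtain ⟨ρ, hρ, hb⟩ := Metric.isOpen_iff.1 (isOpen_ne.preimage hcont) x hx
    refine ⟨min 1 (ρ / (‖w‖ + 1)), lt_min one_pos (by positivity), fun s w' h1 h2 h3 h4 => ?_⟩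
    refine hb (show x + s • w' ∈ Metric.ball x ρ from ?_) h4
    rw [Metric.mem_ball, dist_eq_norm, add_sub_cancel_left, norm_smul, Real.norm_eq_abs,
      abs_of_pos h1]
    have hw'1 : ‖w'‖ < ‖w‖ + 1 := by
      have : ‖w'‖ ≤ ‖w' - w‖ + ‖w‖ := by simpa using norm_add_le (w' - w) w
      have := h3.trans_le (min_le_left _ _)
      linarith
    calc s * ‖w'‖ ≤ s * (‖w‖ + 1) := mul_le_mul_of_nonneg_left hw'1.le h1.le
      _ < ρ / (‖w‖ + 1) * (‖w‖ + 1) :=
          mul_lt_mul_of_pos_right (h2.trans_le (min_le_right _ _)) (by positivity)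
      _ = ρ := by field_simp

lemma NT_lines (L : Finset (V × ℝ)) {x w : V} (h : ∀ p ∈ L, rdet p.1 w ≠ 0 ∨ rdet p.1 x ≠ p.2) :
    NT {y : V | ∃ p ∈ L, rdet p.1 y = p.2} x w := by
  classical
  induction L using Finset.induction_on with
  | empty =>
    refine ⟨1, one_pos, fun s w' _ _ _ h4 => ?_⟩
    obtain ⟨p, hp, -⟩ := h4
    exact absurd hp (Finset.notMem_empty _)
  | insert a s ha ih =>
    have h1 := NT_line (h a (Finset.mem_insert_self _ _))
    have h2 := ih fun p hp => h p (Finset.mem_insert_of_mem hp)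
    refine (h1.union h2).mono ?_
    rintro y ⟨p, hp, hy⟩
    rcases Finset.mem_insert.1 hp with h3 | h3
    · exact Or.inl (by rw [← h3]; exact hy)
    · exact Or.inr ⟨p, h3, hy⟩

lemma PWL.goodC_of {C K : Set V} {L : Finset (V × ℝ)} (h : PWL C K L) {x w : V}
    (hK : NT K x w) (hL : ∀ p ∈ L, rdet p.1 w ≠ 0 ∨ rdet p.1 x ≠ p.2) : GoodC C x w := by
  refine (hK.union (NT_lines L hL)).mono ?_
  intro y hy
  rcases h.bd y hy with h1 | h1
  · exact Or.inl h1
  · exact Or.inr h1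

lemma ev_dir {u v : V} (huv : rdet u v ≠ 0) {e : V} (he : e ≠ 0) :
    ∀ᶠ ε in 𝓝[>] (0 : ℝ), rdet e (u + ε • v) ≠ 0 := by
  have : rdet e u ≠ 0 ∨ rdet e v ≠ 0 := by
    by_contra hcon
    rw [not_or, not_not, not_not] at hcon
    obtain ⟨a, ha⟩ := par_of he hcon.1
    obtain ⟨b, hb⟩ := par_of he hcon.2
    apply huv
    rw [ha, hb, rdet_smul_l, rdet_smul_r, rdet_self, mul_zero, mul_zero]
  filter_upwards [ev_aff _ _ this] with ε h
  rwa [rdet_add, rdet_smul_r]

lemma PWL.goodC {C K : Set V} {L : Finset (V × ℝ)} (h : PWL C K L) (x : V) {u v : V}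
    (huv : rdet u v ≠ 0) : ∀ᶠ ε in 𝓝[>] (0 : ℝ), GoodC C x (u + ε • v) := by
  obtain ⟨W, hW⟩ := h.cur.tan x
  have h1 : ∀ᶠ ε in 𝓝[>] (0 : ℝ), ∀ w₀ ∈ W, w₀ ≠ 0 → rdet w₀ (u + ε • v) ≠ 0 := by
    rw [Filter.eventually_all_finset]
    intro w₀ _
    by_cases h0 : w₀ = 0
    · exact Eventually.of_forall fun ε h => absurd h0 h
    · filter_upwards [ev_dir huv h0] with ε h2 _
      exact h2
  have h2 : ∀ᶠ ε in 𝓝[>] (0 : ℝ), ∀ p ∈ L, rdet p.1 (u + ε • v) ≠ 0 := by
    rw [Filter.eventually_all_finset]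
    intro p hp
    exact ev_dir huv (h.nz p hp)
  have h3 : ∀ᶠ ε in 𝓝[>] (0 : ℝ), rdet u (u + ε • v) ≠ 0 := ev_dir huv (ne_of_rdet huv)
  filter_upwards [h1, h2, h3] with ε k1 k2 k3
  refine h.goodC_of ?_ (fun p hp => Or.inl (k2 p hp))
  by_contra hn
  have hne : u + ε • v ≠ 0 := by
    intro h0
    rw [h0] at k3
    exact k3 (by simp [rdet])
  obtain ⟨w₀, l1, l2, l3⟩ := hW _ hne hn
  exact k1 w₀ l1 l2 l3

end Pool.Agent.PTA
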