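import Pool.Agent.PTA.Targets

/-!
# PTA: BODY, INTF, LOC, DIRF, KKD
-/

set_option autoImplicit false

namespace Pool.Agent.PTA

open Pool.Agent.PTR Filter Topology
open Pool.Agent.PTR.OL (V ii dif difs FLC InHull ii_of_mem ii_of_not)
open Pool.Agent.PTP (Til TDP Iv wd SF Abv Stp Stk Ds Sm sd)

/-- BODY. -/
theorem p_BODY : T_BODY := fun _ h => ⟨h.cpt, h.ne, h.cl⟩

/-- common small parameters for two flagged properties -/
lemma fl_fo_false {C : Set V} {u v x : V} (h : x ∈ fl C u v) (h' : x ∈ fo C u v) : False := by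
  obtain ⟨s₀, hs₀, h1⟩ := h
  obtain ⟨s₁, hs₁, h2⟩ := h'
  have hs : 0 < min s₀ s₁ / 2 := by positivity
  have hlt : min s₀ s₁ / 2 < min s₀ s₁ := by linarith
  obtain ⟨r₀, hr₀, h3⟩ := h1 _ hs (lt_of_lt_of_le hlt (min_le_left _ _))
  obtain ⟨r₁, hr₁, h4⟩ := h2 _ hs (lt_of_lt_of_le hlt (min_le_right _ _))
  have hr : 0 < min r₀ r₁ / 2 := by positivity
  have hltr : min r₀ r₁ / 2 < min r₀ r₁ := by linarith
  exact h4 _ hr (lt_of_lt_of_le hltr (min_le_right _ _))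
    (interior_subset (h3 _ hr (lt_of_lt_of_le hltr (min_le_left _ _))))

/-- points of a flagged set are limits of interior points -/
lemma fl_closure {C : Set V} {u v x : V} (h : x ∈ fl C u v) : x ∈ closure (interior C) := by
  obtain ⟨s₀, hs₀, h1⟩ := h
  rw [Metric.mem_closure_iff]
  intro ε hε
  set s := min (s₀ / 2) (ε / (2 * (‖u‖ + 1))) with hs
  have hu : 0 < 2 * (‖u‖ + 1) := by positivity
  have hs0 : 0 < s := lt_min (by linarith) (by positivity)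
  have hs1 : s < s₀ := lt_of_le_of_lt (min_le_left _ _) (by linarith)
  obtain ⟨r₀, hr₀, h2⟩ := h1 s hs0 hs1
  set r := min (r₀ / 2) (ε / (4 * (‖v‖ + 1))) with hr
  have hv : 0 < 4 * (‖v‖ + 1) := by positivity
  have hr0 : 0 < r := lt_min (by linarith) (by positivity)
  have hr1 : r < r₀ := lt_of_le_of_lt (min_le_left _ _) (by linarith)
  refine ⟨x + s • u + r • v, h2 r hr0 hr1, ?_⟩
  rw [dist_eq_norm]
  have e : x - (x + s • u + r • v) = -(s • u + r • v) := by abel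
  rw [e, norm_neg]
  have b1 : ‖s • u‖ ≤ ε / 2 := by
    rw [norm_smul, Real.norm_eq_abs, abs_of_pos hs0]
    have : s ≤ ε / (2 * (‖u‖ + 1)) := min_le_right _ _
    calc s * ‖u‖ ≤ ε / (2 * (‖u‖ + 1)) * (‖u‖ + 1) :=
          mul_le_mul this (by linarith) (norm_nonneg _) (by positivity)
      _ = ε / 2 := by field_simp
  have b2 : ‖r • v‖ ≤ ε / 4 := by
    rw [norm_smul, Real.norm_eq_abs, abs_of_pos hr0]
    have : r ≤ ε / (4 * (‖v‖ + 1)) := min_le_right _ _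
    calc r * ‖v‖ ≤ ε / (4 * (‖v‖ + 1)) * (‖v‖ + 1) :=
          mul_le_mul this (by linarith) (norm_nonneg _) (by positivity)
      _ = ε / 4 := by field_simp
  calc ‖s • u + r • v‖ ≤ ‖s • u‖ + ‖r • v‖ := norm_add_le _ _
    _ < ε := by linarith

/-- interior points have all flags -/
lemma int_fl {C : Set V} {x : V} (hx : x ∈ interior C) (u v : V) : x ∈ fl C u v := by
  obtain ⟨ε, hε, hb⟩ := Metric.isOpen_iff.1 isOpen_interior x hx
  have hu : 0 < 2 * (‖u‖ + 1) := by positivity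
  have hv : 0 < 2 * (‖v‖ + 1) := by positivity
  refine ⟨ε / (2 * (‖u‖ + 1)), by positivity, fun s hs0 hs1 =>
    ⟨ε / (2 * (‖v‖ + 1)), by positivity, fun r hr0 hr1 => hb ?_⟩⟩
  rw [Metric.mem_ball, dist_eq_norm]
  have e : x + s • u + r • v - x = s • u + r • v := by abel
  rw [e]
  have b1 : ‖s • u‖ < ε / 2 := by
    rw [norm_smul, Real.norm_eq_abs, abs_of_pos hs0]
    calc s * ‖u‖ < s * (‖u‖ + 1) := mul_lt_mul_of_pos_left (by linarith) hs0
      _ ≤ ε / (2 * (‖u‖ + 1)) * (‖u‖ + 1) := mul_le_mul_of_nonneg_right hs1.le (by positivity)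
      _ = ε / 2 := by field_simp
  have b2 : ‖r • v‖ < ε / 2 := by
    rw [norm_smul, Real.norm_eq_abs, abs_of_pos hr0]
    calc r * ‖v‖ < r * (‖v‖ + 1) := mul_lt_mul_of_pos_left (by linarith) hr0
      _ ≤ ε / (2 * (‖v‖ + 1)) * (‖v‖ + 1) := mul_le_mul_of_nonneg_right hr1.le (by positivity)
      _ = ε / 2 := by field_simp
  calc ‖s • u + r • v‖ ≤ ‖s • u‖ + ‖r • v‖ := norm_add_le _ _
    _ < ε := by linarith

/-- INTF. -/
theorem p_INTF : T_INTF := by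
  intro C hC u v _
  refine ⟨fun x hx => ?_, fun x hx => int_fl hx u v, fun x hx hx' => fl_fo_false hx hx'⟩
  rw [← hC.cl]
  exact fl_closure hx

lemma rdet_neg_r (e n : V) : rdet e (-n) = -rdet e n := by
  simp only [rdet, Prod.fst_neg, Prod.snd_neg]; ring

lemma rdet_neg_l (e n : V) : rdet (-e) n = -rdet e n := by
  simp only [rdet, Prod.fst_neg, Prod.snd_neg]; ring

lemma fl_loc {C : Set V} {u v x : V} (h : x ∈ fl C u v) : ∃ ε₀ : ℝ, 0 < ε₀ ∧
    ∀ s : ℝ, 0 < s → s < ε₀ → x + s • u ∈ fl C u v ∧ x + s • u ∈ fl C (-u) v := by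
  obtain ⟨s₀, hs₀, h1⟩ := h
  refine ⟨s₀, hs₀, fun s hs0 hs1 => ⟨⟨s₀ - s, by linarith, fun s' hs' hs'1 => ?_⟩,
    ⟨s, hs0, fun s' hs' hs'1 => ?_⟩⟩⟩
  · obtain ⟨r₀, hr₀, h2⟩ := h1 (s + s') (by linarith) (by linarith)
    refine ⟨r₀, hr₀, fun r hr hr1 => ?_⟩
    have e : x + s • u + s' • u + r • v = x + (s + s') • u + r • v := by
      rw [add_smul]; abel
    rw [e]
    exact h2 r hr hr1
  · obtain ⟨r₀, hr₀, h2⟩ := h1 (s - s') (by linarith) (by linarith)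
    refine ⟨r₀, hr₀, fun r hr hr1 => ?_⟩
    have e : x + s • u + s' • (-u) + r • v = x + (s - s') • u + r • v := by
      rw [sub_smul, smul_neg]; abel
    rw [e]
    exact h2 r hr hr1

lemma fo_loc {C : Set V} {u v x : V} (h : x ∈ fo C u v) : ∃ ε₀ : ℝ, 0 < ε₀ ∧
    ∀ s : ℝ, 0 < s → s < ε₀ → x + s • u ∈ fo C u v ∧ x + s • u ∈ fo C (-u) v := by
  obtain ⟨s₀, hs₀, h1⟩ := h
  refine ⟨s₀, hs₀, fun s hs0 hs1 => ⟨⟨s₀ - s, by linarith, fun s' hs' hs'1 => ?_⟩,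
    ⟨s, hs0, fun s' hs' hs'1 => ?_⟩⟩⟩
  · obtain ⟨r₀, hr₀, h2⟩ := h1 (s + s') (by linarith) (by linarith)
    refine ⟨r₀, hr₀, fun r hr hr1 => ?_⟩
    have e : x + s • u + s' • u + r • v = x + (s + s') • u + r • v := by
      rw [add_smul]; abel
    rw [e]
    exact h2 r hr hr1
  · obtain ⟨r₀, hr₀, h2⟩ := h1 (s - s') (by linarith) (by linarith)
    refine ⟨r₀, hr₀, fun r hr hr1 => ?_⟩
    have e : x + s • u + s' • (-u) + r • v = x + (s - s') • u + r • v := by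
      rw [sub_smul, smul_neg]; abel
    rw [e]
    exact h2 r hr hr1

/-- LOC. -/
theorem p_LOC : T_LOC := by
  intro C hC u v x huv
  rcases hC.dich u v x huv with h | h
  · obtain ⟨ε, hε, h1⟩ := fl_loc h
    exact ⟨ε, hε, fun s hs0 hs1 => ⟨⟨fun _ => h, fun _ => (h1 s hs0 hs1).1⟩,
      ⟨fun _ => h, fun _ => (h1 s hs0 hs1).2⟩⟩⟩
  · obtain ⟨ε, hε, h1⟩ := fo_loc h
    exact ⟨ε, hε, fun s hs0 hs1 =>
      ⟨⟨fun h2 => (fl_fo_false h2 (h1 s hs0 hs1).1).elim, fun h2 => (fl_fo_false h2 h).elim⟩,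
      ⟨fun h2 => (fl_fo_false h2 (h1 s hs0 hs1).2).elim, fun h2 => (fl_fo_false h2 h).elim⟩⟩⟩

/-- one side in, the other side out: the line is in the boundary -/
lemma bd_of {C : Set V} {e n x : V} (h : x ∈ fl C e n) (h' : x ∈ fo C e (-n)) :
    ∃ s₀ : ℝ, 0 < s₀ ∧ ∀ s : ℝ, 0 < s → s < s₀ → x + s • e ∈ frontier C := by
  obtain ⟨s₀, hs₀, h1⟩ := h
  obtain ⟨s₁, hs₁, h2⟩ := h'
  refine ⟨min s₀ s₁, lt_min hs₀ hs₁, fun s hs0 hs1 => ?_⟩
  obtain ⟨r₀, hr₀, h3⟩ := h1 s hs0 (lt_of_lt_of_le hs1 (min_le_left _ _))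
  obtain ⟨r₁, hr₁, h4⟩ := h2 s hs0 (lt_of_lt_of_le hs1 (min_le_right _ _))
  have key : ∀ (w : V) (r₂ : ℝ), 0 < r₂ → ∀ ε > 0, ∃ r : ℝ, 0 < r ∧ r < r₂ ∧
      dist (x + s • e) (x + s • e + r • w) < ε := by
    intro w r₂ hr₂ ε hε
    have hw : 0 < 2 * (‖w‖ + 1) := by positivity
    refine ⟨min (r₂ / 2) (ε / (2 * (‖w‖ + 1))), lt_min (by linarith) (by positivity),
      lt_of_le_of_lt (min_le_left _ _) (by linarith), ?_⟩
    rw [dist_eq_norm]
    have e1 : x + s • e - (x + s • e + min (r₂ / 2) (ε / (2 * (‖w‖ + 1))) • w) =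
      -(min (r₂ / 2) (ε / (2 * (‖w‖ + 1))) • w) := by abel
    rw [e1, norm_neg, norm_smul, Real.norm_eq_abs,
      abs_of_pos (lt_min (by linarith) (by positivity))]
    calc min (r₂ / 2) (ε / (2 * (‖w‖ + 1))) * ‖w‖ ≤ ε / (2 * (‖w‖ + 1)) * (‖w‖ + 1) :=
          mul_le_mul (min_le_right _ _) (by linarith) (norm_nonneg _) (by positivity)
      _ = ε / 2 := by field_simp
      _ < ε := by linarith
  rw [frontier_eq_closure_inter_closure]
  constructor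
  · rw [Metric.mem_closure_iff]
    intro ε hε
    obtain ⟨r, hr0, hr1, hd⟩ := key n r₀ hr₀ ε hε
    exact ⟨_, interior_subset (h3 r hr0 hr1), hd⟩
  · rw [Metric.mem_closure_iff]
    intro ε hε
    obtain ⟨r, hr0, hr1, hd⟩ := key (-n) r₁ hr₁ ε hε
    exact ⟨_, h4 r hr0 hr1, hd⟩

/-- DIRF. -/
theorem p_DIRF : T_DIRF := by
  intro C hC e n hen hD
  have he : e ≠ 0 := by
    rintro rfl
    apply hen
    simp [rdet]
  have hen' : rdet e (-n) ≠ 0 := by rw [rdet_neg_r]; exact neg_ne_zero.2 hen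
  ext x
  constructor
  · intro h
    rcases hC.dich e (-n) x hen' with h' | h'
    · exact h'
    · exact absurd ⟨he, x, bd_of h h'⟩ hD
  · intro h
    rcases hC.dich e n x hen with h' | h'
    · exact h'
    · exact absurd ⟨he, x, bd_of h (by rw [neg_neg]; exact h')⟩ hD

/-- KKD. -/
theorem p_KKD : T_KKD := by
  intro C hC e n x hen hk
  unfold cD
  rw [dif_pos hC.crsf, Set.Finite.mem_toFinset]
  exact ⟨e, n, hen, hk⟩

end Pool.Agent.PTA
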