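import Pool.Agent.PTA.Targets

/-!
# PTP: STF
-/

set_option autoImplicit false

namespace Pool.Agent.PTA

open Pool.Agent.PTR Filter Topology
open Pool.Agent.PTP (Til TDP Iv wd SF Abv Stp Stk Ds Sm sd T_FF T_INJ T_GLU)
open Pool.Agent.PTR.OL (V ii dif difs FLC InHull)

namespace STF

theorem rd_add (e x y : V) : rdet e (x + y) = rdet e x + rdet e y := by
  simp only [rdet, Prod.fst_add, Prod.snd_add]; ring

theorem rd_smul (e x : V) (s : ℝ) : rdet e (s • x) = s * rdet e x := by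
  simp only [rdet, Prod.smul_fst, Prod.smul_snd, smul_eq_mul]; ring

theorem rd_smul_left (e x : V) (s : ℝ) : rdet (s • e) x = s * rdet e x := by
  simp only [rdet, Prod.smul_fst, Prod.smul_snd, smul_eq_mul]; ring

theorem rd_self (e : V) : rdet e e = 0 := by
  simp only [rdet]; ring

theorem rd_zsmul (e x : V) (k : ℤ) : rdet e (k • x) = k * rdet e x := by
  have h1 : (k • x : V) = (k : ℝ) • x := by
    rw [← Int.cast_smul_eq_zsmul ℝ k x]
  rw [h1, rd_smul]

theorem rd_abs (e x : V) : |rdet e x| ≤ (|e.1| + |e.2|) * ‖x‖ := by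
  have h1 := norm_fst_le x
  have h2 := norm_snd_le x
  rw [Real.norm_eq_abs] at h1 h2
  have h3 : |rdet e x| ≤ |e.1| * |x.2| + |e.2| * |x.1| := by
    simp only [rdet]
    refine (abs_sub _ _).trans ?_
    rw [abs_mul, abs_mul]
  have h4 : |e.1| * |x.2| ≤ |e.1| * ‖x‖ := mul_le_mul_of_nonneg_left h2 (abs_nonneg _)
  have h5 : |e.2| * |x.1| ≤ |e.2| * ‖x‖ := mul_le_mul_of_nonneg_left h1 (abs_nonneg _)
  linarith

theorem nsq (e : V) (he : e ≠ 0) : 0 < e.1 ^ 2 + e.2 ^ 2 := by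
  by_contra hcon
  have h1 : e.1 ^ 2 + e.2 ^ 2 = 0 := le_antisymm (not_lt.1 hcon) (by positivity)
  have h2 : e.1 = 0 := by nlinarith [sq_nonneg e.1, sq_nonneg e.2]
  have h3 : e.2 = 0 := by nlinarith [sq_nonneg e.1, sq_nonneg e.2]
  exact he (Prod.ext h2 h3)

/-- Decomposition in the directions `e` and orthogonal to `e`. -/
theorem dec (e t : V) (he : e ≠ 0) :
    t - ((e.1 * t.1 + e.2 * t.2) / (e.1 ^ 2 + e.2 ^ 2)) • e =
      (rdet e t / (e.1 ^ 2 + e.2 ^ 2)) • ((-e.2, e.1) : V) := by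
  have h := (nsq e he).ne'
  refine Prod.ext ?_ ?_
  · simp only [rdet, Prod.fst_sub, Prod.smul_fst, smul_eq_mul]
    field_simp
    ring
  · simp only [rdet, Prod.snd_sub, Prod.smul_snd, smul_eq_mul]
    field_simp
    ring

/-- A parallel fault between two tiles. -/
theorem flt {C L : Set V} {e : V} {κ c : ℝ} {a b : V} (hκ : κ ≠ 0) (h : SF C (κ • e) L c)
    (h1 : ∀ x ∈ C, rdet (κ • e) (a + x) ≤ c) (h2 : ∀ x ∈ C, c ≤ rdet (κ • e) (b + x)) :
    ∃ c', SF C e L c' ∧ (((∀ x ∈ C, rdet e (a + x) ≤ c') ∧ ∀ x ∈ C, c' ≤ rdet e (b + x)) ∨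
      ((∀ x ∈ C, rdet e (b + x) ≤ c') ∧ ∀ x ∈ C, c' ≤ rdet e (a + x))) := by
  simp only [SF, rd_smul_left] at h h1 h2
  refine ⟨c / κ, ?_, ?_⟩
  · intro t ht
    rcases lt_or_gt_of_ne hκ with hneg | hpos
    · rcases h t ht with h3 | h3
      · right
        intro x hx
        rw [div_le_iff_of_neg hneg]
        have := h3 x hx
        linarith
      · left
        intro x hx
        rw [le_div_iff_of_neg hneg]
        have := h3 x hx
        linarith
    · rcases h t ht with h3 | h3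
      · left
        intro x hx
        rw [le_div_iff₀ hpos]
        have := h3 x hx
        linarith
      · right
        intro x hx
        rw [div_le_iff₀ hpos]
        have := h3 x hx
        linarith
  · rcases lt_or_gt_of_ne hκ with hneg | hpos
    · right
      refine ⟨fun x hx => ?_, fun x hx => ?_⟩
      · rw [le_div_iff_of_neg hneg]
        have := h2 x hx
        linarith
      · rw [div_le_iff_of_neg hneg]
        have := h1 x hx
        linarith
    · left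
      refine ⟨fun x hx => ?_, fun x hx => ?_⟩
      · rw [le_div_iff₀ hpos]
        have := h1 x hx
        linarith
      · rw [div_le_iff₀ hpos]
        have := h2 x hx
        linarith

/-- The tiles of the strip `0 .. h` of a tiling with faults at `0` and `h`. -/
theorem strip {C L : Set V} {e : V} {h : ℝ} (hh : 0 < h) (hL : Til C L) (h0 : SF C e L 0)
    (h1 : SF C e L h) :
    Stp C e h {t | t ∈ L ∧ ∀ x ∈ C, 0 ≤ rdet e (t + x) ∧ rdet e (t + x) ≤ h} := by
  refine ⟨hh, ?_, ?_, ?_⟩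
  · intro z hz0 hzh
    obtain ⟨t, ht, htz⟩ := hL.1 z
    have hz : t + (z - t) = z := by abel
    refine ⟨t, ⟨ht, fun x hx => ⟨?_, ?_⟩⟩, htz⟩
    · rcases h0 t ht with h3 | h3
      · have := h3 _ htz
        rw [hz] at this
        linarith
      · exact h3 x hx
    · rcases h1 t ht with h3 | h3
      · exact h3 x hx
      · have := h3 _ htz
        rw [hz] at this
        linarith
  · intro t ht t' ht' z
    exact hL.2 t ht.1 t' ht'.1 z
  · intro t ht x hx
    exact ht.2 x hx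

/-- No fault between two tiles of the strip. -/
theorem nofault {C L : Set V} {e : V} {h : ℝ} (hh : 0 < h) (hL : Til C L) (h0 : SF C e L 0)
    (h1 : SF C e L h) (hno : ∀ T, Stp C e h T → ∀ c, 0 < c → c < h → ¬ SF C e T c)
    {x y : V} (hx : x ∈ C) (hy : y ∈ C) (hxy : 0 < rdet e x - rdet e y) {a b : V}
    (ha : ∀ x ∈ C, 0 ≤ rdet e (a + x) ∧ rdet e (a + x) ≤ h)
    (hb : ∀ x ∈ C, 0 ≤ rdet e (b + x) ∧ rdet e (b + x) ≤ h) {c : ℝ} (hc : SF C e L c)
    (h2 : ∀ x ∈ C, rdet e (a + x) ≤ c) (h3 : ∀ x ∈ C, c ≤ rdet e (b + x)) : False := by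
  have hS := strip hh hL h0 h1
  refine hno _ hS c ?_ ?_ (fun t ht => hc t ht.1)
  · have g1 := h2 x hx
    have g2 := (ha y hy).1
    rw [rd_add] at g1 g2
    linarith
  · have g1 := h3 y hy
    have g2 := (hb x hx).2
    rw [rd_add] at g1 g2
    linarith

/-- Limits of tiles of the strip are in the strip. -/
theorem lim_strip {C : Set V} {e : V} {h : ℝ} {U : Ultrafilter ℕ} {f : ℕ → V} {δ : ℕ → V}
    {t : V} (hδ : Tendsto δ (U : Filter ℕ) (𝓝 0)) (hf : ∀ᶠ n in (U : Filter ℕ), f n = t + δ n)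
    (hb : ∀ n, ∀ x ∈ C, 0 ≤ rdet e (f n + x) ∧ rdet e (f n + x) ≤ h) :
    ∀ x ∈ C, 0 ≤ rdet e (t + x) ∧ rdet e (t + x) ≤ h := by
  intro x hx
  have h1 : Tendsto (fun n => t + δ n + x) (U : Filter ℕ) (𝓝 (t + 0 + x)) :=
    (tendsto_const_nhds.add hδ).add tendsto_const_nhds
  have hcont : Continuous (fun z : V => rdet e z) := by
    simp only [rdet]
    fun_prop
  have h2 : Tendsto (fun n => rdet e (t + δ n + x)) (U : Filter ℕ) (𝓝 (rdet e (t + 0 + x))) :=
    (hcont.tendsto _).comp h1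
  rw [add_zero] at h2
  refine ⟨ge_of_tendsto h2 ?_, le_of_tendsto h2 ?_⟩
  · filter_upwards [hf] with n hn
    rw [← hn]
    exact (hb n x hx).1
  · filter_upwards [hf] with n hn
    rw [← hn]
    exact (hb n x hx).2

end STF

open STF in
theorem p_STF_of (hSTK : T_STK) (hSTZ : T_STZ) (hSLIDE : T_SLIDE) (hSLF : T_SLF) (hULT : T_ULT)
    (hULB : T_ULB) (hSFL : T_SFL) (hWD : T_WD) : T_STF := by
  intro C hP hI e he h hno T w hT hw
  by_contra hflc
  simp only [FLC, not_forall] at hflc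
  obtain ⟨R, hR⟩ := hflc
  have hinf : Set.Infinite {d : V | ‖d‖ ≤ R ∧ ∃ t ∈ Stk w T, t + d ∈ Stk w T} := hR
  obtain ⟨hwd, -, ⟨x1, hx1, y1, hy1, hxy⟩, -, -⟩ := hWD C hP e he.1
  have hxy' : 0 < rdet e x1 - rdet e y1 := by rw [hxy]; exact hwd
  obtain ⟨hStkT, hStkPer, hStkSF⟩ := hSTK C hP e w T h hT hw
  have hT0 := hT
  obtain ⟨hh, -, -, hbd⟩ := hT0
  -- the sequence of differences
  obtain ⟨d, hdinj, hdR, hd⟩ : ∃ d : ℕ → V, Function.Injective d ∧ (∀ n, ‖d n‖ ≤ R) ∧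
      ∀ n, ∃ t ∈ Stk w T, t + d n ∈ Stk w T := by
    refine ⟨fun n => (Set.Infinite.natEmbedding _ hinf n).1, ?_, fun n => ?_, fun n => ?_⟩
    · intro a b hab
      exact (Set.Infinite.natEmbedding _ hinf).injective (Subtype.ext hab)
    · exact (Set.Infinite.natEmbedding _ hinf n).2.1
    · exact (Set.Infinite.natEmbedding _ hinf n).2.2
  have hd2 : ∀ n, ∃ (t : V) (k : ℤ), t ∈ T ∧ t + d n + k • w ∈ T := by
    intro n
    obtain ⟨t, ⟨k, hk⟩, ⟨k', hk'⟩⟩ := hd n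
    refine ⟨t + k • w, k' - k, hk, ?_⟩
    have : t + k • w + d n + (k' - k) • w = t + d n + k' • w := by
      rw [sub_smul]; abel
    rw [this]; exact hk'
  choose t k ht hk using hd2
  obtain ⟨s, hs⟩ : ∃ s : ℕ → ℝ, ∀ n, t n - s n • e =
      (rdet e (t n) / (e.1 ^ 2 + e.2 ^ 2)) • ((-e.2, e.1) : V) :=
    ⟨fun n => (e.1 * (t n).1 + e.2 * (t n).2) / (e.1 ^ 2 + e.2 ^ 2), fun n => dec e (t n) he.1⟩
  obtain ⟨Tn, hTn_def⟩ : ∃ Tn : ℕ → Set V, ∀ n z, z ∈ Tn n ↔ z + s n • e ∈ Stk w T :=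
    ⟨fun n => {z | z + s n • e ∈ Stk w T}, fun n z => Iff.rfl⟩
  have hTn : ∀ n, Til C (Tn n) := by
    intro n
    refine ⟨fun z => ?_, fun a ha b hb z hza hzb => ?_⟩
    · obtain ⟨u, hu, hzu⟩ := hStkT.1 (z + s n • e)
      refine ⟨u - s n • e, (hTn_def n _).2 (by rwa [sub_add_cancel]), ?_⟩
      have : z - (u - s n • e) = z + s n • e - u := by abel
      rw [this]; exact hzu
    · rw [hTn_def] at ha hb
      have h1 : z - a = z + s n • e - (a + s n • e) := by abel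
      have h2 : z - b = z + s n • e - (b + s n • e) := by abel
      rw [h1] at hza
      rw [h2] at hzb
      exact add_right_cancel (hStkT.2 _ ha _ hb _ hza hzb)
  have hse : ∀ (n : ℕ) (z x : V), rdet e (z + s n • e + x) = rdet e (z + x) := by
    intro n z x
    rw [rd_add, rd_add, rd_add, rd_smul, rd_self]; ring
  have hSFn : ∀ n, ∀ j : ℤ, SF C e (Tn n) (j * h) := by
    intro n j u hu
    rw [hTn_def] at hu
    rcases hStkSF j _ hu with h1 | h1
    · left
      intro x hx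
      have := h1 x hx
      rwa [hse] at this
    · right
      intro x hx
      have := h1 x hx
      rwa [hse] at this
  have hTS : ∀ z ∈ T, z ∈ Stk w T := fun z hz => ⟨0, by rwa [zero_smul, add_zero]⟩
  let U : Ultrafilter ℕ := hyperfilter ℕ
  obtain ⟨hLim, δ, hδ⟩ := hULT C hP U Tn hTn
  -- bounds
  have hk1 : ∀ n, |(k n : ℝ)| ≤ (h + (|e.1| + |e.2|) * R) / h := by
    intro n
    rw [le_div_iff₀ hh]
    have g1 := hbd _ (ht n) x1 hx1
    have g2 := hbd _ (hk n) x1 hx1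
    rw [rd_add] at g1
    rw [rd_add, rd_add, rd_add, rd_zsmul, hw] at g2
    have g3 := rd_abs e (d n)
    have g4 : (|e.1| + |e.2|) * ‖d n‖ ≤ (|e.1| + |e.2|) * R :=
      mul_le_mul_of_nonneg_left (hdR n) (by positivity)
    have g5 := abs_le.1 (g3.trans g4)
    have g6 : |(k n : ℝ)| * h = |(k n : ℝ) * h| := by rw [abs_mul, abs_of_pos hh]
    rw [g6, abs_le]
    constructor <;> linarith [g1.1, g1.2, g2.1, g2.2, g5.1, g5.2]
  have hrt : ∀ n, |rdet e (t n)| ≤ h + |rdet e x1| := by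
    intro n
    have g1 := hbd _ (ht n) x1 hx1
    rw [rd_add] at g1
    have g2 := abs_le.1 (le_refl |rdet e x1|)
    rw [abs_le]
    constructor <;> linarith [g1.1, g1.2, g2.1, g2.2]
  have hfb : ∀ n, ‖t n - s n • e‖ ≤
      (h + |rdet e x1|) / (e.1 ^ 2 + e.2 ^ 2) * ‖((-e.2, e.1) : V)‖ := by
    intro n
    rw [hs n, norm_smul, Real.norm_eq_abs, abs_div, abs_of_pos (nsq e he.1)]
    refine mul_le_mul_of_nonneg_right ?_ (norm_nonneg _)
    exact div_le_div_of_nonneg_right (hrt n) (nsq e he.1).le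
  obtain ⟨F, hF⟩ : ∃ F : ℝ, ∀ n, ‖t n - s n • e‖ ≤ F := ⟨_, hfb⟩
  obtain ⟨K, hK⟩ : ∃ K : ℝ, ∀ n, |(k n : ℝ)| ≤ K := ⟨_, hk1⟩
  have hgb : ∀ n, ‖t n + d n + k n • w - s n • e‖ ≤ F + R + K * ‖w‖ := by
    intro n
    have g1 : t n + d n + k n • w - s n • e = (t n - s n • e) + d n + k n • w := by abel
    have g2 : ‖(k n • w : V)‖ ≤ K * ‖w‖ := by
      have : (k n • w : V) = (k n : ℝ) • w := by rw [← Int.cast_smul_eq_zsmul ℝ (k n) w]
      rw [this, norm_smul, Real.norm_eq_abs]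
      exact mul_le_mul_of_nonneg_right (hK n) (norm_nonneg _)
    rw [g1]
    refine (norm_add_le _ _).trans (add_le_add ((norm_add_le _ _).trans ?_) g2)
    exact add_le_add (hF n) (hdR n)
  obtain ⟨t0, ht0, hf0⟩ := hULB C hP U Tn hTn δ hδ (fun n => t n - s n • e) F
    (Eventually.of_forall fun n => (hTn_def n _).2 (by
      rw [sub_add_cancel]; exact hTS _ (ht n))) (Eventually.of_forall hF)
  obtain ⟨t1, ht1, hf1⟩ := hULB C hP U Tn hTn δ hδ (fun n => t n + d n + k n • w - s n • e)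
    (F + R + K * ‖w‖) (Eventually.of_forall fun n => (hTn_def n _).2 (by
      rw [sub_add_cancel]; exact hTS _ (hk n))) (Eventually.of_forall hgb)
  have hb0 : ∀ n, ∀ x ∈ C, 0 ≤ rdet e (t n - s n • e + x) ∧
      rdet e (t n - s n • e + x) ≤ h := by
    intro n x hx
    have g1 := hbd _ (ht n) x hx
    have g2 := hse n (t n - s n • e) x
    rw [sub_add_cancel] at g2
    rwa [← g2]
  have hb1 : ∀ n, ∀ x ∈ C, 0 ≤ rdet e (t n + d n + k n • w - s n • e + x) ∧
      rdet e (t n + d n + k n • w - s n • e + x) ≤ h := by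
    intro n x hx
    have g1 := hbd _ (hk n) x hx
    have g2 := hse n (t n + d n + k n • w - s n • e) x
    rw [sub_add_cancel] at g2
    rwa [← g2]
  have hs0 := lim_strip (hδ t0 ht0).2 hf0 hb0
  have hs1 := lim_strip (hδ t1 ht1).2 hf1 hb1
  -- the displacements of `t0` and `t1` differ
  have hns : ¬ Sm U δ t0 t1 := by
    intro hsm
    have h1 : ∀ᶠ n in (U : Filter ℕ), d n ∈ (fun j : ℤ => t1 - t0 - j • w) ''
        (Set.Icc (-⌈K⌉) ⌈K⌉) := by
      filter_upwards [hf0, hf1, hsm] with n g0 g1 g2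
      refine ⟨k n, ⟨?_, ?_⟩, ?_⟩
      · have g3 := (abs_le.1 (hK n)).1
        have g4 := Int.le_ceil K
        have g5 : ((-⌈K⌉ : ℤ) : ℝ) ≤ (k n : ℝ) := by push_cast; linarith
        exact_mod_cast g5
      · have g3 := (abs_le.1 (hK n)).2
        have g4 := Int.le_ceil K
        have g5 : (k n : ℝ) ≤ ((⌈K⌉ : ℤ) : ℝ) := by linarith
        exact_mod_cast g5
      · rw [← g2] at g1
        have g3 : d n = (t n + d n + k n • w - s n • e) - (t n - s n • e) - k n • w := by abel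
        show t1 - t0 - k n • w = d n
        rw [g3, g1, g0]
        abel
    have h2 : Set.Finite (d ⁻¹' ((fun j : ℤ => t1 - t0 - j • w) '' (Set.Icc (-⌈K⌉) ⌈K⌉))) :=
      Set.Finite.preimage hdinj.injOn ((Set.finite_Icc _ _).image _)
    have h3 : ∀ᶠ n in (U : Filter ℕ), n ∉ d ⁻¹' ((fun j : ℤ => t1 - t0 - j • w) ''
        (Set.Icc (-⌈K⌉) ⌈K⌉)) := by
      have := h2.compl_mem_hyperfilter
      exact this
    obtain ⟨n, g1, g2⟩ := (h1.and h3).exists
    exact g2 g1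
  have hLF : ∀ j : ℤ, SF C e (Lim U Tn) (j * h) :=
    fun j => hSFL C hP U Tn e (j * h) he.1 (fun n => hSFn n j)
  have hL0 : SF C e (Lim U Tn) 0 := by
    have := hLF 0
    simpa using this
  have hL1 : SF C e (Lim U Tn) h := by
    have := hLF 1
    simpa using this
  rcases hSLIDE C hP U Tn hTn δ hδ with hall | ⟨e', he', hSl⟩
  · exact hns (hall t0 ht0 t1 ht1)
  by_cases hpar : rdet e e' = 0
  · -- parallel
    obtain ⟨κ, hκ⟩ : ∃ κ : ℝ, e' = κ • e := by
      refine ⟨(e.1 * e'.1 + e.2 * e'.2) / (e.1 ^ 2 + e.2 ^ 2), ?_⟩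
      have := dec e e' he.1
      rw [hpar, zero_div, zero_smul] at this
      exact sub_eq_zero.1 this
    have hκ0 : κ ≠ 0 := by
      rintro rfl
      rw [zero_smul] at hκ
      exact he'.1 hκ
    have hIe : Iv C e' := hI e' he'
    rcases hSLF C hP U Tn hTn δ hδ e' he'.1 hIe hSl t0 ht0 t1 ht1 hns with
      ⟨c, g1, g2, g3⟩ | ⟨c, g1, g2, g3⟩
    · rw [hκ] at g1 g2 g3
      obtain ⟨c', k1, (⟨k2, k3⟩ | ⟨k2, k3⟩)⟩ := flt hκ0 g1 g2 g3
      · exact nofault hh hLim hL0 hL1 hno hx1 hy1 hxy' hs0 hs1 k1 k2 k3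
      · exact nofault hh hLim hL0 hL1 hno hx1 hy1 hxy' hs1 hs0 k1 k2 k3
    · rw [hκ] at g1 g2 g3
      obtain ⟨c', k1, (⟨k2, k3⟩ | ⟨k2, k3⟩)⟩ := flt hκ0 g1 g2 g3
      · exact nofault hh hLim hL0 hL1 hno hx1 hy1 hxy' hs1 hs0 k1 k2 k3
      · exact nofault hh hLim hL0 hL1 hno hx1 hy1 hxy' hs0 hs1 k1 k2 k3
  · exact hns (hSTZ C hP U Tn hTn δ hδ e e' hpar h hh hSFn hSl t0 ht0 t1 ht1)

end Pool.Agent.PTA
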